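import Mathlib

set_option autoImplicit false

/-!
The category of (not necessarily unital) rings, the category of conical commutative monoids,
and the functor `V` of nonstable K-theory.
-/

namespace Pool.Agent.H494R3.VR

open CategoryTheory

/-- A ring, not necessarily with unit. -/
structure Rng where
  carrier : Type
  str : NonUnitalRing carrier

instance (R : Rng) : NonUnitalRing R.carrier := R.str

/-- The category of rings; morphisms are the ring homomorphisms (nothing about units). -/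
instance : Category Rng where
  Hom R S := R.carrier →ₙ+* S.carrier
  id R := NonUnitalRingHom.id R.carrier
  comp f g := NonUnitalRingHom.comp g f

/-- A conical commutative monoid. -/
structure ConMon where
  carrier : Type
  str : AddCommMonoid carrier
  conical : ∀ x y : carrier, x + y = 0 → x = 0 ∧ y = 0

instance (M : ConMon) : AddCommMonoid M.carrier := M.str

/-- The category of conical commutative monoids; morphisms are all monoid homomorphisms. -/
instance : Category ConMon where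
  Hom M N := M.carrier →+ N.carrier
  id M := AddMonoidHom.id M.carrier
  comp f g := AddMonoidHom.comp g f

section
variable {R : Type} [NonUnitalRing R]

/-- The upper-left corner embedding of `M_n(R)` into `M_N(R)` (used for `n ≤ N`). -/
def corner {n : ℕ} (N : ℕ) (e : Matrix (Fin n) (Fin n) R) : Matrix (Fin N) (Fin N) R :=
  fun i j => if h : i.1 < n ∧ j.1 < n then e ⟨i.1, h.1⟩ ⟨j.1, h.2⟩ else 0

/-- The block diagonal matrix `diag(e, f)`. -/
def blk {m n : ℕ} (e : Matrix (Fin m) (Fin m) R) (f : Matrix (Fin n) (Fin n) R) :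
    Matrix (Fin (m + n)) (Fin (m + n)) R :=
  (Matrix.fromBlocks e 0 0 f).submatrix finSumFinEquiv.symm finSumFinEquiv.symm

end

/-- An idempotent matrix of some finite size over `R`. -/
structure Idem (R : Type) [NonUnitalRing R] where
  size : ℕ
  mat : Matrix (Fin size) (Fin size) R
  idem : mat * mat = mat

/-- Equivalence of idempotents of `M_∞(R) = ⋃ M_n(R)`: `e = x y`, `f = y x` with
`x, y ∈ M_N(R)` for some `N`, everything placed in upper-left corners. -/
def Idem.Equiv {R : Type} [NonUnitalRing R] (e f : Idem R) : Prop :=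
  ∃ N : ℕ, e.size ≤ N ∧ f.size ≤ N ∧ ∃ x y : Matrix (Fin N) (Fin N) R,
    x * y = corner N e.mat ∧ y * x = corner N f.mat

/-! ### rectangular equivalence -/

theorem rowcol {R : Type} [NonUnitalRing R] {a₁ a₂ b₁ b₂ c : Type} [Fintype c]
    {a : Matrix a₁ c R} {b : Matrix a₂ c R} {x : Matrix c b₁ R} {y : Matrix c b₂ R} :
    Matrix.fromRows a b * Matrix.fromCols x y =
      Matrix.fromBlocks (a * x) (a * y) (b * x) (b * y) := by
  ext (i | i) (j | j) <;> rfl

theorem colrow {R : Type} [NonUnitalRing R] {a₁ b₁ c d : Type} [Fintype c] [Fintype d]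
    {a : Matrix a₁ c R} {b : Matrix a₁ d R} {x : Matrix c b₁ R} {y : Matrix d b₁ R} :
    Matrix.fromCols a b * Matrix.fromRows x y = a * x + b * y := by
  ext i j
  rw [Matrix.mul_apply, Fintype.sum_sum_type]
  rfl

section
variable {R : Type} [NonUnitalRing R] {ι κ μ ν : Type} [Fintype ι] [Fintype κ] [Fintype μ]
  [Fintype ν]

/-- rectangular form of the equivalence -/
def Eqv (e : Matrix ι ι R) (f : Matrix κ κ R) : Prop :=
  ∃ (x : Matrix ι κ R) (y : Matrix κ ι R), x * y = e ∧ y * x = f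

theorem Eqv.refl {e : Matrix ι ι R} (he : e * e = e) : Eqv e e := ⟨e, e, he, he⟩

theorem Eqv.symm {e : Matrix ι ι R} {f : Matrix κ κ R} (h : Eqv e f) : Eqv f e := by
  obtain ⟨x, y, h1, h2⟩ := h
  exact ⟨y, x, h2, h1⟩

theorem Eqv.trans {e : Matrix ι ι R} {f : Matrix κ κ R} {g : Matrix μ μ R} (he : e * e = e)
    (hg : g * g = g) (h : Eqv e f) (h' : Eqv f g) : Eqv e g := by
  obtain ⟨x, y, h1, h2⟩ := h
  obtain ⟨x', y', h1', h2'⟩ := h'
  refine ⟨x * x', y' * y, ?_, ?_⟩
  · rw [Matrix.mul_assoc, ← Matrix.mul_assoc x', h1', ← h2, Matrix.mul_assoc, ← Matrix.mul_assoc,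
      h1, he]
  · rw [Matrix.mul_assoc, ← Matrix.mul_assoc y, h2, ← h1', Matrix.mul_assoc, ← Matrix.mul_assoc,
      h2', hg]

theorem Eqv.reindex {e : Matrix ι ι R} (he : e * e = e) (σ : ι ≃ κ) :
    Eqv e (e.submatrix σ.symm σ.symm) := by
  refine ⟨e.submatrix id σ.symm, e.submatrix σ.symm id, ?_, ?_⟩
  · rw [Matrix.submatrix_mul_equiv, he]
    rfl
  · have h := Matrix.submatrix_mul_equiv e e σ.symm (Equiv.refl ι) σ.symm
    rw [he] at h
    exact h

theorem Eqv.blocks {e : Matrix ι ι R} {f : Matrix κ κ R} {e' : Matrix μ μ R}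
    {f' : Matrix ν ν R} (h : Eqv e f) (h' : Eqv e' f') :
    Eqv (Matrix.fromBlocks e 0 0 e') (Matrix.fromBlocks f 0 0 f') := by
  obtain ⟨x, y, h1, h2⟩ := h
  obtain ⟨x', y', h1', h2'⟩ := h'
  refine ⟨Matrix.fromBlocks x 0 0 x', Matrix.fromBlocks y 0 0 y', ?_, ?_⟩
  · rw [Matrix.fromBlocks_multiply]
    simp [h1, h1']
  · rw [Matrix.fromBlocks_multiply]
    simp [h2, h2']

theorem Eqv.zero : Eqv (0 : Matrix ι ι R) (0 : Matrix κ κ R) :=
  ⟨0, 0, by simp, by simp⟩

theorem Eqv.stab {e : Matrix ι ι R} (he : e * e = e) :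
    Eqv (Matrix.fromBlocks e 0 0 (0 : Matrix κ κ R)) e := by
  refine ⟨Matrix.fromRows e 0, Matrix.fromCols e 0, ?_, ?_⟩
  · rw [rowcol]
    simp [he]
  · rw [colrow]
    simp [he]

theorem idem_blocks {e : Matrix ι ι R} {f : Matrix κ κ R} (he : e * e = e) (hf : f * f = f) :
    Matrix.fromBlocks e 0 0 f * Matrix.fromBlocks e 0 0 f = Matrix.fromBlocks e 0 0 f := by
  rw [Matrix.fromBlocks_multiply]
  simp [he, hf]

theorem idem_sub {e : Matrix ι ι R} (he : e * e = e) (σ : κ ≃ ι) :
    e.submatrix σ σ * e.submatrix σ σ = e.submatrix σ σ := by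
  rw [Matrix.submatrix_mul_equiv, he]

theorem blk_idem {m n : ℕ} {e : Matrix (Fin m) (Fin m) R} {f : Matrix (Fin n) (Fin n) R}
    (he : e * e = e) (hf : f * f = f) : blk e f * blk e f = blk e f :=
  idem_sub (idem_blocks he hf) _

theorem Eqv.blk {m n : ℕ} {e : Matrix (Fin m) (Fin m) R} {f : Matrix (Fin n) (Fin n) R}
    (he : e * e = e) (hf : f * f = f) : Eqv (Matrix.fromBlocks e 0 0 f) (VR.blk e f) :=
  Eqv.reindex (idem_blocks he hf) finSumFinEquiv

theorem corner_eqv {n N : ℕ} (h : n ≤ N) {e : Matrix (Fin n) (Fin n) R} (he : e * e = e) :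
    Eqv e (corner N e) := by
  obtain ⟨d, rfl⟩ := Nat.exists_eq_add_of_le h
  refine ⟨fun i j => if h : j.1 < n then e i ⟨j.1, h⟩ else 0,
    fun i j => if h : i.1 < n then e ⟨i.1, h⟩ j else 0, ?_, ?_⟩
  · ext i j
    rw [Matrix.mul_apply, Fin.sum_univ_add]
    conv_rhs => rw [← he, Matrix.mul_apply]
    simp
  · ext i j
    rw [Matrix.mul_apply, corner]
    by_cases hi : i.1 < n
    · by_cases hj : j.1 < n
      · rw [dif_pos ⟨hi, hj⟩]
        simp only [dif_pos hi, dif_pos hj]
        conv_rhs => rw [← he, Matrix.mul_apply]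
      · rw [dif_neg (fun h => hj h.2)]
        simp [hj]
    · rw [dif_neg (fun h => hi h.1)]
      simp [hi]

theorem corner_idem {n N : ℕ} (h : n ≤ N) {e : Matrix (Fin n) (Fin n) R} (he : e * e = e) :
    corner N e * corner N e = corner N e := by
  obtain ⟨d, rfl⟩ := Nat.exists_eq_add_of_le h
  ext i j
  rw [Matrix.mul_apply, Fin.sum_univ_add]
  unfold corner
  by_cases hi : i.1 < n
  · by_cases hj : j.1 < n
    · rw [dif_pos ⟨hi, hj⟩]
      conv_rhs => rw [← he, Matrix.mul_apply]
      simp [hi, hj]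
    · simp [hj]
  · simp [hi]

end

section
variable {R : Type} [NonUnitalRing R]

theorem Idem.equiv_iff (e f : Idem R) : e.Equiv f ↔ Eqv e.mat f.mat := by
  constructor
  · rintro ⟨N, he, hf, x, y, h1, h2⟩
    have e1 := corner_eqv he e.idem
    have f1 := corner_eqv hf f.idem
    have h3 : Eqv (corner N e.mat) (corner N f.mat) := ⟨x, y, h1, h2⟩
    exact Eqv.trans e.idem f.idem (Eqv.trans e.idem (corner_idem hf f.idem) e1 h3) f1.symm
  · intro h
    have he : e.size ≤ max e.size f.size := le_max_left _ _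
    have hf : f.size ≤ max e.size f.size := le_max_right _ _
    have e1 := (corner_eqv he e.idem).symm
    have f1 := corner_eqv hf f.idem
    have h3 : Eqv (corner (max e.size f.size) e.mat) (corner (max e.size f.size) f.mat) :=
      Eqv.trans (corner_idem he e.idem) (corner_idem hf f.idem)
        (Eqv.trans (corner_idem he e.idem) f.idem e1 h) f1
    obtain ⟨x, y, h1, h2⟩ := h3
    exact ⟨_, he, hf, x, y, h1, h2⟩

theorem Idem.equiv_equivalence (R : Type) [NonUnitalRing R] :
    Equivalence (Idem.Equiv (R := R)) where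
  refl e := (Idem.equiv_iff e e).2 (Eqv.refl e.idem)
  symm h := (Idem.equiv_iff _ _).2 ((Idem.equiv_iff _ _).1 h).symm
  trans h h' := (Idem.equiv_iff _ _).2
    (Eqv.trans (Idem.idem _) (Idem.idem _) ((Idem.equiv_iff _ _).1 h) ((Idem.equiv_iff _ _).1 h'))

/-- equivalence of idempotents as a setoid -/
def Idem.setoid (R : Type) [NonUnitalRing R] : Setoid (Idem R) :=
  ⟨Idem.Equiv, Idem.equiv_equivalence R⟩

/-- The set `V(R)` of equivalence classes of idempotent matrices over `R`. -/
def VV (R : Type) [NonUnitalRing R] : Type := Quotient (Idem.setoid R)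

/-- The sum `[e] + [f] = [diag(e, f)]`. -/
def Idem.add (e f : Idem R) : Idem R := ⟨e.size + f.size, blk e.mat f.mat, blk_idem e.idem f.idem⟩

/-- The zero idempotent. -/
def Idem.zero (R : Type) [NonUnitalRing R] : Idem R := ⟨0, 0, by simp⟩

theorem Idem.add_congr {e e' f f' : Idem R} (h : e.Equiv e') (h' : f.Equiv f') :
    (e.add f).Equiv (e'.add f') := by
  rw [Idem.equiv_iff] at h h' ⊢
  have h1 := Eqv.blk e.idem f.idem
  have h2 := Eqv.blk e'.idem f'.idem
  exact Eqv.trans (blk_idem e.idem f.idem) (blk_idem e'.idem f'.idem)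
    (Eqv.trans (blk_idem e.idem f.idem) (idem_blocks e'.idem f'.idem) h1.symm (h.blocks h')) h2

/-- addition on `V(R)` -/
def VV.add (a b : VV R) : VV R :=
  Quotient.map₂ Idem.add (fun _ _ h _ _ h' => Idem.add_congr h h') a b

theorem Idem.add_zero_eq (e : Idem R) : (e.add (Idem.zero R)).Equiv e := by
  rw [Idem.equiv_iff]
  have h1 := Eqv.blk e.idem (Idem.zero R).idem
  exact Eqv.trans (blk_idem e.idem (Idem.zero R).idem) e.idem h1.symm (Eqv.stab e.idem)

theorem Idem.add_comm_eq (e f : Idem R) : (e.add f).Equiv (f.add e) := by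
  rw [Idem.equiv_iff]
  have h1 := Eqv.blk e.idem f.idem
  have h2 := Eqv.blk f.idem e.idem
  have h3 : Eqv (Matrix.fromBlocks e.mat 0 0 f.mat) (Matrix.fromBlocks f.mat 0 0 e.mat) := by
    have := Eqv.reindex (idem_blocks e.idem f.idem) (Equiv.sumComm (Fin e.size) (Fin f.size))
    have h4 : (Matrix.fromBlocks e.mat 0 0 f.mat).submatrix
        (Equiv.sumComm (Fin e.size) (Fin f.size)).symm
        (Equiv.sumComm (Fin e.size) (Fin f.size)).symm = Matrix.fromBlocks f.mat 0 0 e.mat := by
      ext (i | i) (j | j) <;> rfl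
    rwa [h4] at this
  exact Eqv.trans (blk_idem e.idem f.idem) (blk_idem f.idem e.idem)
    (Eqv.trans (blk_idem e.idem f.idem) (idem_blocks f.idem e.idem) h1.symm h3) h2

theorem Idem.add_assoc_eq (e f g : Idem R) : ((e.add f).add g).Equiv (e.add (f.add g)) := by
  rw [Idem.equiv_iff]
  have h1 := Eqv.blk (e.add f).idem g.idem
  have h2 := Eqv.blk e.idem (f.add g).idem
  have h3 := (Eqv.blk e.idem f.idem).blocks (Eqv.refl g.idem)
  have h4 := (Eqv.refl e.idem).blocks (Eqv.blk f.idem g.idem)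
  have hl := idem_blocks (idem_blocks e.idem f.idem) g.idem
  have hr := idem_blocks e.idem (idem_blocks f.idem g.idem)
  have h5 : Eqv (Matrix.fromBlocks (Matrix.fromBlocks e.mat 0 0 f.mat) 0 0 g.mat)
      (Matrix.fromBlocks e.mat 0 0 (Matrix.fromBlocks f.mat 0 0 g.mat)) := by
    have := Eqv.reindex hl (Equiv.sumAssoc (Fin e.size) (Fin f.size) (Fin g.size))
    have h6 : (Matrix.fromBlocks (Matrix.fromBlocks e.mat 0 0 f.mat) 0 0 g.mat).submatrix
        (Equiv.sumAssoc (Fin e.size) (Fin f.size) (Fin g.size)).symm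
        (Equiv.sumAssoc (Fin e.size) (Fin f.size) (Fin g.size)).symm =
        Matrix.fromBlocks e.mat 0 0 (Matrix.fromBlocks f.mat 0 0 g.mat) := by
      ext (i | i | i) (j | j | j) <;> rfl
    rwa [h6] at this
  have i1 := blk_idem (e.add f).idem g.idem
  have i2 := blk_idem e.idem (f.add g).idem
  have j1 := idem_blocks (e.add f).idem g.idem
  have j2 := idem_blocks e.idem (f.add g).idem
  exact Eqv.trans i1 i2 (Eqv.trans i1 j2 (Eqv.trans i1 hr (Eqv.trans i1 hl h1.symm h3.symm) h5) h4) h2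

/-- The class `[e]` in `V(R)`. -/
def VV.mk (e : Idem R) : VV R := Quotient.mk (Idem.setoid R) e

instance (R : Type) [NonUnitalRing R] : Add (VV R) := ⟨VV.add⟩

instance (R : Type) [NonUnitalRing R] : Zero (VV R) := ⟨VV.mk (Idem.zero R)⟩

/-- `V(R)` is a commutative monoid. -/
instance VV.monoid (R : Type) [NonUnitalRing R] : AddCommMonoid (VV R) where
  add_assoc := by
    rintro ⟨a⟩ ⟨b⟩ ⟨c⟩
    exact Quotient.sound (s := Idem.setoid R) (Idem.add_assoc_eq a b c)
  add_comm := by
    rintro ⟨a⟩ ⟨b⟩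
    exact Quotient.sound (s := Idem.setoid R) (Idem.add_comm_eq a b)
  add_zero := by
    rintro ⟨a⟩
    exact Quotient.sound (s := Idem.setoid R) (Idem.add_zero_eq a)
  zero_add := by
    rintro ⟨a⟩
    exact Quotient.sound (s := Idem.setoid R)
      ((Idem.equiv_equivalence R).trans (Idem.add_comm_eq _ a) (Idem.add_zero_eq a))
  nsmul := nsmulRec

theorem VV.mk_eq {e f : Idem R} : VV.mk e = VV.mk f ↔ Eqv e.mat f.mat :=
  (Quotient.eq (r := Idem.setoid R)).trans (Idem.equiv_iff e f)

theorem VV.add_mk (e f : Idem R) : VV.mk e + VV.mk f = VV.mk (e.add f) := rfl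

theorem VV.zero_mk : (0 : VV R) = VV.mk (Idem.zero R) := rfl

theorem VV.conical (a b : VV R) (h : a + b = 0) : a = 0 ∧ b = 0 := by
  have key : ∀ a b : VV R, a + b = 0 → a = 0 := by
    rintro ⟨a⟩ ⟨b⟩ h
    have h1 : Eqv (a.add b).mat (Idem.zero R).mat := VV.mk_eq.1 h
    have h2 := Eqv.blk a.idem b.idem
    have h3 : Eqv (Matrix.fromBlocks a.mat 0 0 b.mat) (Idem.zero R).mat :=
      Eqv.trans (idem_blocks a.idem b.idem) (Idem.zero R).idem h2 h1
    obtain ⟨x, y, hx, _⟩ := h3
    have : IsEmpty (Fin (Idem.zero R).size) := inferInstanceAs (IsEmpty (Fin 0))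
    have h4 : Matrix.fromBlocks a.mat 0 0 b.mat = 0 := by
      rw [← hx]
      ext i j
      rw [Matrix.mul_apply]
      exact Finset.sum_of_isEmpty _
    have h5 : a.mat = 0 := by
      ext i j
      have := congrFun (congrFun h4 (Sum.inl i)) (Sum.inl j)
      exact this
    apply VV.mk_eq.2
    rw [h5]
    exact Eqv.zero
  exact ⟨key a b h, key b a (by rw [add_comm]; exact h)⟩

end

section
variable {R S : Type} [NonUnitalRing R] [NonUnitalRing S]

/-- The image of an idempotent matrix under a ring homomorphism (entrywise). -/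
def Idem.map (φ : R →ₙ+* S) (e : Idem R) : Idem S :=
  ⟨e.size, e.mat.map φ, by
    rw [← Matrix.map_mul, e.idem]⟩

theorem Eqv.map {ι κ : Type} [Fintype ι] [Fintype κ] {e : Matrix ι ι R} {f : Matrix κ κ R}
    (h : Eqv e f) (φ : R →ₙ+* S) : Eqv (e.map φ) (f.map φ) := by
  obtain ⟨x, y, h1, h2⟩ := h
  refine ⟨x.map φ, y.map φ, ?_, ?_⟩
  · rw [← Matrix.map_mul, h1]
  · rw [← Matrix.map_mul, h2]

/-- The monoid homomorphism `V(φ) : [e] ↦ [φ(e)]`. -/
def VV.map (φ : R →ₙ+* S) : VV R →+ VV S where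
  toFun := Quotient.map (sa := Idem.setoid R) (sb := Idem.setoid S) (Idem.map φ)
    (fun e f h => (Idem.equiv_iff _ _).2 (((Idem.equiv_iff e f).1 h).map φ))
  map_zero' := by
    apply VV.mk_eq.2
    have : ((Idem.zero R).map φ).mat = 0 := by
      ext i; exact i.elim0
    rw [this]
    exact Eqv.zero
  map_add' := by
    rintro ⟨a⟩ ⟨b⟩
    apply VV.mk_eq.2
    have : ((a.add b).map φ).mat = ((a.map φ).add (b.map φ)).mat := by
      show (blk a.mat b.mat).map φ = blk (a.mat.map φ) (b.mat.map φ)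
      unfold blk
      rw [← Matrix.submatrix_map, Matrix.fromBlocks_map]
      simp
    rw [this]
    exact Eqv.refl (Idem.idem _)

end

/-- The functor `V` from rings to conical commutative monoids. -/
def Vfun : Rng ⥤ ConMon where
  obj R := ⟨VV R.carrier, inferInstance, VV.conical⟩
  map φ := VV.map φ
  map_id R := by
    apply AddMonoidHom.ext
    rintro ⟨a⟩
    rfl
  map_comp φ ψ := by
    apply AddMonoidHom.ext
    rintro ⟨a⟩
    rfl

end Pool.Agent.H494R3.VR
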