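import Mathlib

set_option autoImplicit false

/-!
Lattice calculus for representations of a bipartite gluing pattern.
-/

namespace Pool.Agent.H494R3.VR

open scoped Classical

/-- gluing pattern -/
structure Bip where
  I : Type
  C : Type
  side : I → Bool
  R : C → Finset I
  base : Bool → C → I
  base_mem : ∀ s c, base s c ∈ R c
  side_base : ∀ s c, side (base s c) = s

noncomputable def Bip.Rs (B : Bip) (s : Bool) (c : B.C) : Finset B.I :=
  (B.R c).filter (fun i => B.side i = s)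

theorem Bip.mem_Rs {B : Bip} {s : Bool} {c : B.C} {i : B.I} :
    i ∈ B.Rs s c ↔ i ∈ B.R c ∧ B.side i = s := by
  simp [Bip.Rs]

theorem Bip.base_Rs (B : Bip) (s : Bool) (c : B.C) : B.base s c ∈ B.Rs s c :=
  Bip.mem_Rs.2 ⟨B.base_mem s c, B.side_base s c⟩

theorem Bip.sum_R {B : Bip} {M : Type} [AddCommMonoid M] (c : B.C) (f : B.I → M) :
    ∑ i ∈ B.R c, f i = ∑ i ∈ B.Rs true c, f i + ∑ i ∈ B.Rs false c, f i := by
  rw [← Finset.sum_filter_add_sum_filter_not (B.R c) (fun i => B.side i = true)]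
  congr 1
  apply Finset.sum_congr _ (fun _ _ => rfl)
  ext i
  simp [Bip.Rs]

variable {B : Bip} {k : Type} [Field k]

/-- representation -/
structure Rep (B : Bip) (k : Type) [Field k] (N : Type) [AddCommGroup N] [Module k N] where
  p : B.I → N →ₗ[k] N
  t : B.C → N →ₗ[k] N
  pp : ∀ i x, p i (p i x) = p i x
  pq : ∀ i j, i ≠ j → ∀ x, p i (p j x) = 0
  tt : ∀ c x, t c (t c x) = ∑ i ∈ B.R c, p i x
  tp : ∀ c x, t c (∑ i ∈ B.R c, p i x) = t c x
  ts : ∀ c s x, t c (∑ i ∈ B.Rs s c, p i x) = ∑ i ∈ B.Rs (!s) c, p i (t c x)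

section
variable {N : Type} [AddCommGroup N] [Module k N] {N' : Type} [AddCommGroup N'] [Module k N']
variable {N'' : Type} [AddCommGroup N''] [Module k N'']

noncomputable def Rep.P (A : Rep B k N) (s : Bool) (c : B.C) : N →ₗ[k] N := ∑ i ∈ B.Rs s c, A.p i

theorem Rep.P_apply (A : Rep B k N) (s : Bool) (c : B.C) (x : N) :
    A.P s c x = ∑ i ∈ B.Rs s c, A.p i x := by
  simp [Rep.P]

theorem Rep.pij (A : Rep B k N) (i j : B.I) (x : N) :
    A.p i (A.p j x) = if i = j then A.p i x else 0 := by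
  by_cases h : i = j
  · subst h; simp [A.pp]
  · simp [h, A.pq i j h]

theorem Rep.pP_mem (A : Rep B k N) {s : Bool} {c : B.C} {i : B.I} (hi : i ∈ B.Rs s c) (x : N) :
    A.p i (A.P s c x) = A.p i x := by
  rw [A.P_apply, map_sum]
  simp_rw [A.pij]
  rw [Finset.sum_ite_eq, if_pos hi]

theorem Rep.pP_not (A : Rep B k N) {s : Bool} {c : B.C} {i : B.I} (hi : i ∉ B.Rs s c) (x : N) :
    A.p i (A.P s c x) = 0 := by
  rw [A.P_apply, map_sum]
  simp_rw [A.pij]
  rw [Finset.sum_ite_eq, if_neg hi]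

theorem Rep.fix_not (A : Rep B k N) {s : Bool} {c : B.C} {i : B.I} (hi : i ∉ B.Rs s c) {x : N}
    (hx : A.P s c x = x) : A.p i x = 0 := by
  rw [← hx]; exact A.pP_not hi x

theorem Rep.fix_side (A : Rep B k N) {s : Bool} {c : B.C} {i : B.I} (hi : B.side i = !s) {x : N}
    (hx : A.P s c x = x) : A.p i x = 0 := by
  apply A.fix_not _ hx
  intro h
  rw [Bip.mem_Rs] at h
  rw [h.2] at hi
  cases s <;> simp at hi

theorem Rep.PP (A : Rep B k N) (s : Bool) (c : B.C) (x : N) : A.P s c (A.P s c x) = A.P s c x := by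
  rw [A.P_apply s c (A.P s c x), A.P_apply s c x]
  apply Finset.sum_congr rfl
  intro i hi
  rw [← A.P_apply s c x, A.pP_mem hi]

theorem Rep.tP (A : Rep B k N) (s : Bool) (c : B.C) (x : N) :
    A.t c (A.P s c x) = A.P (!s) c (A.t c x) := by
  rw [A.P_apply, A.P_apply, A.ts]

theorem Rep.t_split (A : Rep B k N) (c : B.C) (x : N) :
    A.t c x = A.t c (A.P true c x) + A.t c (A.P false c x) := by
  rw [← map_add, A.P_apply, A.P_apply, ← Bip.sum_R, A.tp]

theorem Rep.tt' (A : Rep B k N) (c : B.C) (x : N) :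
    A.t c (A.t c x) = A.P true c x + A.P false c x := by
  rw [A.tt, Bip.sum_R, A.P_apply, A.P_apply]

theorem Rep.P_opp (A : Rep B k N) (s : Bool) (c : B.C) {x : N} (hx : A.P s c x = x) :
    A.P (!s) c x = 0 := by
  rw [A.P_apply]
  apply Finset.sum_eq_zero
  intro i hi
  exact A.fix_side (Bip.mem_Rs.1 hi).2 hx

theorem Rep.tt_fix (A : Rep B k N) {s : Bool} {c : B.C} {x : N} (hx : A.P s c x = x) :
    A.t c (A.t c x) = x := by
  have h1 := A.P_opp s c hx
  rw [A.tt']
  cases s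
  · simp only [Bool.not_false] at h1
    rw [h1, hx, zero_add]
  · simp only [Bool.not_true] at h1
    rw [h1, hx, add_zero]

theorem Rep.P_t (A : Rep B k N) {s : Bool} {c : B.C} {x : N} (hx : A.P s c x = x) :
    A.P (!s) c (A.t c x) = A.t c x := by
  rw [← A.tP, hx]

/-- homomorphisms -/
structure IsHom (A : Rep B k N) (A' : Rep B k N') (h : N →ₗ[k] N') : Prop where
  p : ∀ i x, h (A.p i x) = A'.p i (h x)
  t : ∀ c x, h (A.t c x) = A'.t c (h x)

theorem IsHom.id (A : Rep B k N) : IsHom A A LinearMap.id := ⟨fun _ _ => rfl, fun _ _ => rfl⟩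

theorem IsHom.comp {A : Rep B k N} {A' : Rep B k N'} {A'' : Rep B k N''} {h : N →ₗ[k] N'}
    {g : N' →ₗ[k] N''} (hg : IsHom A' A'' g) (hh : IsHom A A' h) : IsHom A A'' (g ∘ₗ h) :=
  ⟨fun i x => by simp [hh.p, hg.p], fun i x => by simp [hh.t, hg.t]⟩

theorem IsHom.P {A : Rep B k N} {A' : Rep B k N'} {h : N →ₗ[k] N'} (hh : IsHom A A' h)
    (s : Bool) (c : B.C) (x : N) : h (A.P s c x) = A'.P s c (h x) := by
  rw [A.P_apply, A'.P_apply, map_sum]
  simp_rw [hh.p]

def Rep.inC (A : Rep B k N) (X : Submodule k N) (c : B.C) (s : Bool) (v : N) : Prop :=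
  v ∈ X ∧ A.P s c v = v ∧ A.t c v ∈ X

theorem Rep.inC.flip {A : Rep B k N} {X : Submodule k N} {c : B.C} {s : Bool} {v : N}
    (h : A.inC X c s v) : A.inC X c (!s) (A.t c v) :=
  ⟨h.2.2, A.P_t h.2.1, by rw [A.tt_fix h.2.1]; exact h.1⟩

theorem Rep.inC.mono {A : Rep B k N} {X Y : Submodule k N} (hXY : X ≤ Y) {c : B.C} {s : Bool}
    {v : N} (h : A.inC X c s v) : A.inC Y c s v :=
  ⟨hXY h.1, h.2.1, hXY h.2.2⟩

structure IsLat (A : Rep B k N) (E : N →ₗ[k] N) (X : Submodule k N) : Prop where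
  gr : ∀ i, ∀ x ∈ X, A.p i x ∈ X
  fd : FiniteDimensional k X
  idX : ∀ x ∈ X, E x = x
  ext : ∀ (N' : Type) [AddCommGroup N'] [Module k N'] (A' : Rep B k N') (f : N →ₗ[k] N'),
    (∀ i, ∀ x ∈ X, f (A.p i x) = A'.p i (f x)) →
    (∀ c s v, A.inC X c s v → f (A.t c v) = A'.t c (f v)) →
      ∃ h : N →ₗ[k] N', IsHom A A' h ∧ ∀ x ∈ X, h x = f x
  gen : ∀ S : Submodule k N, X ≤ S → (∀ i, ∀ x ∈ S, A.p i x ∈ S) →
    (∀ c, ∀ x ∈ S, A.t c x ∈ S) → ∀ x, E x ∈ S

def Rep.Term (A : Rep B k N) (X : Submodule k N) : Prop :=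
  ∀ c s v, A.inC X c s v → v = 0

theorem IsLat.grP {A : Rep B k N} {E : N →ₗ[k] N} {X : Submodule k N} (h : IsLat A E X)
    (s : Bool) (c : B.C) {x : N} (hx : x ∈ X) : A.P s c x ∈ X := by
  rw [A.P_apply]
  exact Submodule.sum_mem _ (fun i _ => h.gr i x hx)

/-- two homs agreeing on a lattice agree after `E` -/
theorem IsLat.agree {A : Rep B k N} {E : N →ₗ[k] N} {X : Submodule k N} (h : IsLat A E X)
    {A' : Rep B k N'} {f g : N →ₗ[k] N'} (hf : IsHom A A' f) (hg : IsHom A A' g)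
    (hfg : ∀ x ∈ X, f x = g x) (x : N) : f (E x) = g (E x) := by
  have := h.gen (LinearMap.eqLocus f g) (fun x hx => hfg x hx) ?_ ?_ x
  · exact this
  · intro i x hx
    have hx' : f x = g x := hx
    show f (A.p i x) = g (A.p i x)
    rw [hf.p, hg.p, hx']
  · intro i x hx
    have hx' : f x = g x := hx
    show f (A.t i x) = g (A.t i x)
    rw [hf.t, hg.t, hx']

structure Datum (A : Rep B k N) (X : Submodule k N) (s : Bool) (c : B.C) (l : N →ₗ[k] k)
    (x : N) : Prop where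
  r1 : ∀ c' s' v, c' ≠ c → A.inC X c' s' v → ∀ i ∈ B.Rs s c, l (A.p i v) = 0
  r2 : ∀ v, A.inC X c s v → ∀ i ∈ B.Rs s c, ∀ j ∈ B.Rs s c, l (A.p i v) = l (A.p j v)
  r3 : A.inC X c s x
  r4 : ∀ i ∈ B.Rs s c, l (A.p i x) = 1

/-- the reduced subspace -/
def Rep.rd (A : Rep B k N) (X : Submodule k N) (J : Finset B.I) (l : N →ₗ[k] k) :
    Submodule k N where
  carrier := {u | u ∈ X ∧ ∀ i ∈ J, l (A.p i u) = 0}
  add_mem' := by
    rintro a b ⟨ha, ha'⟩ ⟨hb, hb'⟩
    exact ⟨X.add_mem ha hb, fun i hi => by rw [map_add, map_add, ha' i hi, hb' i hi, add_zero]⟩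
  zero_mem' := ⟨X.zero_mem, fun i hi => by simp⟩
  smul_mem' := by
    rintro c a ⟨ha, ha'⟩
    exact ⟨X.smul_mem c ha, fun i hi => by rw [map_smul, map_smul, ha' i hi, smul_zero]⟩

theorem Rep.mem_rd {A : Rep B k N} {X : Submodule k N} {J : Finset B.I} {l : N →ₗ[k] k} {u : N} :
    u ∈ A.rd X J l ↔ u ∈ X ∧ ∀ i ∈ J, l (A.p i u) = 0 := Iff.rfl

theorem Rep.rd_le (A : Rep B k N) (X : Submodule k N) (J : Finset B.I) (l : N →ₗ[k] k) :
    A.rd X J l ≤ X := fun _ h => h.1

/-- the projection onto the reduced subspace -/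
noncomputable def Rep.rpi (A : Rep B k N) (J : Finset B.I) (l : N →ₗ[k] k) (x : N) :
    N →ₗ[k] N := LinearMap.id - ∑ i ∈ J, (l ∘ₗ A.p i).smulRight (A.p i x)

theorem Rep.rpi_apply (A : Rep B k N) (J : Finset B.I) (l : N →ₗ[k] k) (x u : N) :
    A.rpi J l x u = u - ∑ i ∈ J, l (A.p i u) • A.p i x := by
  simp [Rep.rpi]

theorem Rep.p_rpi (A : Rep B k N) (J : Finset B.I) (l : N →ₗ[k] k) (x u : N) (j : B.I) :
    A.p j (A.rpi J l x u) = A.p j u - if j ∈ J then l (A.p j u) • A.p j x else 0 := by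
  rw [A.rpi_apply, map_sub, map_sum]
  congr 1
  simp_rw [map_smul, A.pij, smul_ite, smul_zero]
  rw [Finset.sum_ite_eq]

theorem Rep.rpi_p (A : Rep B k N) (J : Finset B.I) (l : N →ₗ[k] k) (x u : N) (j : B.I) :
    A.rpi J l x (A.p j u) = A.p j u - if j ∈ J then l (A.p j u) • A.p j x else 0 := by
  rw [A.rpi_apply]
  congr 1
  simp_rw [A.pij]
  by_cases hj : j ∈ J
  · rw [if_pos hj, Finset.sum_eq_single_of_mem j hj]
    · simp
    · intro i _ hij
      simp [hij]
  · rw [if_neg hj]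
    apply Finset.sum_eq_zero
    intro i hi
    have : i ≠ j := fun h => hj (h ▸ hi)
    simp [this]

theorem Rep.rpi_comm (A : Rep B k N) (J : Finset B.I) (l : N →ₗ[k] k) (x u : N) (j : B.I) :
    A.rpi J l x (A.p j u) = A.p j (A.rpi J l x u) := by
  rw [A.rpi_p, A.p_rpi]

theorem Rep.rpi_mem (A : Rep B k N) {X : Submodule k N} (hX : ∀ i, ∀ x ∈ X, A.p i x ∈ X)
    {J : Finset B.I} {l : N →ₗ[k] k} {x u : N} (hx : x ∈ X) (hl : ∀ i ∈ J, l (A.p i x) = 1)
    (hu : u ∈ X) : A.rpi J l x u ∈ A.rd X J l := by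
  refine ⟨?_, ?_⟩
  · rw [A.rpi_apply]
    exact X.sub_mem hu (X.sum_mem fun i _ => X.smul_mem _ (hX i x hx))
  · intro i hi
    rw [A.p_rpi, if_pos hi, map_sub, map_smul, hl i hi]
    simp

theorem Rep.rpi_id (A : Rep B k N) {J : Finset B.I} {l : N →ₗ[k] k} {x u : N}
    (h : ∀ i ∈ J, l (A.p i u) = 0) : A.rpi J l x u = u := by
  rw [A.rpi_apply, Finset.sum_eq_zero, sub_zero]
  intro i hi
  rw [h i hi, zero_smul]

theorem Rep.rd_gr (A : Rep B k N) {X : Submodule k N} (hX : ∀ i, ∀ x ∈ X, A.p i x ∈ X)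
    (J : Finset B.I) (l : N →ₗ[k] k) : ∀ i, ∀ x ∈ A.rd X J l, A.p i x ∈ A.rd X J l := by
  rintro i x ⟨hx, hx'⟩
  refine ⟨hX i x hx, fun j hj => ?_⟩
  rw [A.pij]
  by_cases h : j = i
  · rw [if_pos h, hx' j hj]
  · rw [if_neg h, map_zero]

theorem IsLat.mono_fd {X Y : Submodule k N} (h : Y ≤ X) (hX : FiniteDimensional k X) :
    FiniteDimensional k Y := Submodule.finiteDimensional_of_le h

theorem Datum.opp {A : Rep B k N} {X : Submodule k N} {s : Bool} {c : B.C} {l : N →ₗ[k] k}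
    {x : N} (_h : Datum A X s c l x) {c' : B.C} {v : N} (hv : A.P (!s) c' v = v) :
    ∀ i ∈ B.Rs s c, l (A.p i v) = 0 := by
  intro i hi
  rw [A.fix_side _ hv, map_zero]
  rw [(Bip.mem_Rs.1 hi).2, Bool.not_not]

theorem IsLat.red {A : Rep B k N} {E : N →ₗ[k] N} {X : Submodule k N} (hX : IsLat A E X)
    {s : Bool} {c : B.C} {l : N →ₗ[k] k} {x : N} (h : Datum A X s c l x) :
    IsLat A E (A.rd X (B.Rs s c) l) := by
  set J := B.Rs s c with hJ
  have hx := h.r3
  have htx : A.t c x ∈ A.rd X J l := ⟨hx.2.2, h.opp (A.P_t hx.2.1)⟩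
  refine ⟨A.rd_gr hX.gr J l, IsLat.mono_fd (A.rd_le X J l) hX.fd, fun y hy => hX.idX y hy.1,
    ?_, ?_⟩
  · intro N' _ _ A' f hf1 hf2
    set z := A'.t c (f (A.t c x)) with hz
    have hfz : A'.P (!s) c (f (A.t c x)) = f (A.t c x) := by
      conv_rhs => rw [← A.P_t hx.2.1]
      rw [A.P_apply, A'.P_apply, map_sum]
      apply Finset.sum_congr rfl
      intro i _
      rw [hf1 i _ htx]
    have hPz : A'.P s c z = z := by
      have := A'.P_t hfz
      rwa [Bool.not_not] at this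
    have htz : A'.t c z = f (A.t c x) := A'.tt_fix hfz
    let f' : N →ₗ[k] N' := f ∘ₗ A.rpi J l x + ∑ i ∈ J, (l ∘ₗ A.p i).smulRight (A'.p i z)
    have hf' : ∀ u, f' u = f (A.rpi J l x u) + ∑ i ∈ J, l (A.p i u) • A'.p i z := by
      intro u
      simp [f']
    have hfix : ∀ u, (∀ i ∈ J, l (A.p i u) = 0) → f' u = f u := by
      intro u hu
      rw [hf', A.rpi_id hu, Finset.sum_eq_zero, add_zero]
      intro i hi
      rw [hu i hi, zero_smul]
    have hs : ∀ v, A.inC X c s v → f' (A.t c v) = A'.t c (f' v) := by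
      intro v hv
      have hb := B.base_Rs s c
      set a := l (A.p (B.base s c) v) with ha
      have hv' : A.rpi J l x v = v - a • x := by
        rw [A.rpi_apply]
        congr 1
        conv_rhs => rw [← hx.2.1, A.P_apply, Finset.smul_sum]
        apply Finset.sum_congr rfl
        intro i hi
        rw [h.r2 v hv i hi _ hb]
      have hm : v - a • x ∈ A.rd X J l := by
        rw [← hv']
        exact A.rpi_mem hX.gr hx.1 h.r4 hv.1
      have htm : A.t c (v - a • x) ∈ A.rd X J l := by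
        have hP : A.P s c (v - a • x) = v - a • x := by
          rw [map_sub, map_smul, hv.2.1, hx.2.1]
        refine ⟨?_, h.opp (A.P_t hP)⟩
        rw [map_sub, map_smul]
        exact X.sub_mem hv.2.2 (X.smul_mem _ hx.2.2)
      have hC : A.inC (A.rd X J l) c s (v - a • x) :=
        ⟨hm, by rw [map_sub, map_smul, hv.2.1, hx.2.1], htm⟩
      have h1 := hf2 c s _ hC
      have h2 : f' v = f (v - a • x) + a • z := by
        rw [hf', hv']
        congr 1
        conv_rhs => rw [← hPz, A'.P_apply, Finset.smul_sum]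
        apply Finset.sum_congr rfl
        intro i hi
        rw [h.r2 v hv i hi _ hb]
      rw [h2, map_add, map_smul, ← h1, htz, hfix _ (h.opp (A.P_t hv.2.1)), ← map_smul,
        ← map_add]
      congr 1
      rw [map_sub, map_smul]
      abel
    have hgr : ∀ i, ∀ y ∈ X, f' (A.p i y) = A'.p i (f' y) := by
      intro i y hy
      rw [hf', hf', A.rpi_comm, hf1 i _ (A.rpi_mem hX.gr hx.1 h.r4 hy), map_add, map_sum]
      congr 1
      simp_rw [map_smul, A'.pij, A.pij, smul_ite, smul_zero]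
      rw [Finset.sum_ite_eq]
      by_cases hi : i ∈ J
      · rw [if_pos hi, Finset.sum_eq_single_of_mem i hi]
        · simp
        · intro j _ hji
          simp [hji]
      · rw [if_neg hi]
        apply Finset.sum_eq_zero
        intro j hj
        have : j ≠ i := fun h => hi (h ▸ hj)
        simp [this]
    obtain ⟨g, hg, hgf⟩ := hX.ext N' A' f' hgr (by
      intro c' s' v hv
      by_cases hc : c' = c
      · subst hc
        by_cases hss : s' = s
        · subst hss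
          exact hs v hv
        · have hss' : s = !s' := by cases s <;> cases s' <;> simp_all
          have hw := hv.flip
          rw [← hss'] at hw
          have h3 := hs _ hw
          rw [A.tt_fix hv.2.1] at h3
          rw [h3]
          have h4 : A'.P s c' (f' (A.t c' v)) = f' (A.t c' v) := by
            conv_rhs => rw [← hw.2.1]
            rw [A.P_apply, A'.P_apply, map_sum]
            apply Finset.sum_congr rfl
            intro i _
            rw [hgr i _ hw.1]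
          rw [A'.tt_fix h4]
      · have hv1 := h.r1 c' s' v hc hv
        have hv2 := h.r1 c' _ _ hc hv.flip
        rw [hfix _ hv1, hfix _ hv2]
        exact hf2 c' s' v ⟨⟨hv.1, hv1⟩, hv.2.1, ⟨hv.2.2, hv2⟩⟩)
    refine ⟨g, hg, fun y hy => ?_⟩
    rw [hgf y hy.1, hfix y hy.2]
  · intro S hS hSp hSt
    apply hX.gen S _ hSp hSt
    intro u hu
    have h1 : x ∈ S := by
      have := hSt c _ (hS htx)
      rwa [A.tt_fix hx.2.1] at this
    have h2 : u = A.rpi J l x u + ∑ i ∈ J, l (A.p i u) • A.p i x := by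
      rw [A.rpi_apply]; abel
    rw [h2]
    exact S.add_mem (hS (A.rpi_mem hX.gr hx.1 h.r4 hu))
      (S.sum_mem fun i _ => S.smul_mem _ (hSp i x h1))

/-- the span of the components of `t c x` -/
def Rep.xs (A : Rep B k N) (s : Bool) (c : B.C) (x : N) : Submodule k N :=
  Submodule.span k ((fun i => A.p i x) '' (B.Rs s c : Set B.I))

theorem Rep.xs_gr (A : Rep B k N) (s : Bool) (c : B.C) (x : N) :
    ∀ i, ∀ y ∈ A.xs s c x, A.p i y ∈ A.xs s c x := by
  intro i y hy
  induction hy using Submodule.span_induction with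
  | mem y hy =>
    obtain ⟨j, hj, rfl⟩ := hy
    simp only
    rw [A.pij]
    split_ifs with h
    · subst h
      exact Submodule.subset_span ⟨i, hj, rfl⟩
    · exact Submodule.zero_mem _
  | zero => rw [map_zero]; exact Submodule.zero_mem _
  | add y z _ _ hy hz => rw [map_add]; exact Submodule.add_mem _ hy hz
  | smul a y _ hy => rw [map_smul]; exact Submodule.smul_mem _ _ hy

theorem Rep.mem_xs (A : Rep B k N) {s : Bool} {c : B.C} {x : N} (hx : A.P s c x = x) :
    x ∈ A.xs s c x := by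
  have h : ∑ i ∈ B.Rs s c, A.p i x ∈ A.xs s c x :=
    Submodule.sum_mem _ fun i hi => Submodule.subset_span ⟨i, hi, rfl⟩
  rwa [← A.P_apply, hx] at h

theorem IsLat.exp {A : Rep B k N} {E : N →ₗ[k] N} (hE : IsHom A A E) {X : Submodule k N}
    (hX : IsLat A E X) {s : Bool} {c : B.C} {x : N} (hx : x ∈ X) (hP : A.P s c x = x) :
    IsLat A E (X ⊔ A.xs (!s) c (A.t c x)) := by
  have hgrall : ∀ i, ∀ y ∈ X ⊔ A.xs (!s) c (A.t c x), A.p i y ∈ X ⊔ A.xs (!s) c (A.t c x) := by
    intro i y hy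
    obtain ⟨a, ha, b, hb, rfl⟩ := Submodule.mem_sup.1 hy
    rw [map_add]
    exact Submodule.add_mem_sup (hX.gr i a ha) (A.xs_gr _ _ _ i b hb)
  have htx : A.t c x ∈ X ⊔ A.xs (!s) c (A.t c x) :=
    Submodule.mem_sup_right (A.mem_xs (A.P_t hP))
  refine ⟨hgrall, ?_, ?_, ?_, ?_⟩
  · have := hX.fd
    have : FiniteDimensional k (A.xs (!s) c (A.t c x)) :=
      FiniteDimensional.span_of_finite k ((B.Rs (!s) c).finite_toSet.image _)
    exact Submodule.finiteDimensional_sup _ _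
  · intro y hy
    obtain ⟨a, ha, b, hb, rfl⟩ := Submodule.mem_sup.1 hy
    rw [map_add, hX.idX a ha]
    congr 1
    clear hy
    induction hb using Submodule.span_induction with
    | mem y hy =>
      obtain ⟨j, hj, rfl⟩ := hy
      simp only
      rw [hE.p, hE.t, hX.idX x hx]
    | zero => rw [map_zero]
    | add y z h1 h2 hy hz => rw [map_add, hy, hz]
    | smul r y h1 hy => rw [map_smul, hy]
  · intro N' _ _ A' f hf1 hf2
    obtain ⟨h, hh, hhf⟩ := hX.ext N' A' f (fun i y hy => hf1 i y (Submodule.mem_sup_left hy))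
      (fun c s v hv => hf2 c s v (hv.mono le_sup_left))
    refine ⟨h, hh, ?_⟩
    intro y hy
    obtain ⟨a, ha, b, hb, rfl⟩ := Submodule.mem_sup.1 hy
    rw [map_add, map_add, hhf a ha]
    congr 1
    have hft : f (A.t c x) = A'.t c (f x) :=
      hf2 c s x ⟨Submodule.mem_sup_left hx, hP, htx⟩
    clear hy
    induction hb using Submodule.span_induction with
    | mem y hy =>
      obtain ⟨j, hj, rfl⟩ := hy
      simp only
      rw [hh.p, hh.t, hhf x hx, hf1 j _ htx, hft]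
    | zero => rw [map_zero, map_zero]
    | add y z h1 h2 hy hz => rw [map_add, map_add, hy, hz]
    | smul r y h1 hy => rw [map_smul, map_smul, hy]
  · intro S hS hSp hSt
    exact hX.gen S (le_trans le_sup_left hS) hSp hSt

/-- every element of the range of `E` lies in a bigger lattice -/
theorem IsLat.contain1 {A : Rep B k N} {E : N →ₗ[k] N} (hE : IsHom A A E) {X : Submodule k N}
    (hX : IsLat A E X) (u : N) : ∃ Y, X ≤ Y ∧ IsLat A E Y ∧ E u ∈ Y := by
  let S : Submodule k N :=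
    { carrier := {u | ∀ Y, X ≤ Y → IsLat A E Y → ∃ Z, Y ≤ Z ∧ IsLat A E Z ∧ u ∈ Z}
      add_mem' := by
        intro a b ha hb Y hY hYl
        obtain ⟨Z, h1, h2, h3⟩ := ha Y hY hYl
        obtain ⟨Z', h1', h2', h3'⟩ := hb Z (hY.trans h1) h2
        exact ⟨Z', h1.trans h1', h2', Z'.add_mem (h1' h3) h3'⟩
      zero_mem' := fun Y hY hYl => ⟨Y, le_refl _, hYl, Y.zero_mem⟩
      smul_mem' := by
        intro c a ha Y hY hYl
        obtain ⟨Z, h1, h2, h3⟩ := ha Y hY hYl
        exact ⟨Z, h1, h2, Z.smul_mem _ h3⟩ }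
  have hu : E u ∈ S := by
    apply hX.gen S
    · intro x hx Y hY hYl
      exact ⟨Y, le_refl _, hYl, hY hx⟩
    · intro i x hx Y hY hYl
      obtain ⟨Z, h1, h2, h3⟩ := hx Y hY hYl
      exact ⟨Z, h1, h2, h2.gr i x h3⟩
    · intro c x hx Y hY hYl
      obtain ⟨Z, h1, h2, h3⟩ := hx Y hY hYl
      have e1 := h2.exp hE (h2.grP true c h3) (A.PP true c x)
      have e2 := e1.exp hE (Submodule.mem_sup_left (h2.grP false c h3)) (A.PP false c x)
      refine ⟨_, ?_, e2, ?_⟩
      · exact h1.trans (le_sup_left.trans le_sup_left)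
      · rw [A.t_split c x]
        apply Submodule.add_mem
        · exact Submodule.mem_sup_left (Submodule.mem_sup_right (A.mem_xs (A.P_t (A.PP true c x))))
        · exact Submodule.mem_sup_right (A.mem_xs (A.P_t (A.PP false c x)))
  obtain ⟨Z, h1, h2, h3⟩ := hu X (le_refl _) hX
  exact ⟨Z, h1, h2, h3⟩

theorem IsLat.contain {A : Rep B k N} {E : N →ₗ[k] N} (hE : IsHom A A E)
    {X : Submodule k N}
    (hX : IsLat A E X) (U : Submodule k N) (hU : FiniteDimensional k U)
    (hEU : ∀ u ∈ U, E u = u) : ∃ Y, X ≤ Y ∧ IsLat A E Y ∧ U ≤ Y := by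
  obtain ⟨T, hT⟩ := (Submodule.fg_iff_finiteDimensional U).2 hU
  have key : ∀ T' : Finset N, T' ⊆ T → ∃ Y, X ≤ Y ∧ IsLat A E Y ∧ ∀ u ∈ T', u ∈ Y := by
    intro T'
    induction T' using Finset.induction_on with
    | empty => exact fun _ => ⟨X, le_refl _, hX, by simp⟩
    | insert a T' ha ih =>
      intro hs
      obtain ⟨Y, h1, h2, h3⟩ := ih (fun x hx => hs (Finset.mem_insert_of_mem hx))
      obtain ⟨Z, h4, h5, h6⟩ := h2.contain1 hE a
      have haU : a ∈ U := by
        rw [← hT]; exact Submodule.subset_span (hs (Finset.mem_insert_self _ _))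
      rw [hEU a haU] at h6
      refine ⟨Z, h1.trans h4, h5, ?_⟩
      intro u hu
      rcases Finset.mem_insert.1 hu with rfl | hu
      · exact h6
      · exact h4 (h3 u hu)
  obtain ⟨Y, h1, h2, h3⟩ := key T (Finset.Subset.refl _)
  refine ⟨Y, h1, h2, ?_⟩
  rw [← hT, Submodule.span_le]
  exact fun u hu => h3 u hu

/-- initial lattice of a retract -/
theorem IsLat.init {A : Rep B k N} {E : N →ₗ[k] N} (hE : IsHom A A E)
    (hEE : ∀ x, E (E x) = E x) {X₀ : Submodule k N} (hX : IsLat A LinearMap.id X₀) :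
    ∃ X, IsLat A E X := by
  have := hX.fd
  obtain ⟨X, h1, h2, h3⟩ := hX.contain (IsHom.id A) (X₀.map E) inferInstance (fun _ _ => rfl)
  have := h2.fd
  refine ⟨X.map E, ?_, inferInstance, ?_, ?_, ?_⟩
  · rintro i _ ⟨x, hx, rfl⟩
    exact ⟨A.p i x, h2.gr i x hx, hE.p i x⟩
  · rintro _ ⟨x, hx, rfl⟩
    exact hEE x
  · intro N' _ _ A' f hf1 hf2
    obtain ⟨h, hh, hhf⟩ := h2.ext N' A' (f ∘ₗ E) (by
      intro i x hx
      simp only [LinearMap.comp_apply]
      rw [hE.p, hf1 i _ ⟨x, hx, rfl⟩]) (by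
      intro c s v hv
      simp only [LinearMap.comp_apply]
      rw [hE.t]
      apply hf2 c s
      refine ⟨⟨v, hv.1, rfl⟩, ?_, ⟨A.t c v, hv.2.2, hE.t c v⟩⟩
      rw [← hE.P, hv.2.1])
    have key := hX.agree hh (hh.comp hE) (by
      intro x hx
      rw [hhf x (h1 hx), LinearMap.comp_apply, LinearMap.comp_apply]
      have : E x ∈ X := h3 ⟨x, hx, rfl⟩
      rw [hhf _ this, LinearMap.comp_apply, hEE])
    refine ⟨h, hh, ?_⟩
    rintro _ ⟨x, hx, rfl⟩
    have := key x
    simp only [LinearMap.id_apply, LinearMap.comp_apply] at this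
    rw [← this, hhf x hx, LinearMap.comp_apply]
  · intro S hS hSp hSt x
    have := h2.gen (S.comap E) (fun y hy => hS ⟨y, hy, rfl⟩) (by
      intro i y hy
      rw [Submodule.mem_comap] at hy ⊢
      rw [hE.p]
      exact hSp i _ hy) (by
      intro i y hy
      rw [Submodule.mem_comap] at hy ⊢
      rw [hE.t]
      exact hSt i _ hy) x
    exact this

end

end Pool.Agent.H494R3.VR
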