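import Mathlib
import Pool.Agent.H494R3.VR.B1

set_option autoImplicit false

/-!
Frames and the progress lemmas.
-/

namespace Pool.Agent.H494R3.VR

open scoped Classical

variable {B : Bip} {k : Type} [Field k]
variable {N : Type} [AddCommGroup N] [Module k N] {N' : Type} [AddCommGroup N'] [Module k N']

def Rep.nd (A : Rep B k N) (u : N) : Prop := ∃ J : Finset B.I, ∑ i ∈ J, A.p i u = u

theorem Rep.nd_of_P {A : Rep B k N} {s : Bool} {c : B.C} {v : N} (h : A.P s c v = v) : A.nd v :=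
  ⟨B.Rs s c, by rw [← A.P_apply, h]⟩

structure Frame (A : Rep B k N) (D : Submodule k N) where
  W : Type
  ws : W → Bool
  wc : W → B.C
  wl : W → ℕ
  lam : W → N →ₗ[k] k
  vec : W → N
  f1 : ∀ w w', ∀ i ∈ B.Rs (ws w) (wc w), lam w (A.p i (vec w')) = if w = w' then 1 else 0
  f2 : ∀ u, {w | ∃ i ∈ B.Rs (ws w) (wc w), lam w (A.p i u) ≠ 0}.Finite
  f3 : ∀ w, ∀ u ∈ D, ∀ i ∈ B.Rs (ws w) (wc w), lam w (A.p i u) = 0
  f4 : ∀ u, A.nd u → (∀ w, ∀ i ∈ B.Rs (ws w) (wc w), lam w (A.p i u) = 0) → u ∈ D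
  f5 : ∀ s c v, v ∈ D → A.P s c v = v → A.t c v ∈ D → v = 0
  star : ∀ w c v, A.P (ws w) c v = v →
    (∀ w', wl w < wl w' → ∀ i ∈ B.Rs (ws w') (wc w'), lam w' (A.p i (A.t c v)) = 0) →
    (wc w ≠ c → ∀ i ∈ B.Rs (ws w) (wc w), lam w (A.p i v) = 0) ∧
    (wc w = c → ∀ i ∈ B.Rs (ws w) (wc w), ∀ j ∈ B.Rs (ws w) (wc w),
      lam w (A.p i v) = lam w (A.p j v))

theorem Frame.fin {A : Rep B k N} {D : Submodule k N} (Fr : Frame A D) (f : N' →ₗ[k] N)
    (X : Submodule k N') (hX : FiniteDimensional k X) :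
    ∃ Wf : Finset Fr.W, ∀ w, w ∉ Wf → ∀ u ∈ X, ∀ i ∈ B.Rs (Fr.ws w) (Fr.wc w),
      Fr.lam w (A.p i (f u)) = 0 := by
  obtain ⟨T, hT⟩ := (Submodule.fg_iff_finiteDimensional X).2 hX
  have hfin : (⋃ u ∈ (T : Set N'), {w | ∃ i ∈ B.Rs (Fr.ws w) (Fr.wc w),
      Fr.lam w (A.p i (f u)) ≠ 0}).Finite :=
    T.finite_toSet.biUnion fun u _ => Fr.f2 (f u)
  refine ⟨hfin.toFinset, fun w hw u hu i hi => ?_⟩
  rw [← hT] at hu
  induction hu using Submodule.span_induction with
  | mem y hy =>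
    by_contra hne
    apply hw
    rw [Set.Finite.mem_toFinset]
    exact Set.mem_biUnion hy ⟨i, hi, hne⟩
  | zero => simp
  | add y z _ _ hy hz => rw [map_add, map_add, map_add, hy, hz, add_zero]
  | smul r y _ hy => rw [map_smul, map_smul, map_smul, hy, smul_zero]

/-- the elementary operator of a word -/
noncomputable def Frame.op {A : Rep B k N} {D : Submodule k N} (Fr : Frame A D) (w : Fr.W) :
    N →ₗ[k] N :=
  ∑ i ∈ B.Rs (Fr.ws w) (Fr.wc w), (Fr.lam w ∘ₗ A.p i).smulRight (A.p i (Fr.vec w))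

theorem Frame.op_apply {A : Rep B k N} {D : Submodule k N} (Fr : Frame A D) (w : Fr.W) (u : N) :
    Fr.op w u = ∑ i ∈ B.Rs (Fr.ws w) (Fr.wc w), Fr.lam w (A.p i u) • A.p i (Fr.vec w) := by
  simp [Frame.op]

theorem Frame.p_op {A : Rep B k N} {D : Submodule k N} (Fr : Frame A D) (w : Fr.W) (u : N)
    (j : B.I) : A.p j (Fr.op w u) =
      if j ∈ B.Rs (Fr.ws w) (Fr.wc w) then Fr.lam w (A.p j u) • A.p j (Fr.vec w) else 0 := by
  rw [Fr.op_apply, map_sum]
  simp_rw [map_smul, A.pij, smul_ite, smul_zero]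
  rw [Finset.sum_ite_eq]

theorem Frame.op_p {A : Rep B k N} {D : Submodule k N} (Fr : Frame A D) (w : Fr.W) (u : N)
    (j : B.I) : Fr.op w (A.p j u) = A.p j (Fr.op w u) := by
  rw [Fr.p_op, Fr.op_apply]
  simp_rw [A.pij]
  by_cases hj : j ∈ B.Rs (Fr.ws w) (Fr.wc w)
  · rw [if_pos hj, Finset.sum_eq_single_of_mem j hj]
    · simp
    · intro i _ hij
      simp [hij]
  · rw [if_neg hj]
    apply Finset.sum_eq_zero
    intro i hi
    have : i ≠ j := fun h => hj (h ▸ hi)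
    simp [this]

theorem Frame.op_zero {A : Rep B k N} {D : Submodule k N} (Fr : Frame A D) (w : Fr.W) {u : N}
    (hu : ∀ i ∈ B.Rs (Fr.ws w) (Fr.wc w), Fr.lam w (A.p i u) = 0) : Fr.op w u = 0 := by
  rw [Fr.op_apply]
  apply Finset.sum_eq_zero
  intro i hi
  rw [hu i hi, zero_smul]

/-- the datum obtained from a word of maximal length -/
theorem Frame.datum {A : Rep B k N} {A' : Rep B k N'} {D : Submodule k N'}
    (Fr : Frame A' D) {X : Submodule k N} {f : N →ₗ[k] N'} (hf : IsHom A A' f) {w : Fr.W}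
    (hw : ∀ w', Fr.wl w < Fr.wl w' → ∀ u ∈ X, ∀ i ∈ B.Rs (Fr.ws w') (Fr.wc w'),
      Fr.lam w' (A'.p i (f u)) = 0)
    {v : N} (hv : A.inC X (Fr.wc w) (Fr.ws w) v) {i₀ : B.I}
    (hi₀ : i₀ ∈ B.Rs (Fr.ws w) (Fr.wc w)) (hne : Fr.lam w (A'.p i₀ (f v)) ≠ 0) :
    ∃ x, Datum A X (Fr.ws w) (Fr.wc w) (Fr.lam w ∘ₗ f) x := by
  have hst : ∀ c v, A.inC X c (Fr.ws w) v →
    (Fr.wc w ≠ c → ∀ i ∈ B.Rs (Fr.ws w) (Fr.wc w), Fr.lam w (A'.p i (f v)) = 0) ∧
    (Fr.wc w = c → ∀ i ∈ B.Rs (Fr.ws w) (Fr.wc w), ∀ j ∈ B.Rs (Fr.ws w) (Fr.wc w),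
      Fr.lam w (A'.p i (f v)) = Fr.lam w (A'.p j (f v))) := by
    intro c v hv
    apply Fr.star w c (f v)
    · rw [← hf.P, hv.2.1]
    · intro w' hw' i hi
      rw [← hf.t]
      exact hw w' hw' _ hv.2.2 i hi
  set a := Fr.lam w (A'.p i₀ (f v)) with ha
  refine ⟨a⁻¹ • v, ?_, ?_, ?_, ?_⟩
  · intro c' s' v' hc hv' i hi
    simp only [LinearMap.comp_apply]
    rw [hf.p]
    by_cases hs : s' = Fr.ws w
    · subst hs
      exact (hst c' v' hv').1 (fun h => hc h.symm) i hi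
    · rw [← hf.p, A.fix_side _ hv'.2.1, map_zero, map_zero]
      rw [(Bip.mem_Rs.1 hi).2]
      cases s' <;> cases h : Fr.ws w <;> simp_all
  · intro v' hv' i hi j hj
    simp only [LinearMap.comp_apply]
    rw [hf.p, hf.p]
    exact (hst _ v' hv').2 rfl i hi j hj
  · exact ⟨X.smul_mem _ hv.1, by rw [map_smul, hv.2.1], by rw [map_smul]; exact X.smul_mem _ hv.2.2⟩
  · intro i hi
    simp only [LinearMap.comp_apply, map_smul]
    rw [hf.p, (hst _ v hv).2 rfl i hi i₀ hi₀, ← ha, smul_eq_mul, inv_mul_cancel₀ hne]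

theorem progress {A : Rep B k N} {A' : Rep B k N'} {E : N →ₗ[k] N} {X : Submodule k N}
    (hX : IsLat A E X) {D : Submodule k N'} (Fr : Frame A' D) :
    ∀ (n : ℕ) (Wf : Finset Fr.W), Wf.card = n → ∀ f : N →ₗ[k] N', IsHom A A' f →
      (∀ w, w ∉ Wf → ∀ u ∈ X, ∀ i ∈ B.Rs (Fr.ws w) (Fr.wc w), Fr.lam w (A'.p i (f u)) = 0) →
      (∃ c s v, A.inC X c s v ∧ f v ≠ 0) →
      ∃ s c l x, Datum A X s c l x ∧ ∀ u ∈ X, f u = 0 → ∀ i, l (A.p i u) = 0 := by
  intro n
  induction n with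
  | zero =>
    intro Wf hn f hf hW ⟨c, s, v, hv, hne⟩
    exfalso
    apply hne
    have hW0 : Wf = ∅ := Finset.card_eq_zero.1 hn
    subst hW0
    apply Fr.f5 s c
    · apply Fr.f4 _ (Rep.nd_of_P (s := s) (c := c) (by rw [← hf.P, hv.2.1]))
      intro w i hi
      exact hW w (by simp) v hv.1 i hi
    · rw [← hf.P, hv.2.1]
    · rw [← hf.t]
      apply Fr.f4 _ (Rep.nd_of_P (s := !s) (c := c) (by rw [← hf.P, A.P_t hv.2.1]))
      intro w i hi
      exact hW w (by simp) _ hv.2.2 i hi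
  | succ n ih =>
    intro Wf hn f hf hW hex
    have hne : Wf.Nonempty := by
      rw [← Finset.card_pos]; omega
    obtain ⟨w, hw, hmax⟩ := Finset.exists_max_image Wf Fr.wl hne
    have hw' : ∀ w', Fr.wl w < Fr.wl w' → ∀ u ∈ X, ∀ i ∈ B.Rs (Fr.ws w') (Fr.wc w'),
        Fr.lam w' (A'.p i (f u)) = 0 := by
      intro w' hlt
      apply hW
      intro hmem
      have := hmax w' hmem
      omega
    by_cases hcase : ∃ v, A.inC X (Fr.wc w) (Fr.ws w) v ∧ ∃ i ∈ B.Rs (Fr.ws w) (Fr.wc w),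
        Fr.lam w (A'.p i (f v)) ≠ 0
    · obtain ⟨v, hv, i, hi, hvi⟩ := hcase
      obtain ⟨x, hx⟩ := Fr.datum hf hw' hv hi hvi
      refine ⟨_, _, _, x, hx, ?_⟩
      intro u hu hfu i
      rw [LinearMap.comp_apply, hf.p, hfu, map_zero, map_zero]
    · push Not at hcase
      -- the operator kills all `inC`
      have hkill : ∀ c s v, A.inC X c s v → Fr.op w (f v) = 0 := by
        intro c s v hv
        apply Fr.op_zero
        intro i hi
        by_cases hs : s = Fr.ws w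
        · subst hs
          by_cases hc : c = Fr.wc w
          · subst hc
            exact hcase v hv i hi
          · refine ((Fr.star w c (f v) (by rw [← hf.P, hv.2.1]) ?_).1 (fun h => hc h.symm)) i hi
            intro w' hlt j hj
            rw [← hf.t]
            exact hw' w' hlt _ hv.2.2 j hj
        · rw [← hf.p, A.fix_side _ hv.2.1, map_zero, map_zero]
          rw [(Bip.mem_Rs.1 hi).2]
          cases s <;> cases h : Fr.ws w <;> simp_all
      obtain ⟨g, hg, hgf⟩ := hX.ext N' A' (f - Fr.op w ∘ₗ f) (by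
        intro i x _
        simp only [LinearMap.sub_apply, LinearMap.comp_apply]
        rw [hf.p, Fr.op_p, map_sub]) (by
        intro c s v hv
        simp only [LinearMap.sub_apply, LinearMap.comp_apply]
        rw [hkill c s v hv, hkill c _ _ hv.flip, sub_zero, sub_zero, hf.t])
      have hgv : ∀ c s v, A.inC X c s v → g v = f v := by
        intro c s v hv
        rw [hgf v hv.1, LinearMap.sub_apply, LinearMap.comp_apply, hkill c s v hv, sub_zero]
      obtain ⟨s, c, l, x, hd, hl⟩ := ih (Wf.erase w) (by rw [Finset.card_erase_of_mem hw, hn]; rfl)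
        g hg (by
          intro w' hw'' u hu i hi
          rw [hgf u hu, LinearMap.sub_apply, LinearMap.comp_apply, map_sub, Fr.p_op, map_sub]
          by_cases h : w' = w
          · subst h
            rw [if_pos hi, map_smul, Fr.f1 w' w' i hi, if_pos rfl]
            simp
          · have h1 : w' ∉ Wf := fun h' => hw'' (Finset.mem_erase.2 ⟨h, h'⟩)
            rw [hW w' h1 u hu i hi]
            split_ifs with h2
            · rw [map_smul, Fr.f1 w' w i hi, if_neg h]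
              simp
            · simp) (by
          obtain ⟨c, s, v, hv, hne⟩ := hex
          exact ⟨c, s, v, hv, by rwa [hgv c s v hv]⟩)
      refine ⟨s, c, l, x, hd, ?_⟩
      intro u hu hfu i
      apply hl u hu
      rw [hgf u hu, LinearMap.sub_apply, LinearMap.comp_apply, hfu, map_zero, sub_zero]

theorem Datum.lt {A : Rep B k N} {X : Submodule k N} (hX : FiniteDimensional k X) {s : Bool}
    {c : B.C} {l : N →ₗ[k] k} {x : N} (h : Datum A X s c l x) :
    Module.finrank k (A.rd X (B.Rs s c) l) < Module.finrank k X := by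
  apply Submodule.finrank_lt_finrank_of_lt
  refine lt_of_le_of_ne (A.rd_le _ _ _) ?_
  intro he
  have hx : x ∈ A.rd X (B.Rs s c) l := by rw [he]; exact h.r3.1
  have h1 := hx.2 _ (B.base_Rs s c)
  rw [h.r4 _ (B.base_Rs s c)] at h1
  exact one_ne_zero h1

/-- reduction to a terminal lattice -/
theorem reduceTo {A : Rep B k N} {A' : Rep B k N'} {E : N →ₗ[k] N}
    {D : Submodule k N'} (Fr : Frame A' D) {f : N →ₗ[k] N'} (hf : IsHom A A' f) :
    ∀ (n : ℕ) (X : Submodule k N), Module.finrank k X = n → IsLat A E X →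
      (∀ c s v, A.inC X c s v → f v = 0 → v = 0) →
      ∃ D', D' ≤ X ∧ IsLat A E D' ∧ A.Term D' ∧ ∀ u ∈ X, f u = 0 → u ∈ D' := by
  intro n
  induction n using Nat.strong_induction_on with
  | _ n ih =>
    intro X hn hX hinj
    by_cases hT : A.Term X
    · exact ⟨X, le_refl _, hX, hT, fun u hu _ => hu⟩
    · have hex : ∃ c s v, A.inC X c s v ∧ f v ≠ 0 := by
        unfold Rep.Term at hT
        push Not at hT
        obtain ⟨c, s, v, hv, hne⟩ := hT
        exact ⟨c, s, v, hv, fun h => hne (hinj c s v hv h)⟩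
      obtain ⟨Wf, hWf⟩ := Fr.fin f X hX.fd
      obtain ⟨s, c, l, x, hd, hl⟩ := progress hX Fr _ Wf rfl f hf hWf hex
      have hlt := hd.lt hX.fd
      obtain ⟨D', h1, h2, h3, h4⟩ := ih _ (by rw [← hn]; exact hlt) _ rfl (hX.red hd)
        (fun c s v hv => hinj c s v (hv.mono (A.rd_le _ _ _)))
      refine ⟨D', h1.trans (A.rd_le _ _ _), h2, h3, ?_⟩
      intro u hu hfu
      exact h4 u ⟨hu, fun i _ => hl u hu hfu i⟩ hfu

/-- relative progress -/
theorem progress2 {A : Rep B k N} {X D : Submodule k N} (hnd : ∀ u, A.nd u)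
    (hX : IsLat A LinearMap.id X) (hD : IsLat A LinearMap.id D) (Fr : Frame A D)
    (hDX : D ≤ X) (hne : ¬ X ≤ D) :
    ∃ s c l x, Datum A X s c l x ∧ ∀ u ∈ D, ∀ i ∈ B.Rs s c, l (A.p i u) = 0 := by
  obtain ⟨Wf, hWf⟩ := Fr.fin LinearMap.id X hX.fd
  let occ : Finset Fr.W := Wf.filter (fun w => ∃ u ∈ X, ∃ i ∈ B.Rs (Fr.ws w) (Fr.wc w),
    Fr.lam w (A.p i u) ≠ 0)
  have hocc : ∀ w, w ∈ occ ↔ ∃ u ∈ X, ∃ i ∈ B.Rs (Fr.ws w) (Fr.wc w),
      Fr.lam w (A.p i u) ≠ 0 := by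
    intro w
    simp only [occ, Finset.mem_filter, and_iff_right_iff_imp]
    rintro ⟨u, hu, i, hi, h⟩
    by_contra hw
    exact h (hWf w hw u hu i hi)
  have hne' : occ.Nonempty := by
    obtain ⟨u, hu, huD⟩ := Set.not_subset.1 hne
    by_contra hem
    apply huD
    apply Fr.f4 u (hnd u)
    intro w i hi
    by_contra h
    exact hem ⟨w, (hocc w).2 ⟨u, hu, i, hi, h⟩⟩
  obtain ⟨w, hw, hmax⟩ := Finset.exists_max_image occ Fr.wl hne'
  have hw' : ∀ w', Fr.wl w < Fr.wl w' → ∀ u ∈ X, ∀ i ∈ B.Rs (Fr.ws w') (Fr.wc w'),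
      Fr.lam w' (A.p i u) = 0 := by
    intro w' hlt u hu i hi
    by_contra h
    have := hmax w' ((hocc w').2 ⟨u, hu, i, hi, h⟩)
    omega
  by_cases hcase : ∃ v, A.inC X (Fr.wc w) (Fr.ws w) v ∧ ∃ i ∈ B.Rs (Fr.ws w) (Fr.wc w),
      Fr.lam w (A.p i v) ≠ 0
  · obtain ⟨v, hv, i, hi, hvi⟩ := hcase
    obtain ⟨x, hx⟩ := Fr.datum (IsHom.id A) hw' hv hi hvi
    refine ⟨_, _, _, x, hx, ?_⟩
    intro u hu i hi
    exact Fr.f3 w u hu i hi
  · exfalso
    push Not at hcase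
    have hkill : ∀ c s v, A.inC X c s v → Fr.op w v = 0 := by
      intro c s v hv
      apply Fr.op_zero
      intro i hi
      by_cases hs : s = Fr.ws w
      · subst hs
        by_cases hc : c = Fr.wc w
        · subst hc
          exact hcase v hv i hi
        · refine ((Fr.star w c v hv.2.1 ?_).1 (fun h => hc h.symm)) i hi
          intro w' hlt j hj
          exact hw' w' hlt _ hv.2.2 j hj
      · rw [A.fix_side _ hv.2.1, map_zero]
        rw [(Bip.mem_Rs.1 hi).2]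
        cases s <;> cases h : Fr.ws w <;> simp_all
    obtain ⟨g, hg, hgf⟩ := hX.ext N A (Fr.op w) (by
      intro i x _
      rw [Fr.op_p]) (by
      intro c s v hv
      rw [hkill c s v hv, hkill c _ _ hv.flip, map_zero])
    obtain ⟨u, hu, i, hi, hne''⟩ := (hocc w).1 hw
    have h0 : ∀ x, g x = 0 := by
      intro x
      have := hD.agree (f := g) (g := 0) hg ⟨fun _ _ => by simp, fun _ _ => by simp⟩ (by
        intro y hy
        rw [hgf y (hDX hy), LinearMap.zero_apply]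
        exact Fr.op_zero w (fun i hi => Fr.f3 w y hy i hi)) x
      simpa using this
    have h1 : Fr.op w u = 0 := by rw [← hgf u hu, h0]
    have h2 := Fr.p_op w u i
    rw [h1, map_zero, if_pos hi] at h2
    have h3 := congrArg (Fr.lam w) h2
    rw [map_zero, map_smul, Fr.f1 w w i hi, if_pos rfl, smul_eq_mul, mul_one] at h3
    exact hne'' h3.symm

end Pool.Agent.H494R3.VR
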