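import Mathlib
import Pool.Agent.H494R3.VR.B2

set_option autoImplicit false

/-!
The explicit free representation.
-/

namespace Pool.Agent.H494R3.VR

open scoped Classical

variable {B : Bip} {k : Type} [Field k] {G : Type}

inductive Wd (B : Bip) (G : Type) : Type
  | gen (g : G) : Wd B G
  | ext (b : Wd B G) (c : B.C) (i : B.I) : Wd B G

open Wd

def Wd.lab (lb : G → B.I) : Wd B G → B.I
  | gen g => lb g
  | ext _ _ i => i

def Wd.len : Wd B G → ℕ
  | gen _ => 0
  | ext b _ _ => b.len + 1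

def Wd.old (c : B.C) : Wd B G → Prop
  | gen _ => False
  | ext _ c' i => c' = c ∧ i = B.base (B.side i) c

def Wd.val (lb : G → B.I) : Wd B G → Prop
  | gen _ => True
  | ext b c i => Wd.val lb b ∧ Wd.lab lb b ∈ B.R c ∧ i ∈ B.Rs (!B.side (Wd.lab lb b)) c ∧
      ¬ Wd.old c b

noncomputable def wnew (k : Type) [Field k] (lb : G → B.I) (c : B.C) (b : Wd B G) :
    Wd B G →₀ k :=
  ∑ i ∈ B.Rs (!B.side (b.lab lb)) c, Finsupp.single (ext b c i) 1

noncomputable def wT (k : Type) [Field k] (lb : G → B.I) (c : B.C) (b : Wd B G) :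
    Wd B G →₀ k :=
  if b.val lb ∧ b.lab lb ∈ B.R c then
    (match b with
    | gen g => wnew k lb c (gen g)
    | ext b' c' i => if c' = c ∧ i = B.base (B.side i) c then
        Finsupp.single b' 1 - ∑ j ∈ (B.Rs (B.side i) c).erase i, wnew k lb c (ext b' c j)
        else wnew k lb c (ext b' c' i))
  else 0

variable {lb : G → B.I}

theorem wT_bad {c : B.C} {b : Wd B G} (h : ¬ (b.val lb ∧ b.lab lb ∈ B.R c)) :
    wT k lb c b = 0 := by
  unfold wT; rw [if_neg h]

theorem wT_new {c : B.C} {b : Wd B G} (h1 : b.val lb) (h2 : b.lab lb ∈ B.R c)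
    (h3 : ¬ b.old c) : wT k lb c b = wnew k lb c b := by
  unfold wT
  rw [if_pos ⟨h1, h2⟩]
  cases b with
  | gen g => rfl
  | ext b' c' i => exact if_neg h3

theorem wT_old {c : B.C} {b : Wd B G} {i : B.I} (h1 : (ext b c i).val lb)
    (h3 : i = B.base (B.side i) c) : wT k lb c (ext b c i) =
      Finsupp.single b 1 - ∑ j ∈ (B.Rs (B.side i) c).erase i, wnew k lb c (ext b c j) := by
  unfold wT
  have h2 : (ext b c i).lab lb ∈ B.R c := (Bip.mem_Rs.1 h1.2.2.1).1
  rw [if_pos ⟨h1, h2⟩]
  exact if_pos ⟨rfl, h3⟩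

theorem val_ext {c : B.C} {b : Wd B G} {i : B.I} (h1 : b.val lb) (h2 : b.lab lb ∈ B.R c)
    (h3 : ¬ b.old c) (hi : i ∈ B.Rs (!B.side (b.lab lb)) c) : (ext b c i).val lb :=
  ⟨h1, h2, hi, h3⟩

theorem side_of_val {c : B.C} {b : Wd B G} {i : B.I} (h : (ext b c i).val lb) :
    B.side i = !B.side (b.lab lb) := (Bip.mem_Rs.1 h.2.2.1).2

theorem val_sib {c : B.C} {b : Wd B G} {i j : B.I} (h : (ext b c i).val lb)
    (hj : j ∈ B.Rs (B.side i) c) : (ext b c j).val lb := by
  refine ⟨h.1, h.2.1, ?_, h.2.2.2⟩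
  rw [← side_of_val h]
  exact hj

theorem new_sib {c : B.C} {b : Wd B G} {i j : B.I} (hi : i = B.base (B.side i) c)
    (hj : j ∈ (B.Rs (B.side i) c).erase i) : ¬ (ext b c j : Wd B G).old c := by
  rintro ⟨_, h⟩
  rw [Finset.mem_erase, Bip.mem_Rs] at hj
  apply hj.1
  rw [h, hj.2.2, ← hi]

theorem fext {M : Type} [AddCommGroup M] [Module k M] {α : Type} {f g : (α →₀ k) →ₗ[k] M}
    (h : ∀ b, f (Finsupp.single b 1) = g (Finsupp.single b 1)) : f = g := by
  apply Finsupp.lhom_ext
  intro a r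
  have : Finsupp.single a r = r • Finsupp.single a (1 : k) := by simp
  rw [this, map_smul, map_smul, h]

noncomputable def wp (k : Type) [Field k] (lb : G → B.I) (i : B.I) :
    (Wd B G →₀ k) →ₗ[k] (Wd B G →₀ k) :=
  Finsupp.linearCombination k (fun b => if b.val lb ∧ b.lab lb = i then Finsupp.single b 1 else 0)

noncomputable def wt (k : Type) [Field k] (lb : G → B.I) (c : B.C) :
    (Wd B G →₀ k) →ₗ[k] (Wd B G →₀ k) :=
  Finsupp.linearCombination k (wT k lb c)

theorem wp_e (i : B.I) (b : Wd B G) : wp k lb i (Finsupp.single b 1) =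
    if b.val lb ∧ b.lab lb = i then Finsupp.single b 1 else 0 := by
  rw [wp, Finsupp.linearCombination_single, one_smul]

theorem wt_e (c : B.C) (b : Wd B G) : wt k lb c (Finsupp.single b 1) = wT k lb c b := by
  rw [wt, Finsupp.linearCombination_single, one_smul]

theorem wQ_e (J : Finset B.I) (b : Wd B G) :
    (∑ i ∈ J, wp k lb i) (Finsupp.single b 1) =
      if b.val lb ∧ b.lab lb ∈ J then Finsupp.single b 1 else 0 := by
  rw [LinearMap.sum_apply]
  simp_rw [wp_e]
  by_cases hb : b.val lb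
  · simp only [hb, true_and]
    rw [Finset.sum_ite_eq]
  · simp [hb]

theorem wQ_new {c : B.C} {b : Wd B G} (h1 : b.val lb) (h2 : b.lab lb ∈ B.R c)
    (h3 : ¬ b.old c) (s : Bool) : (∑ i ∈ B.Rs s c, wp k lb i) (wnew k lb c b) =
      if s = !B.side (b.lab lb) then wnew k lb c b else 0 := by
  rw [wnew, map_sum]
  simp_rw [wQ_e]
  by_cases hs : s = !B.side (b.lab lb)
  · rw [if_pos hs]
    apply Finset.sum_congr rfl
    intro i hi
    rw [if_pos]
    refine ⟨val_ext h1 h2 h3 hi, ?_⟩
    rw [hs]; exact hi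
  · rw [if_neg hs]
    apply Finset.sum_eq_zero
    intro i hi
    rw [if_neg]
    rintro ⟨_, h⟩
    apply hs
    rw [← (Bip.mem_Rs.1 h).2]
    exact (Bip.mem_Rs.1 hi).2

theorem wQ_T {c : B.C} {b : Wd B G} (h1 : b.val lb) (h2 : b.lab lb ∈ B.R c) (s : Bool) :
    (∑ i ∈ B.Rs s c, wp k lb i) (wT k lb c b) =
      if s = !B.side (b.lab lb) then wT k lb c b else 0 := by
  by_cases h3 : b.old c
  · cases b with
    | gen g => exact h3.elim
    | ext b' c' i =>
      obtain ⟨rfl, hi⟩ := h3
      rw [wT_old h1 hi, map_sub, map_sum, wQ_e]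
      have hl : b'.lab lb ∈ B.Rs s c' ↔ s = !B.side i := by
        rw [Bip.mem_Rs, side_of_val h1, Bool.not_not]
        exact ⟨fun h => h.2.symm, fun h => ⟨h1.2.1, h.symm⟩⟩
      have hn : ∀ j ∈ (B.Rs (B.side i) c').erase i,
          (∑ i ∈ B.Rs s c', wp k lb i) (wnew k lb c' (ext b' c' j)) =
          if s = !B.side i then wnew k lb c' (ext b' c' j) else 0 := by
        intro j hj
        have hj' := (Finset.mem_erase.1 hj).2
        rw [wQ_new (val_sib h1 hj') (Bip.mem_Rs.1 hj').1 (new_sib hi hj)]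
        have : B.side ((ext b' c' j : Wd B G).lab lb) = B.side i := (Bip.mem_Rs.1 hj').2
        rw [this]
      rw [Finset.sum_congr rfl hn]
      have hl2 : B.side ((ext b' c' i : Wd B G).lab lb) = B.side i := rfl
      rw [hl2]
      by_cases hs : s = !B.side i
      · rw [if_pos ⟨h1.1, hl.2 hs⟩, if_pos hs]
        simp only [hs, if_true]
      · rw [if_neg (fun h => hs (hl.1 h.2)), if_neg hs]
        simp [hs]
  · rw [wT_new h1 h2 h3, wQ_new h1 h2 h3]

theorem wt_new {c : B.C} {b : Wd B G} (h1 : b.val lb) (h2 : b.lab lb ∈ B.R c)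
    (h3 : ¬ b.old c) : wt k lb c (wnew k lb c b) = Finsupp.single b 1 := by
  rw [wnew, map_sum]
  simp_rw [wt_e]
  set s := !B.side (b.lab lb) with hs
  have hb := B.base_Rs s c
  rw [← Finset.add_sum_erase _ _ hb]
  have hside := B.side_base s c
  rw [wT_old (val_ext h1 h2 h3 hb) (by rw [hside]), hside, sub_add_eq_add_sub, sub_eq_iff_eq_add]
  congr 1
  apply Finset.sum_congr rfl
  intro j hj
  have hj' := (Finset.mem_erase.1 hj).2
  apply wT_new (val_ext h1 h2 h3 hj') (Bip.mem_Rs.1 hj').1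
  apply new_sib (i := B.base s c) (by rw [hside])
  rw [hside]; exact hj

theorem wtt (c : B.C) (b : Wd B G) : wt k lb c (wT k lb c b) =
    if b.val lb ∧ b.lab lb ∈ B.R c then Finsupp.single b 1 else 0 := by
  by_cases h : b.val lb ∧ b.lab lb ∈ B.R c
  · rw [if_pos h]
    by_cases h3 : b.old c
    · cases b with
      | gen g => exact h3.elim
      | ext b' c' i =>
        obtain ⟨rfl, hi⟩ := h3
        have h1 := h.1
        rw [wT_old h.1 hi, map_sub, map_sum, wt_e, wT_new h1.1 h1.2.1 h1.2.2.2]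
        have hn : ∀ j ∈ (B.Rs (B.side i) c').erase i,
            wt k lb c' (wnew k lb c' (ext b' c' j)) = Finsupp.single (ext b' c' j) 1 := by
          intro j hj
          have hj' := (Finset.mem_erase.1 hj).2
          exact wt_new (val_sib h1 hj') (Bip.mem_Rs.1 hj').1 (new_sib hi hj)
        rw [Finset.sum_congr rfl hn, wnew, ← side_of_val h1]
        have hi' : i ∈ B.Rs (B.side i) c' := by rw [side_of_val h1]; exact h1.2.2.1
        rw [← Finset.add_sum_erase _ _ hi', add_sub_cancel_right]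
    · rw [wT_new h.1 h.2 h3, wt_new h.1 h.2 h3]
  · rw [if_neg h, wT_bad h, map_zero]

noncomputable def wRep (k : Type) [Field k] (lb : G → B.I) : Rep B k (Wd B G →₀ k) where
  p := wp k lb
  t := wt k lb
  pp := by
    intro i x
    have : wp k lb i ∘ₗ wp k lb i = wp k lb i := by
      apply fext
      intro b
      rw [LinearMap.comp_apply, wp_e]
      split_ifs with h
      · rw [wp_e, if_pos h]
      · rw [map_zero]
    exact congrFun (congrArg DFunLike.coe this) x
  pq := by
    intro i j hij x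
    have : wp k lb i ∘ₗ wp k lb j = 0 := by
      apply fext
      intro b
      rw [LinearMap.comp_apply, wp_e]
      split_ifs with h
      · rw [wp_e, if_neg (by rintro ⟨_, h'⟩; exact hij (h'.symm.trans h.2))]
        rfl
      · rw [map_zero]; rfl
    exact congrFun (congrArg DFunLike.coe this) x
  tt := by
    intro c x
    have : wt k lb c ∘ₗ wt k lb c = ∑ i ∈ B.R c, wp k lb i := by
      apply fext
      intro b
      rw [LinearMap.comp_apply, wt_e, wtt, wQ_e]
    have h2 := congrFun (congrArg DFunLike.coe this) x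
    rw [LinearMap.sum_apply] at h2
    exact h2
  tp := by
    intro c x
    have : wt k lb c ∘ₗ (∑ i ∈ B.R c, wp k lb i) = wt k lb c := by
      apply fext
      intro b
      rw [LinearMap.comp_apply, wQ_e]
      split_ifs with h
      · rfl
      · rw [map_zero, wt_e, wT_bad h]
    have h2 := congrFun (congrArg DFunLike.coe this) x
    rw [LinearMap.comp_apply, LinearMap.sum_apply] at h2
    exact h2
  ts := by
    intro c s x
    have : wt k lb c ∘ₗ (∑ i ∈ B.Rs s c, wp k lb i) =
        (∑ i ∈ B.Rs (!s) c, wp k lb i) ∘ₗ wt k lb c := by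
      apply fext
      intro b
      rw [LinearMap.comp_apply, LinearMap.comp_apply, wQ_e, wt_e]
      by_cases hb : b.val lb ∧ b.lab lb ∈ B.R c
      · rw [wQ_T hb.1 hb.2]
        by_cases hs : B.side (b.lab lb) = s
        · rw [if_pos ⟨hb.1, Bip.mem_Rs.2 ⟨hb.2, hs⟩⟩, if_pos (by rw [hs]), wt_e]
        · rw [if_neg (by rintro ⟨_, h⟩; exact hs (Bip.mem_Rs.1 h).2), if_neg, map_zero]
          intro h
          apply hs
          exact (Bool.not_inj h).symm
      · rw [wT_bad hb, map_zero, if_neg, map_zero]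
        rintro ⟨h1, h2⟩
        exact hb ⟨h1, (Bip.mem_Rs.1 h2).1⟩
    have h2 := congrFun (congrArg DFunLike.coe this) x
    rw [LinearMap.comp_apply, LinearMap.comp_apply, LinearMap.sum_apply, LinearMap.sum_apply] at h2
    exact h2

/-- restriction to a stable subspace -/
noncomputable def Rep.restr {N : Type} [AddCommGroup N] [Module k N] (A : Rep B k N)
    (S : Submodule k N) (hp : ∀ i, ∀ x ∈ S, A.p i x ∈ S) (ht : ∀ c, ∀ x ∈ S, A.t c x ∈ S) :
    Rep B k S where
  p := fun i => (A.p i).restrict (hp i)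
  t := fun c => (A.t c).restrict (ht c)
  pp := fun i x => Subtype.ext (A.pp i x)
  pq := fun i j h x => Subtype.ext (A.pq i j h x)
  tt := fun c x => Subtype.ext (by
    rw [AddSubmonoidClass.coe_finsetSum]
    exact A.tt c x)
  tp := fun c x => Subtype.ext (by
    rw [LinearMap.coe_restrict_apply, AddSubmonoidClass.coe_finsetSum]
    exact A.tp c x)
  ts := fun c s x => Subtype.ext (by
    rw [LinearMap.coe_restrict_apply, AddSubmonoidClass.coe_finsetSum,
      AddSubmonoidClass.coe_finsetSum]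
    exact A.ts c s x)

/-- valid part -/
noncomputable def VS (k : Type) [Field k] (lb : G → B.I) : Submodule k (Wd B G →₀ k) :=
  Submodule.span k (Set.range fun b : {b : Wd B G // b.val lb} => Finsupp.single b.1 (1 : k))

theorem e_mem_VS {b : Wd B G} (h : b.val lb) : Finsupp.single b (1 : k) ∈ VS k lb :=
  Submodule.subset_span ⟨⟨b, h⟩, rfl⟩

theorem wnew_mem_VS {c : B.C} {b : Wd B G} (h1 : b.val lb) (h2 : b.lab lb ∈ B.R c)
    (h3 : ¬ b.old c) : wnew k lb c b ∈ VS k lb :=
  Submodule.sum_mem _ fun _ hi => e_mem_VS (val_ext h1 h2 h3 hi)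

theorem wT_mem_VS (c : B.C) (b : Wd B G) : wT k lb c b ∈ VS k lb := by
  by_cases h : b.val lb ∧ b.lab lb ∈ B.R c
  · by_cases h3 : b.old c
    · cases b with
      | gen g => exact h3.elim
      | ext b' c' i =>
        obtain ⟨rfl, hi⟩ := h3
        have h1 := h.1
        rw [wT_old h.1 hi]
        refine Submodule.sub_mem _ (e_mem_VS h1.1) (Submodule.sum_mem _ fun j hj => ?_)
        have hj' := (Finset.mem_erase.1 hj).2
        exact wnew_mem_VS (val_sib h1 hj') (Bip.mem_Rs.1 hj').1 (new_sib hi hj)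
    · rw [wT_new h.1 h.2 h3]
      exact wnew_mem_VS h.1 h.2 h3
  · rw [wT_bad h]; exact Submodule.zero_mem _

theorem wp_mem_VS (i : B.I) (x : Wd B G →₀ k) : wp k lb i x ∈ VS k lb := by
  rw [wp, Finsupp.linearCombination_apply]
  refine Submodule.sum_mem _ fun b _ => Submodule.smul_mem _ _ ?_
  split_ifs with h
  · exact e_mem_VS h.1
  · exact Submodule.zero_mem _

theorem wt_mem_VS (c : B.C) (x : Wd B G →₀ k) : wt k lb c x ∈ VS k lb := by
  rw [wt, Finsupp.linearCombination_apply]
  exact Submodule.sum_mem _ fun b _ => Submodule.smul_mem _ _ (wT_mem_VS c b)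

/-- the free representation -/
noncomputable def fRep (k : Type) [Field k] (lb : G → B.I) : Rep B k (VS k lb) :=
  (wRep k lb).restr (VS k lb) (fun i x _ => wp_mem_VS i x) (fun c x _ => wt_mem_VS c x)

theorem fRep_p (i : B.I) (x : VS k lb) : ((fRep k lb).p i x : Wd B G →₀ k) = wp k lb i x := rfl

theorem fRep_t (c : B.C) (x : VS k lb) : ((fRep k lb).t c x : Wd B G →₀ k) = wt k lb c x := rfl

/-- basis element -/
noncomputable def fe (k : Type) [Field k] {lb : G → B.I} (b : Wd B G) (h : b.val lb) :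
    VS k lb := ⟨Finsupp.single b 1, e_mem_VS h⟩

theorem VS_induct {Q : VS k lb → Prop} (h1 : ∀ b h, Q (fe k b h)) (h0 : Q 0)
    (ha : ∀ x y, Q x → Q y → Q (x + y)) (hs : ∀ (r : k) x, Q x → Q (r • x)) (x : VS k lb) :
    Q x := by
  obtain ⟨x, hx⟩ := x
  induction hx using Submodule.span_induction with
  | mem y hy =>
    obtain ⟨⟨b, hb⟩, rfl⟩ := hy
    exact h1 b hb
  | zero => exact h0
  | add y z hy hz ihy ihz => exact ha ⟨y, hy⟩ ⟨z, hz⟩ ihy ihz
  | smul r y hy ihy => exact hs r ⟨y, hy⟩ ihy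

theorem fe_gen_p (g : G) : (fRep k lb).p (lb g) (fe k (gen g) trivial) =
    fe k (gen g) trivial := by
  apply Subtype.ext
  rw [fRep_p]
  show wp k lb (lb g) (Finsupp.single (gen g) 1) = Finsupp.single (gen g) 1
  rw [wp_e, if_pos ⟨trivial, rfl⟩]

theorem fe_ext {c : B.C} {b : Wd B G} {i : B.I} (h : (ext b c i).val lb) :
    fe k (ext b c i) h = (fRep k lb).p i ((fRep k lb).t c (fe k b h.1)) := by
  apply Subtype.ext
  rw [fRep_p, fRep_t]
  show Finsupp.single (ext b c i) 1 = wp k lb i (wt k lb c (Finsupp.single b 1))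
  rw [wt_e, wT_new h.1 h.2.1 h.2.2.2, wnew, map_sum]
  simp_rw [wp_e]
  rw [Finset.sum_eq_single_of_mem i h.2.2.1]
  · rw [if_pos ⟨h, rfl⟩]
  · intro j _ hj
    rw [if_neg]
    rintro ⟨_, h'⟩
    exact hj h'

theorem fRep_gen (S : Submodule k (VS k lb)) (h0 : ∀ g, fe k (gen g) trivial ∈ S)
    (hp : ∀ i, ∀ x ∈ S, (fRep k lb).p i x ∈ S) (ht : ∀ c, ∀ x ∈ S, (fRep k lb).t c x ∈ S)
    (x : VS k lb) : x ∈ S := by
  apply VS_induct (Q := fun x => x ∈ S)
  · intro b
    induction b with
    | gen g => exact fun _ => h0 g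
    | ext b c i ih =>
      intro h
      rw [fe_ext h]
      exact hp i _ (ht c _ (ih h.1))
  · exact S.zero_mem
  · exact fun x y hx hy => S.add_mem hx hy
  · exact fun r x hx => S.smul_mem r hx

theorem fRep_nd (u : VS k lb) : (fRep k lb).nd u := by
  apply VS_induct (Q := fun u => (fRep k lb).nd u)
  · intro b h
    refine ⟨{b.lab lb}, ?_⟩
    rw [Finset.sum_singleton]
    apply Subtype.ext
    rw [fRep_p]
    show wp k lb _ (Finsupp.single b 1) = Finsupp.single b 1
    rw [wp_e, if_pos ⟨h, rfl⟩]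
  · exact ⟨∅, by simp⟩
  · rintro x y ⟨J, hJ⟩ ⟨K, hK⟩
    refine ⟨J ∪ K, ?_⟩
    simp_rw [map_add]
    rw [Finset.sum_add_distrib]
    have key : ∀ (J L : Finset B.I) (z : VS k lb), J ⊆ L → ∑ i ∈ J, (fRep k lb).p i z = z →
        ∑ i ∈ L, (fRep k lb).p i z = z := by
      intro J L z hJL hz
      conv_rhs => rw [← hz]
      symm
      apply Finset.sum_subset hJL
      intro i _ hi
      rw [← hz, map_sum]
      apply Finset.sum_eq_zero
      intro j hj
      exact (fRep k lb).pq i j (fun h => hi (h ▸ hj)) z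
    rw [key J _ x Finset.subset_union_left hJ, key K _ y Finset.subset_union_right hK]
  · rintro r x ⟨J, hJ⟩
    refine ⟨J, ?_⟩
    simp_rw [map_smul]
    rw [← Finset.smul_sum, hJ]

end Pool.Agent.H494R3.VR
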