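import Mathlib
import Pool.Agent.H494R3.VR.B3

set_option autoImplicit false

/-!
Universal property and frame of the explicit free representation.
-/

namespace Pool.Agent.H494R3.VR

open scoped Classical
open Wd

variable {B : Bip} {k : Type} [Field k] {G : Type} {lb : G → B.I}
variable {N' : Type} [AddCommGroup N'] [Module k N']

theorem Rep.P_p {A : Rep B k N'} {s : Bool} {c : B.C} {i : B.I} (hi : i ∈ B.Rs s c) (x : N') :
    A.P s c (A.p i x) = A.p i x := by
  rw [A.P_apply]
  simp_rw [A.pij]
  rw [Finset.sum_eq_single_of_mem i hi]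
  · simp
  · intro j _ hj
    simp [hj]

noncomputable def fval (A' : Rep B k N') (x : G → N') : Wd B G → N'
  | gen g => x g
  | ext b c i => A'.p i (A'.t c (fval A' x b))

theorem fval_fix (A' : Rep B k N') {x : G → N'} (hx : ∀ g, A'.p (lb g) (x g) = x g)
    (b : Wd B G) : A'.p (b.lab lb) (fval A' x b) = fval A' x b := by
  cases b with
  | gen g => exact hx g
  | ext b c i => exact A'.pp i _

theorem fval_P (A' : Rep B k N') {x : G → N'} (hx : ∀ g, A'.p (lb g) (x g) = x g)
    {b : Wd B G} {c : B.C} (h : b.lab lb ∈ B.R c) :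
    A'.P (B.side (b.lab lb)) c (fval A' x b) = fval A' x b := by
  rw [← fval_fix A' hx b]
  exact Rep.P_p (Bip.mem_Rs.2 ⟨h, rfl⟩) _

noncomputable def flift0 (lb : G → B.I) (A' : Rep B k N') (x : G → N') :
    (Wd B G →₀ k) →ₗ[k] N' :=
  Finsupp.linearCombination k (fun b => if b.val lb then fval A' x b else 0)

theorem flift0_e (A' : Rep B k N') (x : G → N') {b : Wd B G} (h : b.val lb) :
    flift0 lb A' x (Finsupp.single b 1) = fval A' x b := by
  rw [flift0, Finsupp.linearCombination_single, one_smul, if_pos h]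

theorem flift0_bad (A' : Rep B k N') (x : G → N') {b : Wd B G} (h : ¬ b.val lb) :
    flift0 lb A' x (Finsupp.single b 1) = 0 := by
  rw [flift0, Finsupp.linearCombination_single, one_smul, if_neg h]

theorem flift0_new (A' : Rep B k N') {x : G → N'} (hx : ∀ g, A'.p (lb g) (x g) = x g)
    {c : B.C} {b : Wd B G} (h1 : b.val lb) (h2 : b.lab lb ∈ B.R c) (h3 : ¬ b.old c) :
    flift0 lb A' x (wnew k lb c b) = A'.t c (fval A' x b) := by
  rw [wnew, map_sum, ← A'.P_t (fval_P A' hx h2), A'.P_apply]
  apply Finset.sum_congr rfl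
  intro i hi
  rw [flift0_e A' x (val_ext h1 h2 h3 hi)]
  rfl

theorem flift0_T (A' : Rep B k N') {x : G → N'} (hx : ∀ g, A'.p (lb g) (x g) = x g)
    (c : B.C) {b : Wd B G} (h1 : b.val lb) :
    flift0 lb A' x (wT k lb c b) = A'.t c (fval A' x b) := by
  by_cases h2 : b.lab lb ∈ B.R c
  · by_cases h3 : b.old c
    · cases b with
      | gen g => exact h3.elim
      | ext b' c' i =>
        obtain ⟨rfl, hi⟩ := h3
        rw [wT_old h1 hi, map_sub, map_sum, flift0_e A' x h1.1]
        have hn : ∀ j ∈ (B.Rs (B.side i) c').erase i,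
            flift0 lb A' x (wnew k lb c' (ext b' c' j)) =
              A'.t c' (A'.p j (A'.t c' (fval A' x b'))) := by
          intro j hj
          have hj' := (Finset.mem_erase.1 hj).2
          exact flift0_new A' hx (val_sib h1 hj') (Bip.mem_Rs.1 hj').1 (new_sib hi hj)
        rw [Finset.sum_congr rfl hn]
        have hi' : i ∈ B.Rs (B.side i) c' := by rw [side_of_val h1]; exact h1.2.2.1
        have hP : A'.P (B.side (b'.lab lb)) c' (fval A' x b') = fval A' x b' :=
          fval_P A' hx h1.2.1
        have h4 : ∑ j ∈ B.Rs (B.side i) c', A'.t c' (A'.p j (A'.t c' (fval A' x b'))) =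
            fval A' x b' := by
          rw [← map_sum, ← A'.P_apply, side_of_val h1, A'.P_t hP, A'.tt_fix hP]
        rw [← Finset.add_sum_erase _ _ hi'] at h4
        rw [sub_eq_iff_eq_add]
        exact h4.symm
    · rw [wT_new h1 h2 h3, flift0_new A' hx h1 h2 h3]
  · rw [wT_bad (fun h => h2 h.2), map_zero]
    rw [← fval_fix A' hx b, ← A'.tp, Finset.sum_eq_zero, map_zero]
    intro i hi
    exact A'.pq _ _ (fun h : i = b.lab lb => h2 (h ▸ hi)) _

noncomputable def flift (lb : G → B.I) (A' : Rep B k N') (x : G → N') : VS k lb →ₗ[k] N' :=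
  flift0 lb A' x ∘ₗ (VS k lb).subtype

theorem flift_gen (A' : Rep B k N') (x : G → N') (g : G) :
    flift lb A' x (fe k (gen g) trivial) = x g :=
  flift0_e A' x (b := gen g) trivial

theorem flift_hom (A' : Rep B k N') {x : G → N'} (hx : ∀ g, A'.p (lb g) (x g) = x g) :
    IsHom (fRep k lb) A' (flift lb A' x) := by
  constructor
  · intro i u
    have : ∀ u : VS k lb, flift lb A' x ((fRep k lb).p i u) = A'.p i (flift lb A' x u) := by
      apply VS_induct
      · intro b h
        show flift0 lb A' x (wp k lb i (Finsupp.single b 1)) =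
          A'.p i (flift0 lb A' x (Finsupp.single b 1))
        rw [wp_e, flift0_e A' x h]
        by_cases hb : b.lab lb = i
        · rw [if_pos ⟨h, hb⟩, flift0_e A' x h, ← hb, fval_fix A' hx]
        · rw [if_neg (fun h => hb h.2), map_zero, ← fval_fix A' hx b]
          rw [A'.pq _ _ (fun h => hb h.symm)]
      · simp
      · intro x y hx hy; rw [map_add, map_add, map_add, map_add, hx, hy]
      · intro r x hx; rw [map_smul, map_smul, map_smul, map_smul, hx]
    exact this u
  · intro c u
    have : ∀ u : VS k lb, flift lb A' x ((fRep k lb).t c u) = A'.t c (flift lb A' x u) := by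
      apply VS_induct
      · intro b h
        show flift0 lb A' x (wt k lb c (Finsupp.single b 1)) =
          A'.t c (flift0 lb A' x (Finsupp.single b 1))
        rw [wt_e, flift0_e A' x h, flift0_T A' hx c h]
      · simp
      · intro x y hx hy; rw [map_add, map_add, map_add, map_add, hx, hy]
      · intro r x hx; rw [map_smul, map_smul, map_smul, map_smul, hx]
    exact this u

/-- span of generators -/
noncomputable def X0 (k : Type) [Field k] (lb : G → B.I) : Submodule k (VS k lb) :=
  Submodule.span k (Set.range fun g : G => fe k (gen g) trivial)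

theorem fe_gen_mem (g : G) : fe k (gen g) trivial ∈ X0 k lb :=
  Submodule.subset_span ⟨g, rfl⟩

theorem X0_induct {Q : VS k lb → Prop} (h1 : ∀ g, Q (fe k (gen g) trivial)) (h0 : Q 0)
    (ha : ∀ x y, Q x → Q y → Q (x + y)) (hs : ∀ (r : k) x, Q x → Q (r • x)) {x : VS k lb}
    (hx : x ∈ X0 k lb) : Q x := by
  induction hx using Submodule.span_induction with
  | mem y hy =>
    obtain ⟨g, rfl⟩ := hy
    exact h1 g
  | zero => exact h0
  | add y z _ _ hy hz => exact ha y z hy hz
  | smul r y _ hy => exact hs r y hy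

theorem fRep_p_gen (i : B.I) (g : G) : (fRep k lb).p i (fe k (gen g) trivial) =
    if lb g = i then fe k (gen g) trivial else 0 := by
  split_ifs with h
  · subst h; exact fe_gen_p g
  · rw [← fe_gen_p g]
    exact (fRep k lb).pq _ _ (fun h' => h h'.symm) _

theorem X0_lat [Finite G] : IsLat (fRep k lb) LinearMap.id (X0 k lb) := by
  refine ⟨?_, ?_, fun _ _ => rfl, ?_, ?_⟩
  · intro i x hx
    apply X0_induct (Q := fun x => (fRep k lb).p i x ∈ X0 k lb) _ _ _ _ hx
    · intro g
      rw [fRep_p_gen]
      split_ifs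
      · exact fe_gen_mem g
      · exact Submodule.zero_mem _
    · simp
    · intro x y hx hy; rw [map_add]; exact Submodule.add_mem _ hx hy
    · intro r x hx; rw [map_smul]; exact Submodule.smul_mem _ _ hx
  · exact FiniteDimensional.span_of_finite k
      (Set.finite_range (fun g : G => fe k (lb := lb) (gen g) trivial))
  · intro N' _ _ A' f hf1 _
    have hx : ∀ g, A'.p (lb g) (f (fe k (gen g) trivial)) = f (fe k (gen g) trivial) := by
      intro g
      rw [← hf1 _ _ (fe_gen_mem g), fe_gen_p]
    refine ⟨flift lb A' (fun g => f (fe k (gen g) trivial)), flift_hom A' hx, ?_⟩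
    intro x hx
    apply X0_induct (Q := fun x => flift lb A' (fun g => f (fe k (gen g) trivial)) x = f x) _ _ _ _ hx
    · intro g
      rw [flift_gen]
    · simp
    · intro x y hx hy; rw [map_add, map_add, hx, hy]
    · intro r x hx; rw [map_smul, map_smul, hx]
  · intro S hS hSp hSt x
    exact fRep_gen S (fun g => hS (fe_gen_mem g)) hSp hSt x

/-! ### the frame -/

def WW (lb : G → B.I) : Type :=
  {w : Wd B G × B.C // w.1.val lb ∧ w.1.lab lb ∈ B.R w.2 ∧ ¬ w.1.old w.2}

noncomputable def wlam (k : Type) [Field k] (lb : G → B.I) (w : WW lb) :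
    (Wd B G →₀ k) →ₗ[k] k :=
  ∑ i ∈ B.Rs (!B.side (w.1.1.lab lb)) w.1.2, Finsupp.lapply (ext w.1.1 w.1.2 i)

theorem wlam_p (w : WW lb) {i : B.I} (hi : i ∈ B.Rs (!B.side (w.1.1.lab lb)) w.1.2)
    (u : Wd B G →₀ k) : wlam k lb w (wp k lb i u) = u (ext w.1.1 w.1.2 i) := by
  have : wlam k lb w ∘ₗ wp k lb i = Finsupp.lapply (ext w.1.1 w.1.2 i) := by
    apply fext
    intro b
    rw [LinearMap.comp_apply, wp_e, Finsupp.lapply_apply, wlam]
    by_cases hb : b = ext w.1.1 w.1.2 i
    · subst hb
      rw [if_pos ⟨val_ext w.2.1 w.2.2.1 w.2.2.2 hi, rfl⟩, LinearMap.sum_apply,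
        Finset.sum_eq_single_of_mem i hi]
      · rfl
      · intro j _ hj
        rw [Finsupp.lapply_apply, Finsupp.single_apply, if_neg]
        intro h
        injection h with _ _ h
        exact hj h.symm
    · rw [Finsupp.single_apply, if_neg hb]
      split_ifs with h
      · rw [LinearMap.sum_apply]
        apply Finset.sum_eq_zero
        intro j _
        rw [Finsupp.lapply_apply, Finsupp.single_apply, if_neg]
        intro h'
        apply hb
        rw [h'] at h ⊢
        have : j = i := h.2
        rw [this]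
      · rw [map_zero]
  exact congrFun (congrArg DFunLike.coe this) u

theorem wnew_coef {c c' : B.C} {b b' : Wd B G} {i : B.I}
    (hi : i ∈ B.Rs (!B.side (b.lab lb)) c) :
    wnew k lb c' b' (ext b c i) = if b' = b ∧ c' = c then 1 else 0 := by
  rw [wnew, Finsupp.finsetSum_apply]
  split_ifs with h
  · obtain ⟨rfl, rfl⟩ := h
    rw [Finset.sum_eq_single_of_mem i hi]
    · rw [Finsupp.single_apply, if_pos rfl]
    · intro j _ hj
      rw [Finsupp.single_apply, if_neg]
      intro h
      injection h with _ _ h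
      exact hj h
  · apply Finset.sum_eq_zero
    intro j _
    rw [Finsupp.single_apply, if_neg]
    intro h'
    injection h' with h1 h2 h3
    exact h ⟨h1, h2⟩

/-- the key coefficient formula -/
theorem wT_coef {c c₁ : B.C} {b₁ : Wd B G} {i₁ j₀ : B.I}
    (hv : (ext (ext b₁ c₁ i₁) c j₀).val lb) (hj : j₀ = B.base (B.side j₀) c) (b : Wd B G) :
    wT k lb c b (ext (ext b₁ c₁ i₁) c j₀) =
      (if b = ext b₁ c₁ i₁ then 1 else 0) -
      (if c₁ = c ∧ b = ext b₁ c (B.base (B.side i₁) c) then 1 else 0) := by
  have hy := hv.1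
  have hyR : (ext b₁ c₁ i₁ : Wd B G).lab lb ∈ B.R c := hv.2.1
  have hyo := hv.2.2.2
  by_cases h : b.val lb ∧ b.lab lb ∈ B.R c
  · by_cases h3 : b.old c
    · cases b with
      | gen g => exact h3.elim
      | ext b₂ c₂ i₂ =>
        obtain ⟨rfl, hi₂⟩ := h3
        have hbv := h.1
        rw [wT_old hbv hi₂, Finsupp.sub_apply, Finsupp.finsetSum_apply]
        have e1 : (Finsupp.single b₂ (1 : k)) (ext (ext b₁ c₁ i₁) c₂ j₀) = 0 := by
          rw [Finsupp.single_apply, if_neg]
          rintro rfl
          exact hbv.2.2.2 ⟨rfl, hj⟩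
        have e2 : ∀ j ∈ (B.Rs (B.side i₂) c₂).erase i₂,
            wnew k lb c₂ (ext b₂ c₂ j) (ext (ext b₁ c₁ i₁) c₂ j₀) =
            if ext b₂ c₂ j = ext b₁ c₁ i₁ then 1 else 0 := by
          intro j _
          rw [wnew_coef hv.2.2.1]
          simp
        rw [e1, Finset.sum_congr rfl e2, zero_sub]
        have e3 : ¬ (ext b₂ c₂ i₂ = ext b₁ c₁ i₁) := by
          intro h'
          rw [← h'] at hyo
          exact hyo ⟨rfl, hi₂⟩
        rw [if_neg e3, zero_sub]
        congr 1
        by_cases h4 : c₁ = c₂ ∧ ext b₂ c₂ i₂ = ext b₁ c₂ (B.base (B.side i₁) c₂)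
        · rw [if_pos h4]
          obtain ⟨rfl, h5⟩ := h4
          injection h5 with h5 _ h6
          subst h5
          have hs : B.side i₁ = B.side i₂ := by
            rw [side_of_val hy, side_of_val hbv]
          have hmem : i₁ ∈ (B.Rs (B.side i₂) c₁).erase i₂ := by
            rw [Finset.mem_erase]
            refine ⟨?_, ?_⟩
            · intro h7
              apply e3
              rw [h7]
            · rw [side_of_val hbv]; exact hy.2.2.1
          rw [Finset.sum_eq_single_of_mem i₁ hmem]
          · rw [if_pos rfl]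
          · intro j _ hj'
            rw [if_neg]
            intro h8
            injection h8 with _ _ h8
            exact hj' h8
        · rw [if_neg h4]
          apply Finset.sum_eq_zero
          intro j hj'
          rw [if_neg]
          intro h8
          injection h8 with h9 h10 h11
          apply h4
          refine ⟨h10.symm, ?_⟩
          subst h9
          subst h10
          subst h11
          have hs : B.side j = B.side i₂ := (Bip.mem_Rs.1 (Finset.mem_erase.1 hj').2).2
          rw [hs, ← hi₂]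
    · rw [wT_new h.1 h.2 h3, wnew_coef hv.2.2.1]
      have e1 : ¬ (c₁ = c ∧ b = ext b₁ c (B.base (B.side i₁) c)) := by
        rintro ⟨_, rfl⟩
        apply h3
        refine ⟨rfl, ?_⟩
        rw [B.side_base]
      rw [if_neg e1, sub_zero]
      simp
  · rw [wT_bad h]
    have e1 : ¬ (b = ext b₁ c₁ i₁) := by
      rintro rfl
      exact h ⟨hy, hyR⟩
    have e2 : ¬ (c₁ = c ∧ b = ext b₁ c (B.base (B.side i₁) c)) := by
      rintro ⟨rfl, rfl⟩
      apply h
      have hm : B.base (B.side i₁) c₁ ∈ B.Rs (B.side i₁) c₁ := B.base_Rs _ _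
      exact ⟨val_sib hy hm, (Bip.mem_Rs.1 hm).1⟩
    rw [if_neg e1, if_neg e2]
    simp

theorem wt_coef {c c₁ : B.C} {b₁ : Wd B G} {i₁ j₀ : B.I}
    (hv : (ext (ext b₁ c₁ i₁) c j₀).val lb) (hj : j₀ = B.base (B.side j₀) c)
    (u : Wd B G →₀ k) :
    wt k lb c u (ext (ext b₁ c₁ i₁) c j₀) =
      u (ext b₁ c₁ i₁) - (if c₁ = c then u (ext b₁ c (B.base (B.side i₁) c)) else 0) := by
  have : Finsupp.lapply (ext (ext b₁ c₁ i₁) c j₀) ∘ₗ wt k lb c =
      (Finsupp.lapply (ext b₁ c₁ i₁) : (Wd B G →₀ k) →ₗ[k] k) -
      (if c₁ = c then Finsupp.lapply (ext b₁ c (B.base (B.side i₁) c)) else 0) := by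
    apply fext
    intro b
    rw [LinearMap.comp_apply, wt_e, Finsupp.lapply_apply, wT_coef hv hj, LinearMap.sub_apply,
      Finsupp.lapply_apply, Finsupp.single_apply]
    congr 1
    by_cases h : c₁ = c
    · simp only [h, true_and, if_true]
      rw [Finsupp.lapply_apply, Finsupp.single_apply]
    · simp [h]
  have h2 := congrFun (congrArg DFunLike.coe this) u
  rw [LinearMap.comp_apply, Finsupp.lapply_apply, LinearMap.sub_apply,
      Finsupp.lapply_apply] at h2
  rw [h2]
  congr 1
  split_ifs <;> rfl

theorem X0_of_supp {u : VS k lb} (hu : ∀ b c i, (u : Wd B G →₀ k) (ext b c i) = 0) :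
    u ∈ X0 k lb := by
  have h1 : (u : Wd B G →₀ k) ∈
      Submodule.span k (Set.range fun g : G => (Finsupp.single (gen g : Wd B G) (1 : k))) := by
    rw [← Finsupp.sum_single (u : Wd B G →₀ k)]
    apply Submodule.sum_mem
    intro b _
    cases b with
    | gen g =>
      have : Finsupp.single (gen g : Wd B G) ((u : Wd B G →₀ k) (gen g)) =
        (u : Wd B G →₀ k) (gen g) • Finsupp.single (gen g : Wd B G) (1 : k) := by simp
      rw [this]
      exact Submodule.smul_mem _ _ (Submodule.subset_span ⟨g, rfl⟩)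
    | ext b c i =>
      rw [hu, Finsupp.single_zero]
      exact Submodule.zero_mem _
  have h2 : (X0 k lb).map (VS k lb).subtype =
      Submodule.span k (Set.range fun g : G => (Finsupp.single (gen g : Wd B G) (1 : k))) := by
    rw [X0, Submodule.map_span, ← Set.range_comp]
    rfl
  rw [← h2] at h1
  obtain ⟨v, hv, hvu⟩ := h1
  have : v = u := Subtype.ext hvu
  rwa [← this]

theorem X0_coef {u : VS k lb} (hu : u ∈ X0 k lb) (b : Wd B G) (c : B.C) (i : B.I) :
    (u : Wd B G →₀ k) (ext b c i) = 0 := by
  apply X0_induct (Q := fun u => (u : Wd B G →₀ k) (ext b c i) = 0) _ _ _ _ hu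
  · intro g
    show (Finsupp.single (gen g : Wd B G) (1 : k)) (ext b c i) = 0
    rw [Finsupp.single_apply, if_neg]
    intro h; cases h
  · rfl
  · intro x y hx hy
    rw [Submodule.coe_add, Finsupp.add_apply, hx, hy, add_zero]
  · intro r x hx
    rw [Submodule.coe_smul, Finsupp.smul_apply, hx, smul_zero]

theorem VS_coef (u : VS k lb) {b : Wd B G} (hb : ¬ b.val lb) :
    (u : Wd B G →₀ k) b = 0 := by
  apply VS_induct (lb := lb) (Q := fun u : VS k lb => (u : Wd B G →₀ k) b = 0)
  · intro b' h'
    show (Finsupp.single b' (1 : k)) b = 0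
    rw [Finsupp.single_apply, if_neg]
    rintro rfl
    exact hb h'
  · rfl
  · intro x y hx hy
    rw [Submodule.coe_add, Finsupp.add_apply, hx, hy, add_zero]
  · intro r x hx
    rw [Submodule.coe_smul, Finsupp.smul_apply, hx, smul_zero]

/-- coefficient of `t c u` at `ext (gen g) c i` for `u` in the generator span -/
theorem wt_coef_gen {u : VS k lb} (hu : u ∈ X0 k lb) {g : G} {c : B.C} {i : B.I}
    (hi : (ext (gen g) c i : Wd B G).val lb) :
    wt k lb c u (ext (gen g) c i) = (u : Wd B G →₀ k) (gen g) := by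
  apply X0_induct (Q := fun u => wt k lb c (u : Wd B G →₀ k) (ext (gen g) c i) =
    (u : Wd B G →₀ k) (gen g)) _ _ _ _ hu
  · intro g'
    show wt k lb c (Finsupp.single (gen g' : Wd B G) (1 : k)) (ext (gen g) c i) =
      (Finsupp.single (gen g' : Wd B G) (1 : k)) (gen g)
    rw [wt_e, Finsupp.single_apply]
    by_cases h : lb g' ∈ B.R c
    · rw [wT_new (b := gen g') trivial h id, wnew_coef hi.2.2.1]
      simp
    · rw [wT_bad (fun h' => h h'.2)]
      rw [if_neg]
      · rfl
      · intro h'
        injection h' with h'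
        subst h'
        exact h hi.2.1
  · simp
  · intro x y hx hy
    rw [Submodule.coe_add, map_add, Finsupp.add_apply, Finsupp.add_apply, hx, hy]
  · intro r x hx
    rw [Submodule.coe_smul, map_smul, Finsupp.smul_apply, Finsupp.smul_apply, hx]

noncomputable def fFrame (k : Type) [Field k] (lb : G → B.I) : Frame (fRep k lb) (X0 k lb) where
  W := WW lb
  ws := fun w => !B.side (w.1.1.lab lb)
  wc := fun w => w.1.2
  wl := fun w => w.1.1.len
  lam := fun w => wlam k lb w ∘ₗ (VS k lb).subtype
  vec := fun w => ⟨wnew k lb w.1.2 w.1.1, wnew_mem_VS w.2.1 w.2.2.1 w.2.2.2⟩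
  f1 := by
    intro w w' i hi
    show wlam k lb w (wp k lb i (wnew k lb w'.1.2 w'.1.1)) = _
    rw [wlam_p w hi, wnew_coef hi]
    by_cases h : w = w'
    · subst h; simp
    · rw [if_neg h, if_neg]
      rintro ⟨h1, h2⟩
      apply h
      apply Subtype.ext
      exact Prod.ext h1.symm h2.symm
  f2 := by
    intro u
    have hfin : (((u : Wd B G →₀ k).support : Set (Wd B G)).image
      (fun b => (match b with
        | gen _ => none
        | ext b c _ => some (b, c) : Option (Wd B G × B.C)))).Finite :=
      (Finset.finite_toSet _).image _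
    refine (hfin.preimage (f := fun w : WW lb => some w.1) ?_).subset ?_
    · intro a _ b _ h
      apply Subtype.ext
      simpa using h
    · rintro w ⟨i, hi, hne⟩
      refine ⟨ext w.1.1 w.1.2 i, ?_, rfl⟩
      rw [Finset.mem_coe, Finsupp.mem_support_iff]
      have : wlam k lb w (wp k lb i u) ≠ 0 := hne
      rwa [wlam_p w hi] at this
  f3 := by
    intro w u hu i hi
    show wlam k lb w (wp k lb i u) = 0
    rw [wlam_p w hi]
    exact X0_coef hu _ _ _
  f4 := by
    intro u _ h
    apply X0_of_supp
    intro b c i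
    by_cases hv : (ext b c i : Wd B G).val lb
    · have := h ⟨(b, c), hv.1, hv.2.1, hv.2.2.2⟩ i hv.2.2.1
      have h2 : wlam k lb ⟨(b, c), hv.1, hv.2.1, hv.2.2.2⟩ (wp k lb i u) = 0 := this
      rwa [wlam_p _ hv.2.2.1] at h2
    · exact VS_coef u hv
  f5 := by
    intro s c v hv hP ht
    apply Subtype.ext
    ext b
    cases b with
    | ext b c i => exact X0_coef hv b c i
    | gen g =>
      by_cases hg : lb g ∈ B.Rs s c
      · have hvv : (ext (gen g) c (B.base (!s) c) : Wd B G).val lb := by
          refine ⟨trivial, (Bip.mem_Rs.1 hg).1, ?_, id⟩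
          have : B.side ((gen g : Wd B G).lab lb) = s := (Bip.mem_Rs.1 hg).2
          rw [this]
          exact B.base_Rs _ _
        rw [← wt_coef_gen hv hvv]
        exact X0_coef ht _ _ _
      · have h1 : (fRep k lb).p (lb g) v = 0 := (fRep k lb).fix_not hg hP
        have h2 : wp k lb (lb g) (v : Wd B G →₀ k) (gen g) = (v : Wd B G →₀ k) (gen g) := by
          have : Finsupp.lapply (gen g : Wd B G) ∘ₗ wp k lb (lb g) =
              (Finsupp.lapply (gen g : Wd B G) : (Wd B G →₀ k) →ₗ[k] k) := by
            apply fext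
            intro b
            rw [LinearMap.comp_apply, wp_e]
            by_cases hb : b = gen g
            · subst hb
              rw [if_pos ⟨trivial, rfl⟩]
            · rw [Finsupp.lapply_apply, Finsupp.lapply_apply, Finsupp.single_apply, if_neg hb]
              split_ifs
              · rw [Finsupp.single_apply, if_neg hb]
              · rfl
          exact congrFun (congrArg DFunLike.coe this) (v : Wd B G →₀ k)
        rw [← h2]
        have h3 := congrArg (fun z : VS k lb => (z : Wd B G →₀ k) (gen g)) h1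
        exact h3
  star := by
    intro w c v hP hhyp
    set s := !B.side (w.1.1.lab lb) with hs
    have hval : ∀ i ∈ B.Rs s w.1.2, (ext w.1.1 w.1.2 i : Wd B G).val lb :=
      fun i hi => val_ext w.2.1 w.2.2.1 w.2.2.2 hi
    have hlam : ∀ i ∈ B.Rs s w.1.2, (wlam k lb w ∘ₗ (VS k lb).subtype) ((fRep k lb).p i v) =
        (v : Wd B G →₀ k) (ext w.1.1 w.1.2 i) := by
      intro i hi
      show wlam k lb w (wp k lb i v) = _
      rw [wlam_p w hi]
    -- coefficient of t c v
    have key : ∀ i ∈ B.Rs s w.1.2, i ∈ B.R c → ¬ (ext w.1.1 w.1.2 i : Wd B G).old c →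
        (v : Wd B G →₀ k) (ext w.1.1 w.1.2 i) -
          (if w.1.2 = c then (v : Wd B G →₀ k) (ext w.1.1 c (B.base (B.side i) c)) else 0) = 0 := by
      intro i hi hic ho
      have hsi : B.side i = s := (Bip.mem_Rs.1 hi).2
      have hj : B.base (!s) c ∈ B.Rs (!B.side ((ext w.1.1 w.1.2 i : Wd B G).lab lb)) c := by
        have : B.side ((ext w.1.1 w.1.2 i : Wd B G).lab lb) = s := hsi
        rw [this]; exact B.base_Rs _ _
      have hv' : (ext (ext w.1.1 w.1.2 i) c (B.base (!s) c) : Wd B G).val lb :=
        val_ext (hval i hi) hic ho hj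
      rw [← wt_coef hv' (by rw [B.side_base])]
      have h1 := hhyp ⟨(ext w.1.1 w.1.2 i, c), hval i hi, hic, ho⟩
        (by show w.1.1.len < w.1.1.len + 1; omega) (B.base (!s) c) hj
      have h2 : wlam k lb ⟨(ext w.1.1 w.1.2 i, c), hval i hi, hic, ho⟩
        (wp k lb (B.base (!s) c) (wt k lb c v)) = 0 := h1
      rwa [wlam_p _ hj] at h2
    refine ⟨?_, ?_⟩
    · intro hc i hi
      rw [hlam i hi]
      by_cases hic : i ∈ B.Rs s c
      · have := key i hi (Bip.mem_Rs.1 hic).1 (fun h => hc h.1)
        rwa [if_neg hc, sub_zero] at this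
      · have h1 : (fRep k lb).p i v = 0 := (fRep k lb).fix_not hic hP
        rw [← hlam i hi, h1, map_zero]
    · intro hc
      have hall : ∀ i ∈ B.Rs s w.1.2, (v : Wd B G →₀ k) (ext w.1.1 w.1.2 i) =
          (v : Wd B G →₀ k) (ext w.1.1 c (B.base s c)) := by
        intro i hi
        have hsi : B.side i = s := (Bip.mem_Rs.1 hi).2
        by_cases ho : (ext w.1.1 w.1.2 i : Wd B G).old c
        · obtain ⟨h1, h2⟩ := ho
          rw [hsi] at h2
          rw [h1, ← h2]
        · have h3 := key i hi (by rw [← hc]; exact (Bip.mem_Rs.1 hi).1) ho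
          rw [if_pos hc, hsi, sub_eq_zero] at h3
          exact h3
      intro i hi j hj
      rw [hlam i hi, hlam j hj, hall i hi, hall j hj]

end Pool.Agent.H494R3.VR
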