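import Mathlib
import Pool.Agent.H494R3.VR.B4

set_option autoImplicit false

/-!
Terminal lattices: freeness, factorisation of idempotents, invariance of the class.
-/

namespace Pool.Agent.H494R3.VR

open scoped Classical
open Wd

variable {B : Bip} {k : Type} [Field k]
variable {N : Type} [AddCommGroup N] [Module k N] {N' : Type} [AddCommGroup N'] [Module k N']

/-- homogeneous basis -/
theorem homBasis (A : Rep B k N) (D : Submodule k N) (hgr : ∀ i, ∀ x ∈ D, A.p i x ∈ D)
    (hfd : FiniteDimensional k D) (hnd : ∀ x ∈ D, A.nd x) :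
    ∃ (G : Type) (_ : Finite G) (lb : G → B.I) (d : G → N),
      (∀ g, A.p (lb g) (d g) = d g) ∧ LinearIndependent k d ∧
      Submodule.span k (Set.range d) = D := by
  let H : Set N := {x | x ∈ D ∧ ∃ i, A.p i x = x}
  have hH : Submodule.span k H = D := by
    apply le_antisymm
    · rw [Submodule.span_le]
      exact fun x hx => hx.1
    · intro x hx
      obtain ⟨J, hJ⟩ := hnd x hx
      rw [← hJ]
      exact Submodule.sum_mem _ fun i _ => Submodule.subset_span ⟨hgr i x hx, i, A.pp i x⟩
  obtain ⟨b, hb, hsp, hli⟩ := exists_linearIndependent k H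
  have hbD : ∀ x : b, (x : N) ∈ D := fun x => (hb x.2).1
  have hli' : LinearIndependent k (fun x : b => (⟨x, hbD x⟩ : D)) := by
    apply LinearIndependent.of_comp D.subtype
    exact hli
  have hfin : Finite b := hli'.finite
  have hch : ∀ x : b, ∃ i, A.p i (x : N) = x := fun x => (hb x.2).2
  choose lb hlb using hch
  refine ⟨b, hfin, lb, fun x => x, hlb, hli, ?_⟩
  rw [Subtype.range_coe, hsp, hH]

/-- extending from a linearly independent family -/
theorem extendMap {G : Type} {d : G → N} (hli : LinearIndependent k d) (y : G → N') :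
    ∃ f : N →ₗ[k] N', ∀ g, f (d g) = y g := by
  obtain ⟨f, hf⟩ := LinearMap.exists_extend ((Module.Basis.span hli).constr k y)
  refine ⟨f, fun g => ?_⟩
  have h1 := congrFun (congrArg DFunLike.coe hf) (Module.Basis.span hli g)
  rw [LinearMap.comp_apply, Module.Basis.constr_basis] at h1
  rw [← h1]
  congr 1
  exact (congrArg Subtype.val (Module.Basis.span_apply hli g)).symm

/-- terminal lattices give homomorphisms into the explicit free representation -/
theorem termHom {A : Rep B k N} {E : N →ₗ[k] N} {D : Submodule k N} (hD : IsLat A E D)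
    (hT : A.Term D) {G : Type} {lb : G → B.I} {d : G → N}
    (hd : ∀ g, A.p (lb g) (d g) = d g) (hli : LinearIndependent k d)
    (hsp : Submodule.span k (Set.range d) = D) :
    ∃ φ : N →ₗ[k] VS k lb, IsHom A (fRep k lb) φ ∧ ∀ g, φ (d g) = fe k (gen g) trivial := by
  obtain ⟨f, hf⟩ := extendMap hli (fun g => fe k (lb := lb) (gen g) trivial)
  obtain ⟨φ, h1, h2⟩ := hD.ext _ (fRep k lb) f (by
    intro i x hx
    rw [← hsp] at hx
    induction hx using Submodule.span_induction with
    | mem y hy =>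
      obtain ⟨g, rfl⟩ := hy
      rw [hf, fRep_p_gen]
      split_ifs with h
      · rw [← h, hd, hf]
      · rw [← hd g, A.pq _ _ (fun h' => h h'.symm), map_zero]
    | zero => simp
    | add y z _ _ hy hz => rw [map_add, map_add, map_add, map_add, hy, hz]
    | smul r y _ hy => rw [map_smul, map_smul, map_smul, map_smul, hy]) (by
    intro c s v hv
    rw [hT c s v hv]
    simp)
  refine ⟨φ, h1, fun g => ?_⟩
  rw [h2 _ (by rw [← hsp]; exact Submodule.subset_span ⟨g, rfl⟩), hf]

def Frame.transport {A : Rep B k N} {A' : Rep B k N'} {D' : Submodule k N'}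
    (Fr : Frame A' D') {f : N →ₗ[k] N'} {g : N' →ₗ[k] N} (hf : IsHom A A' f)
    (_hg : IsHom A' A g) (h1 : ∀ x, g (f x) = x) (h2 : ∀ y, f (g y) = y)
    {D : Submodule k N} (hD : ∀ x, x ∈ D ↔ f x ∈ D') : Frame A D where
  W := Fr.W
  ws := Fr.ws
  wc := Fr.wc
  wl := Fr.wl
  lam := fun w => Fr.lam w ∘ₗ f
  vec := fun w => g (Fr.vec w)
  f1 := by
    intro w w' i hi
    rw [LinearMap.comp_apply, hf.p, h2]
    exact Fr.f1 w w' i hi
  f2 := by
    intro u
    have := Fr.f2 (f u)
    simp_rw [← hf.p] at this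
    exact this
  f3 := by
    intro w u hu i hi
    rw [LinearMap.comp_apply, hf.p]
    exact Fr.f3 w _ ((hD u).1 hu) i hi
  f4 := by
    intro u hu h
    rw [hD]
    obtain ⟨J, hJ⟩ := hu
    apply Fr.f4
    · refine ⟨J, ?_⟩
      simp_rw [← hf.p]
      rw [← map_sum, hJ]
    · intro w i hi
      rw [← hf.p]
      exact h w i hi
  f5 := by
    intro s c v hv hP ht
    have := Fr.f5 s c (f v) ((hD v).1 hv) (by rw [← hf.P, hP]) (by rw [← hf.t]; exact (hD _).1 ht)
    rw [← h1 v, this, map_zero]
  star := by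
    intro w c v hP h
    have := Fr.star w c (f v) (by rw [← hf.P, hP]) (by
      intro w' hw' i hi
      rw [← hf.t, ← hf.p]
      exact h w' hw' i hi)
    simp_rw [← hf.p] at this
    exact this

theorem frameOf {A : Rep B k N} (hnd : ∀ u, A.nd u) {D : Submodule k N}
    (hD : IsLat A LinearMap.id D) (hT : A.Term D) : Nonempty (Frame A D) := by
  obtain ⟨G, hG, lb, d, hd, hli, hsp⟩ := homBasis A D hD.gr hD.fd (fun x _ => hnd x)
  obtain ⟨φ, hφ, hφd⟩ := termHom hD hT hd hli hsp
  have hψ := flift_hom A hd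
  have hdD : ∀ g, d g ∈ D := fun g => by rw [← hsp]; exact Submodule.subset_span ⟨g, rfl⟩
  have h1 : ∀ x, flift lb A d (φ x) = x := by
    intro x
    have := hD.agree (hψ.comp hφ) (IsHom.id A) (by
      intro x hx
      rw [← hsp] at hx
      induction hx using Submodule.span_induction with
      | mem y hy =>
        obtain ⟨g, rfl⟩ := hy
        rw [LinearMap.comp_apply, hφd, flift_gen]
        rfl
      | zero => simp
      | add y z _ _ hy hz => rw [map_add, map_add, hy, hz]
      | smul r y _ hy => rw [map_smul, map_smul, hy]) x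
    exact this
  have h2 : ∀ y, φ (flift lb A d y) = y := by
    intro y
    have := X0_lat.agree (hφ.comp hψ) (IsHom.id (fRep k lb)) (by
      intro x hx
      apply X0_induct (Q := fun x => (φ ∘ₗ flift lb A d) x = LinearMap.id x) _ _ _ _ hx
      · intro g
        rw [LinearMap.comp_apply, flift_gen, hφd]
        rfl
      · simp
      · intro x y hx hy; rw [map_add, map_add, hx, hy]
      · intro r x hx; rw [map_smul, map_smul, hx]) y
    exact this
  refine ⟨(fFrame k lb).transport hφ hψ h1 h2 (D := D) ?_⟩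
  intro x
  constructor
  · intro hx
    rw [← hsp] at hx
    induction hx using Submodule.span_induction with
    | mem y hy =>
      obtain ⟨g, rfl⟩ := hy
      rw [hφd]
      exact fe_gen_mem g
    | zero => simp
    | add y z _ _ hy hz => rw [map_add]; exact Submodule.add_mem _ hy hz
    | smul r y _ hy => rw [map_smul]; exact Submodule.smul_mem _ _ hy
  · intro hx
    rw [← h1 x]
    apply X0_induct (Q := fun y => flift lb A d y ∈ D) _ _ _ _ hx
    · intro g
      rw [flift_gen]
      exact hdD g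
    · simp
    · intro x y hx hy; rw [map_add]; exact Submodule.add_mem _ hx hy
    · intro r x hx; rw [map_smul]; exact Submodule.smul_mem _ _ hx

/-- every idempotent endomorphism of a finitely generated free representation factors through
a finitely generated free representation -/
theorem factor {G : Type} [Finite G] {lb : G → B.I} {E : VS k lb →ₗ[k] VS k lb}
    (hE : IsHom (fRep k lb) (fRep k lb) E) (hEE : ∀ x, E (E x) = E x) :
    ∃ (G' : Type) (_ : Finite G') (lb' : G' → B.I) (α : VS k lb' →ₗ[k] VS k lb)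
      (β : VS k lb →ₗ[k] VS k lb'), IsHom (fRep k lb') (fRep k lb) α ∧
      IsHom (fRep k lb) (fRep k lb') β ∧ (∀ x, α (β x) = E x) ∧ (∀ x, β (α x) = x) := by
  obtain ⟨X, hX⟩ := IsLat.init hE hEE (X0_lat (k := k) (lb := lb))
  obtain ⟨D, -, hD, hT, -⟩ := reduceTo (fFrame k lb) (IsHom.id (fRep k lb)) _ X rfl hX
    (fun c s v _ h => h)
  obtain ⟨G', hG', lb', d, hd, hli, hsp⟩ := homBasis (fRep k lb) D hD.gr hD.fd
    (fun x _ => fRep_nd x)
  obtain ⟨φ, hφ, hφd⟩ := termHom hD hT hd hli hsp
  have hψ := flift_hom (fRep k lb) hd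
  have hdD : ∀ g, d g ∈ D := fun g => by rw [← hsp]; exact Submodule.subset_span ⟨g, rfl⟩
  refine ⟨G', hG', lb', flift lb' (fRep k lb) d, φ ∘ₗ E, hψ, hφ.comp hE, ?_, ?_⟩
  · intro x
    have := hD.agree ((hψ.comp hφ).comp hE) hE (by
      intro x hx
      simp only [LinearMap.comp_apply]
      rw [hD.idX x hx]
      rw [← hsp] at hx
      induction hx using Submodule.span_induction with
      | mem y hy =>
        obtain ⟨g, rfl⟩ := hy
        rw [hφd, flift_gen]
      | zero => simp
      | add y z _ _ hy hz => rw [map_add, map_add, hy, hz]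
      | smul r y _ hy => rw [map_smul, map_smul, hy]) x
    simp only [LinearMap.comp_apply, hEE] at this
    exact this
  · intro y
    have := X0_lat.agree ((hφ.comp hE).comp hψ) (IsHom.id (fRep k lb')) (by
      intro x hx
      apply X0_induct (Q := fun x => ((φ ∘ₗ E) ∘ₗ flift lb' (fRep k lb) d) x =
        LinearMap.id x) _ _ _ _ hx
      · intro g
        simp only [LinearMap.comp_apply]
        rw [flift_gen, hD.idX _ (hdD g), hφd]
        rfl
      · simp
      · intro x y hx hy; rw [map_add, map_add, hx, hy]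
      · intro r x hx; rw [map_smul, map_smul, hx]) y
    exact this

/-! ### the class -/

variable {Mo : Type} [AddCommMonoid Mo]

noncomputable def cls (A : Rep B k N) (γ : B.I → Mo) (X : Submodule k N) : Mo :=
  ∑ᶠ i, Module.finrank k (X.map (A.p i)) • γ i

theorem suppFin (A : Rep B k N) {X : Submodule k N} (hfd : FiniteDimensional k X)
    (hnd : ∀ x ∈ X, A.nd x) : ∃ J : Finset B.I, ∀ i, i ∉ J → X.map (A.p i) = ⊥ := by
  obtain ⟨T, hT⟩ := (Submodule.fg_iff_finiteDimensional X).2 hfd
  have hch : ∀ u : N, ∃ J : Finset B.I, u ∈ T → ∑ i ∈ J, A.p i u = u := by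
    intro u
    by_cases hu : u ∈ T
    · obtain ⟨J, hJ⟩ := hnd u (by rw [← hT]; exact Submodule.subset_span hu)
      exact ⟨J, fun _ => hJ⟩
    · exact ⟨∅, fun h => (hu h).elim⟩
  choose J hJ using hch
  refine ⟨T.biUnion J, ?_⟩
  intro i hi
  rw [eq_bot_iff]
  rintro _ ⟨x, hx, rfl⟩
  rw [Submodule.mem_bot]
  have hx' : x ∈ Submodule.span k (T : Set N) := by rw [hT]; exact hx
  induction hx' using Submodule.span_induction with
  | mem y hy =>
    rw [← hJ y hy, map_sum]
    apply Finset.sum_eq_zero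
    intro j hj
    apply A.pq
    rintro rfl
    exact hi (Finset.mem_biUnion.2 ⟨y, hy, hj⟩)
  | zero => simp
  | add y z hy' hz' hy hz =>
    rw [map_add, hy (by rw [← hT]; exact hy'), hz (by rw [← hT]; exact hz'), add_zero]
  | smul r y hy' hy => rw [map_smul, hy (by rw [← hT]; exact hy'), smul_zero]

theorem rank_red (A : Rep B k N) {X : Submodule k N} (hfd : FiniteDimensional k X)
    (hgr : ∀ i, ∀ x ∈ X, A.p i x ∈ X) {J : Finset B.I} {l : N →ₗ[k] k} {x : N} (hx : x ∈ X)
    (hl : ∀ i ∈ J, l (A.p i x) = 1) (i : B.I) :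
    Module.finrank k (X.map (A.p i)) =
      Module.finrank k ((A.rd X J l).map (A.p i)) + if i ∈ J then 1 else 0 := by
  by_cases hi : i ∈ J
  · rw [if_pos hi]
    set l' : X.map (A.p i) →ₗ[k] k := l ∘ₗ (X.map (A.p i)).subtype with hl'
    have h1 := LinearMap.finrank_range_add_finrank_ker l'
    have h2 : LinearMap.range l' = ⊤ := by
      rw [LinearMap.range_eq_top]
      intro a
      refine ⟨a • ⟨A.p i x, ⟨x, hx, rfl⟩⟩, ?_⟩
      rw [map_smul]
      show a • l (A.p i x) = a
      rw [hl i hi, smul_eq_mul, mul_one]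
    have h3 : (LinearMap.ker l').map (X.map (A.p i)).subtype = (A.rd X J l).map (A.p i) := by
      ext y
      constructor
      · rintro ⟨⟨z, ⟨u, hu, rfl⟩⟩, hz, rfl⟩
        have hz' : l (A.p i u) = 0 := hz
        refine ⟨A.p i u, ⟨hgr i u hu, ?_⟩, A.pp i u⟩
        intro j hj
        rw [A.pij]
        split_ifs with h
        · rw [h]; exact hz'
        · rw [map_zero]
      · rintro ⟨u, hu, rfl⟩
        exact ⟨⟨A.p i u, ⟨u, hu.1, rfl⟩⟩, hu.2 i hi, rfl⟩
    have h4 : Module.finrank k (LinearMap.ker l') =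
        Module.finrank k ((A.rd X J l).map (A.p i)) := by
      rw [← h3]
      exact (LinearEquiv.finrank_eq (Submodule.equivMapOfInjective _
        (Submodule.injective_subtype _) _))
    rw [h2, finrank_top, Module.finrank_self] at h1
    rw [← h1, h4, add_comm]
  · rw [if_neg hi, add_zero]
    have : X.map (A.p i) = (A.rd X J l).map (A.p i) := by
      ext y
      constructor
      · rintro ⟨u, hu, rfl⟩
        refine ⟨A.p i u, ⟨hgr i u hu, ?_⟩, A.pp i u⟩
        intro j hj
        rw [A.pij, if_neg, map_zero]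
        rintro rfl
        exact hi hj
      · rintro ⟨u, hu, rfl⟩
        exact ⟨u, hu.1, rfl⟩
    rw [this]

theorem cls_red (A : Rep B k N) (γ : B.I → Mo) {X : Submodule k N}
    (hfd : FiniteDimensional k X) (hnd : ∀ x ∈ X, A.nd x)
    (hgr : ∀ i, ∀ x ∈ X, A.p i x ∈ X) {J : Finset B.I} {l : N →ₗ[k] k} {x : N} (hx : x ∈ X)
    (hl : ∀ i ∈ J, l (A.p i x) = 1) :
    cls A γ X = cls A γ (A.rd X J l) + ∑ i ∈ J, γ i := by
  obtain ⟨K, hK⟩ := suppFin A hfd hnd
  have hK' : ∀ i, i ∉ K → (A.rd X J l).map (A.p i) = ⊥ := by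
    intro i hi
    rw [eq_bot_iff, ← hK i hi]
    exact Submodule.map_mono (A.rd_le X J l)
  have e1 : cls A γ X = ∑ i ∈ K ∪ J, Module.finrank k (X.map (A.p i)) • γ i := by
    apply finsum_eq_sum_of_support_subset
    intro i hi
    rw [Function.mem_support] at hi
    by_contra h
    apply hi
    rw [hK i (fun h' => h (Finset.mem_coe.2 (Finset.mem_union_left _ h'))), finrank_bot, zero_smul]
  have e2 : cls A γ (A.rd X J l) =
      ∑ i ∈ K ∪ J, Module.finrank k ((A.rd X J l).map (A.p i)) • γ i := by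
    apply finsum_eq_sum_of_support_subset
    intro i hi
    rw [Function.mem_support] at hi
    by_contra h
    apply hi
    rw [hK' i (fun h' => h (Finset.mem_coe.2 (Finset.mem_union_left _ h'))), finrank_bot, zero_smul]
  have e3 : ∑ i ∈ J, γ i = ∑ i ∈ K ∪ J, (if i ∈ J then 1 else 0) • γ i := by
    rw [← Finset.sum_subset (Finset.subset_union_right (s₁ := K) (s₂ := J))]
    · apply Finset.sum_congr rfl
      intro i hi
      rw [if_pos hi, one_smul]
    · intro i _ hi
      rw [if_neg hi, zero_smul]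
  rw [e1, e2, e3, ← Finset.sum_add_distrib]
  apply Finset.sum_congr rfl
  intro i _
  rw [rank_red A hfd hgr hx hl i, add_smul]

/-- transport of lattices under isomorphisms -/
theorem IsLat.map_iso {A : Rep B k N} {A' : Rep B k N'} {D : Submodule k N}
    (hD : IsLat A LinearMap.id D)
    {f : N →ₗ[k] N'} {g : N' →ₗ[k] N} (hf : IsHom A A' f) (hg : IsHom A' A g)
    (h1 : ∀ x, g (f x) = x)
    (h2 : ∀ x, f (g x) = x) : IsLat A' LinearMap.id (D.map f) := by
  have := hD.fd
  refine ⟨?_, inferInstance, fun _ _ => rfl, ?_, ?_⟩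
  · rintro i _ ⟨x, hx, rfl⟩
    exact ⟨A.p i x, hD.gr i x hx, hf.p i x⟩
  · intro N'' _ _ A'' φ hφ1 hφ2
    obtain ⟨h, hh, hhf⟩ := hD.ext N'' A'' (φ ∘ₗ f) (by
      intro i x hx
      rw [LinearMap.comp_apply, hf.p, hφ1 i _ ⟨x, hx, rfl⟩]
      rfl) (by
      intro c s v hv
      rw [LinearMap.comp_apply, hf.t, hφ2 c s (f v)]
      · rfl
      · exact ⟨⟨v, hv.1, rfl⟩, by rw [← hf.P, hv.2.1], ⟨A.t c v, hv.2.2, hf.t c v⟩⟩)
    refine ⟨h ∘ₗ g, hh.comp hg, ?_⟩
    rintro _ ⟨x, hx, rfl⟩
    rw [LinearMap.comp_apply, h1, hhf x hx, LinearMap.comp_apply]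
  · intro S hS hSp hSt x
    have := hD.gen (S.comap f) (fun y hy => hS ⟨y, hy, rfl⟩) (by
      intro i y hy
      rw [Submodule.mem_comap] at hy ⊢
      rw [hf.p]
      exact hSp i _ hy) (by
      intro i y hy
      rw [Submodule.mem_comap] at hy ⊢
      rw [hf.t]
      exact hSt i _ hy) (g x)
    rw [LinearMap.id_apply, Submodule.mem_comap, h2] at this
    exact this

theorem Term.map_iso {A : Rep B k N} {A' : Rep B k N'} {D : Submodule k N} (hD : A.Term D)
    {f : N →ₗ[k] N'} {g : N' →ₗ[k] N} (hg : IsHom A' A g) (h1 : ∀ x, g (f x) = x)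
    (h2 : ∀ x, f (g x) = x) : A'.Term (D.map f) := by
  intro c s v hv
  have hmem : ∀ y, y ∈ D.map f → g y ∈ D := by
    rintro _ ⟨x, hx, rfl⟩
    rwa [h1]
  have := hD c s (g v) ⟨hmem _ hv.1, by rw [← hg.P, hv.2.1], by rw [← hg.t]; exact hmem _ hv.2.2⟩
  rw [← h2 v, this, map_zero]

theorem cls_map {A : Rep B k N} {A' : Rep B k N'} (γ : B.I → Mo) {D : Submodule k N}
    {f : N →ₗ[k] N'} (hf : IsHom A A' f) (hinj : Function.Injective f) :
    cls A' γ (D.map f) = cls A γ D := by
  unfold cls
  apply finsum_congr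
  intro i
  congr 1
  have : (D.map f).map (A'.p i) = (D.map (A.p i)).map f := by
    rw [← Submodule.map_comp, ← Submodule.map_comp]
    congr 1
    ext x
    simp [hf.p]
  rw [this]
  exact (LinearEquiv.finrank_eq (Submodule.equivMapOfInjective f hinj _)).symm

end Pool.Agent.H494R3.VR
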