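import Mathlib
import Pool.Agent.H494R3.VR.B5

set_option autoImplicit false

/-!
Invariance of the class of terminal lattices.
-/

namespace Pool.Agent.H494R3.VR

open scoped Classical
open Wd

variable {B : Bip} {k : Type} [Field k]
variable {N : Type} [AddCommGroup N] [Module k N]
variable {Mo : Type} [AddCommMonoid Mo]

theorem rd_smul (A : Rep B k N) (X : Submodule k N) (J : Finset B.I) (l : N →ₗ[k] k) {a : k}
    (ha : a ≠ 0) : A.rd X J (a • l) = A.rd X J l := by
  ext u
  rw [Rep.mem_rd, Rep.mem_rd]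
  apply and_congr_right
  intro _
  apply forall_congr'
  intro i
  apply imp_congr_right
  intro _
  rw [LinearMap.smul_apply, smul_eq_mul]
  simp [ha]

theorem Datum.rescale {A : Rep B k N} {X : Submodule k N} {s : Bool} {c : B.C}
    {l : N →ₗ[k] k} {x' : N} (h : Datum A X s c l x') {x : N} (hx : A.inC X c s x)
    (ha : l (A.p (B.base s c) x) ≠ 0) :
    Datum A X s c ((l (A.p (B.base s c) x))⁻¹ • l) x := by
  refine ⟨?_, ?_, hx, ?_⟩
  · intro c' s' v hc hv i hi
    rw [LinearMap.smul_apply, h.r1 c' s' v hc hv i hi, smul_zero]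
  · intro v hv i hi j hj
    rw [LinearMap.smul_apply, LinearMap.smul_apply, h.r2 v hv i hi j hj]
  · intro i hi
    rw [LinearMap.smul_apply, h.r2 x hx i hi _ (B.base_Rs s c), smul_eq_mul, inv_mul_cancel₀ ha]

theorem extRho {A : Rep B k N} {Y : Submodule k N} (hY : IsLat A LinearMap.id Y)
    {J : Finset B.I} {L : N →ₗ[k] k}
    (hL : ∀ c s v, A.inC Y c s v → ∀ i ∈ J, L (A.p i v) = 0) (z : N) :
    ∃ h : N →ₗ[k] N, IsHom A A h ∧ ∀ u ∈ Y, h u = A.rpi J L z u := by
  apply hY.ext N A (A.rpi J L z)
  · intro i x _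
    exact A.rpi_comm J L z x i
  · intro c s v hv
    rw [A.rpi_id (hL c s v hv), A.rpi_id (hL c _ _ hv.flip)]

theorem rho_rho {A : Rep B k N} {X : Submodule k N}
    {J : Finset B.I} {l L : N →ₗ[k] k} {x : N} (hl : ∀ i ∈ J, l (A.p i x) = 1)
    {u : N} (hu : u ∈ A.rd X J l) : A.rpi J l x (A.rpi J L x u) = u := by
  rw [A.rpi_apply J l, A.rpi_apply J L]
  have : ∀ i ∈ J, l (A.p i (u - ∑ j ∈ J, L (A.p j u) • A.p j x)) • A.p i x =
      - (L (A.p i u) • A.p i x) := by
    intro i hi
    rw [← A.rpi_apply J L, A.p_rpi, if_pos hi, map_sub, hu.2 i hi, map_smul, hl i hi, zero_sub,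
      smul_eq_mul, mul_one, neg_smul]
  rw [Finset.sum_congr rfl this, Finset.sum_neg_distrib]
  abel

/-- same side automorphism -/
theorem autom {A : Rep B k N} {X : Submodule k N} (hX : ∀ i, ∀ x ∈ X, A.p i x ∈ X)
    {J : Finset B.I} {l L : N →ₗ[k] k} {x : N} (hx : x ∈ X)
    (hl : ∀ i ∈ J, l (A.p i x) = 1) (hL : ∀ i ∈ J, L (A.p i x) = 1)
    (hY : IsLat A LinearMap.id (A.rd X J l)) (hY' : IsLat A LinearMap.id (A.rd X J L))
    (h1 : ∀ c s v, A.inC (A.rd X J l) c s v → ∀ i ∈ J, L (A.p i v) = 0)
    (h2 : ∀ c s v, A.inC (A.rd X J L) c s v → ∀ i ∈ J, l (A.p i v) = 0) :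
    ∃ f g : N →ₗ[k] N, IsHom A A f ∧ IsHom A A g ∧ (∀ y, g (f y) = y) ∧ (∀ y, f (g y) = y) ∧
      ∀ u ∈ A.rd X J l, f u ∈ A.rd X J L := by
  obtain ⟨f, hf, hfu⟩ := extRho hY h1 x
  obtain ⟨g, hg, hgu⟩ := extRho hY' h2 x
  have hf' : ∀ u ∈ A.rd X J l, f u ∈ A.rd X J L := by
    intro u hu
    rw [hfu u hu]
    exact A.rpi_mem hX hx hL hu.1
  have hg' : ∀ u ∈ A.rd X J L, g u ∈ A.rd X J l := by
    intro u hu
    rw [hgu u hu]
    exact A.rpi_mem hX hx hl hu.1
  refine ⟨f, g, hf, hg, ?_, ?_, hf'⟩
  · intro y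
    have := hY.agree (hg.comp hf) (IsHom.id A) (by
      intro u hu
      rw [LinearMap.comp_apply, hgu _ (hf' u hu), hfu u hu, rho_rho hl hu]
      rfl) y
    exact this
  · intro y
    have := hY'.agree (hf.comp hg) (IsHom.id A) (by
      intro u hu
      rw [LinearMap.comp_apply, hfu _ (hg' u hu), hgu u hu, rho_rho hL hu]
      rfl) y
    exact this

theorem xs_exp {A : Rep B k N} {s : Bool} {c : B.C} {x : N} {l : N →ₗ[k] k}
    (hl : ∀ i ∈ B.Rs s c, l (A.p i x) = 1) {w : N} (hw : w ∈ A.xs s c x) :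
    w = ∑ i ∈ B.Rs s c, l (A.p i w) • A.p i x := by
  induction hw using Submodule.span_induction with
  | mem y hy =>
    obtain ⟨j, hj, rfl⟩ := hy
    simp only
    rw [Finset.sum_eq_single_of_mem j hj]
    · rw [A.pp, hl j hj, one_smul]
    · intro i _ hij
      rw [A.pq i j hij, map_zero, zero_smul]
  | zero => simp
  | add y z _ _ hy hz =>
    simp_rw [map_add, add_smul]
    rw [Finset.sum_add_distrib, ← hy, ← hz]
  | smul r y _ hy =>
    simp_rw [map_smul, smul_eq_mul, mul_smul]
    rw [← Finset.smul_sum, ← hy]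

theorem mem_of_sup {A : Rep B k N} {s : Bool} {c : B.C} {x : N} {l : N →ₗ[k] k}
    (hl : ∀ i ∈ B.Rs s c, l (A.p i x) = 1) {D : Submodule k N}
    (hD : ∀ u ∈ D, ∀ i ∈ B.Rs s c, l (A.p i u) = 0) {u : N} (hu : u ∈ D ⊔ A.xs s c x)
    (h0 : ∀ i ∈ B.Rs s c, l (A.p i u) = 0) : u ∈ D := by
  obtain ⟨a, ha, b, hb, rfl⟩ := Submodule.mem_sup.1 hu
  have hb0 : b = 0 := by
    rw [xs_exp hl hb]
    apply Finset.sum_eq_zero
    intro i hi
    have := h0 i hi
    rw [map_add, map_add, hD a ha i hi, zero_add] at this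
    rw [this, zero_smul]
  rw [hb0, add_zero]
  exact ha

theorem T2 {A : Rep B k N} (hnd : ∀ u, A.nd u) (γ : B.I → Mo)
    (hγ : ∀ c s, ∑ i ∈ B.Rs s c, γ i = ∑ i ∈ B.Rs (!s) c, γ i) :
    ∀ (n : ℕ) (X D D' : Submodule k N), Module.finrank k X = n → IsLat A LinearMap.id X →
      IsLat A LinearMap.id D → A.Term D → D ≤ X →
      IsLat A LinearMap.id D' → A.Term D' → D' ≤ X → cls A γ D = cls A γ D' := by
  intro n
  induction n using Nat.strong_induction_on with
  | _ n ih =>
    intro X D D' hn hX hD hDT hDX hD' hDT' hDX'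
    obtain ⟨Fr⟩ := frameOf hnd hD hDT
    obtain ⟨Fr'⟩ := frameOf hnd hD' hDT'
    by_cases hXD : X ≤ D
    · have hXT : A.Term X := by rw [le_antisymm hXD hDX]; exact hDT
      by_cases hXD' : X ≤ D'
      · rw [le_antisymm hDX hXD, le_antisymm hDX' hXD']
      · exfalso
        obtain ⟨s, c, l, x, hd, -⟩ := progress2 hnd hX hD' Fr' hDX' hXD'
        have h0 := hXT c s x hd.r3
        have h1 := hd.r4 _ (B.base_Rs s c)
        rw [h0, map_zero, map_zero] at h1
        exact zero_ne_one h1
    by_cases hXD' : X ≤ D'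
    · exfalso
      have hXT : A.Term X := by rw [le_antisymm hXD' hDX']; exact hDT'
      obtain ⟨s, c, l, x, hd, -⟩ := progress2 hnd hX hD Fr hDX hXD
      have h0 := hXT c s x hd.r3
      have h1 := hd.r4 _ (B.base_Rs s c)
      rw [h0, map_zero, map_zero] at h1
      exact zero_ne_one h1
    obtain ⟨s, c, l, x, d1, hl0⟩ := progress2 hnd hX hD Fr hDX hXD
    obtain ⟨s', c', l', x', d2, hl0'⟩ := progress2 hnd hX hD' Fr' hDX' hXD'
    set Y := A.rd X (B.Rs s c) l with hYdef
    set Y' := A.rd X (B.Rs s' c') l' with hYdef'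
    have hY : IsLat A LinearMap.id Y := hX.red d1
    have hY' : IsLat A LinearMap.id Y' := hX.red d2
    have hDY : D ≤ Y := fun u hu => ⟨hDX hu, hl0 u hu⟩
    have hDY' : D' ≤ Y' := fun u hu => ⟨hDX' hu, hl0' u hu⟩
    have hnY : Module.finrank k Y < n := by rw [← hn]; exact d1.lt hX.fd
    have hnY' : Module.finrank k Y' < n := by rw [← hn]; exact d2.lt hX.fd
    have hYX : Y ≤ X := A.rd_le _ _ _
    have hYX' : Y' ≤ X := A.rd_le _ _ _
    by_cases hind : ∃ v, A.inC Y c' s' v ∧ l' (A.p (B.base s' c') v) ≠ 0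
    · -- independent case
      obtain ⟨v, hv, hne⟩ := hind
      have d3 : Datum A Y s' c' l' ((l' (A.p (B.base s' c') v))⁻¹ • v) := by
        refine ⟨?_, ?_, ?_, ?_⟩
        · intro c'' s'' w hc hw
          exact d2.r1 c'' s'' w hc (hw.mono hYX)
        · intro w hw
          exact d2.r2 w (hw.mono hYX)
        · exact ⟨Y.smul_mem _ hv.1, by rw [map_smul, hv.2.1],
            by rw [map_smul]; exact Y.smul_mem _ hv.2.2⟩
        · intro i hi
          rw [map_smul, map_smul, d2.r2 v (hv.mono hYX) i hi _ (B.base_Rs s' c'), smul_eq_mul,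
            inv_mul_cancel₀ hne]
      have hZ := hY.red d3
      obtain ⟨D₀, hD₀, hD₀l, hD₀T, -⟩ := reduceTo Fr (IsHom.id A) _ _ rfl hZ (fun _ _ _ _ h => h)
      have hZY : A.rd Y (B.Rs s' c') l' ≤ Y := A.rd_le _ _ _
      have hZY' : A.rd Y (B.Rs s' c') l' ≤ Y' := fun u hu => ⟨hYX hu.1, hu.2⟩
      rw [ih _ hnY Y D D₀ rfl hY hD hDT hDY hD₀l hD₀T (hD₀.trans hZY)]
      exact ih _ hnY' Y' D₀ D' rfl hY' hD₀l hD₀T (hD₀.trans hZY') hD' hDT' hDY'
    · -- dependent case
      push Not at hind
      have hcc : c' = c := by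
        by_contra hc
        have hx' : A.inC Y c' s' x' :=
          ⟨⟨d2.r3.1, d1.r1 c' s' x' hc d2.r3⟩, d2.r3.2.1,
            ⟨d2.r3.2.2, d1.r1 c' _ _ hc d2.r3.flip⟩⟩
        have h1 := hind x' hx'
        rw [d2.r4 _ (B.base_Rs s' c')] at h1
        exact one_ne_zero h1
      subst hcc
      have hvan : ∀ c'' s'' v, A.inC Y c'' s'' v → ∀ i ∈ B.Rs s' c', l' (A.p i v) = 0 := by
        intro c'' s'' v hv i hi
        by_cases hc : c'' = c'
        · subst hc
          by_cases hs : s'' = s'
          · subst hs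
            rw [d2.r2 v (hv.mono hYX) i hi _ (B.base_Rs s'' c'')]
            exact hind v hv
          · rw [A.fix_side _ hv.2.1, map_zero]
            rw [(Bip.mem_Rs.1 hi).2]
            cases s' <;> cases s'' <;> simp_all
        · exact d2.r1 c'' s'' v hc (hv.mono hYX) i hi
      have hi₀ := B.base_Rs s c'
      by_cases hss : s' = s
      · -- same side
        subst hss
        set a := l' (A.p (B.base s' c') x) with ha
        set b := l (A.p (B.base s' c') x') with hb
        have hv : A.inC Y c' s' (x' - b • x) := by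
          have hP : A.P s' c' (x' - b • x) = x' - b • x := by
            rw [map_sub, map_smul, d2.r3.2.1, d1.r3.2.1]
          refine ⟨⟨X.sub_mem d2.r3.1 (X.smul_mem _ d1.r3.1), ?_⟩, hP, ⟨?_, ?_⟩⟩
          · intro i hi
            rw [map_sub, map_sub, map_smul, map_smul, d1.r4 i hi,
              d1.r2 x' d2.r3 i hi _ hi₀, ← hb]
            simp
          · rw [map_sub, map_smul]
            exact X.sub_mem d2.r3.2.2 (X.smul_mem _ d1.r3.2.2)
          · exact d1.opp (A.P_t hP)
        have hab : b * a = 1 := by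
          have := hind _ hv
          rw [map_sub, map_sub, map_smul, map_smul, d2.r4 _ hi₀, ← ha, smul_eq_mul,
            sub_eq_zero] at this
          exact this.symm
        have ha0 : a ≠ 0 := right_ne_zero_of_mul_eq_one hab
        have d4 : Datum A X s' c' (a⁻¹ • l') x := d2.rescale d1.r3 ha0
        have hY2 : A.rd X (B.Rs s' c') (a⁻¹ • l') = Y' := rd_smul A X _ l' (inv_ne_zero ha0)
        obtain ⟨f, g, hf, hg, h1, h2, hfY⟩ := autom (L := a⁻¹ • l') hX.gr d1.r3.1 d1.r4 d4.r4 hY
          (by rw [hY2]; exact hY') (by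
            intro c'' s'' v hv i hi
            rw [LinearMap.smul_apply, hvan c'' s'' v hv i hi, smul_zero]) (by
            intro c'' s'' v hv i hi
            have hvX : A.inC X c'' s'' v := hv.mono (A.rd_le _ _ _)
            by_cases hc : c'' = c'
            · subst hc
              by_cases hs : s'' = s'
              · subst hs
                set b' := l (A.p i v) with hb'
                have hw : A.inC Y c'' s'' (v - b' • x) := by
                  have hP : A.P s'' c'' (v - b' • x) = v - b' • x := by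
                    rw [map_sub, map_smul, hv.2.1, d1.r3.2.1]
                  refine ⟨⟨X.sub_mem hvX.1 (X.smul_mem _ d1.r3.1), ?_⟩, hP, ⟨?_, ?_⟩⟩
                  · intro j hj
                    rw [map_sub, map_sub, map_smul, map_smul, d1.r4 j hj,
                      d1.r2 v hvX j hj i hi, ← hb']
                    simp
                  · rw [map_sub, map_smul]
                    exact X.sub_mem hvX.2.2 (X.smul_mem _ d1.r3.2.2)
                  · exact d1.opp (A.P_t hP)
                have h3 := hvan _ _ _ hw i hi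
                have h4 : l' (A.p i v) = 0 := by
                  have h5 : v ∈ Y' := by rw [← hY2]; exact hv.1
                  exact h5.2 i hi
                rw [map_sub, map_sub, map_smul, map_smul, h4, zero_sub, neg_eq_zero, smul_eq_mul,
                  d2.r2 x d1.r3 i hi _ hi₀, ← ha] at h3
                rcases mul_eq_zero.1 h3 with h6 | h6
                · exact h6
                · exact (ha0 h6).elim
              · rw [A.fix_side _ hv.2.1, map_zero]
                rw [(Bip.mem_Rs.1 hi).2]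
                cases s' <;> cases s'' <;> simp_all
            · exact d1.r1 c'' s'' v hc hvX i hi)
        rw [hY2] at hfY
        have hfi : Function.Injective f := Function.LeftInverse.injective h1
        rw [← cls_map (A' := A) γ (D := D) hf hfi]
        apply ih _ hnY' Y' (D.map f) D' rfl hY' (hD.map_iso hf hg h1 h2)
          (Term.map_iso hDT hg h1 h2) _ hD' hDT' hDY'
        rintro _ ⟨u, hu, rfl⟩
        exact hfY u (hDY hu)
      · -- opposite sides
        have hss' : s' = !s := by cases s <;> cases s' <;> simp_all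
        subst hss'
        have hi₁ := B.base_Rs (!s) c'
        have hz : A.inC X c' (!s) (A.t c' x) := d1.r3.flip
        have htz : A.t c' (A.t c' x) = x := A.tt_fix d1.r3.2.1
        set z := A.t c' x with hzdef
        set a := l' (A.p (B.base (!s) c') z) with ha
        have hxs' : A.inC X c' s (A.t c' x') := by
          have := d2.r3.flip
          rwa [Bool.not_not] at this
        set b := l (A.p (B.base s c') (A.t c' x')) with hb
        have hv : A.inC Y c' (!s) (x' - b • z) := by
          have hP : A.P (!s) c' (x' - b • z) = x' - b • z := by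
            rw [map_sub, map_smul, d2.r3.2.1, hz.2.1]
          refine ⟨⟨X.sub_mem d2.r3.1 (X.smul_mem _ hz.1), d1.opp hP⟩, hP, ⟨?_, ?_⟩⟩
          · rw [map_sub, map_smul]
            exact X.sub_mem d2.r3.2.2 (X.smul_mem _ hz.2.2)
          · intro i hi
            rw [map_sub, map_smul, htz, map_sub, map_sub, map_smul, map_smul, d1.r4 i hi,
              d1.r2 _ hxs' i hi _ hi₀, ← hb]
            simp
        have hab : b * a = 1 := by
          have := hind _ hv
          rw [map_sub, map_sub, map_smul, map_smul, d2.r4 _ hi₁, ← ha, smul_eq_mul,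
            sub_eq_zero] at this
          exact this.symm
        have ha0 : a ≠ 0 := right_ne_zero_of_mul_eq_one hab
        have d4 : Datum A X (!s) c' (a⁻¹ • l') z := d2.rescale hz ha0
        have hY2 : A.rd X (B.Rs (!s) c') (a⁻¹ • l') = Y' := rd_smul A X _ l' (inv_ne_zero ha0)
        set L := a⁻¹ • l' with hLdef
        have hvanL : ∀ c'' s'' v, A.inC Y c'' s'' v → ∀ i ∈ B.Rs (!s) c', L (A.p i v) = 0 := by
          intro c'' s'' v hv i hi
          rw [hLdef, LinearMap.smul_apply, hvan c'' s'' v hv i hi, smul_zero]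
        obtain ⟨f, hf, hfu⟩ := extRho hY hvanL z
        have hzY : z ∈ Y := ⟨hz.1, d1.opp hz.2.1⟩
        have hfz : f z = 0 := by
          rw [hfu z hzY, A.rpi_apply]
          have : ∑ i ∈ B.Rs (!s) c', L (A.p i z) • A.p i z = z := by
            conv_rhs => rw [← hz.2.1, A.P_apply]
            apply Finset.sum_congr rfl
            intro i hi
            rw [d4.r4 i hi, one_smul]
          rw [this, sub_self]
        obtain ⟨D₁, hD₁Y, hD₁, hD₁T, hD₁k⟩ := reduceTo Fr hf _ Y rfl hY (by
          intro c'' s'' v hv h0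
          rw [hfu v hv.1, A.rpi_id (hvanL c'' s'' v hv)] at h0
          exact h0)
        have hzD₁ : z ∈ D₁ := hD₁k z hzY hfz
        rw [ih _ hnY Y D D₁ rfl hY hD hDT hDY hD₁ hD₁T hD₁Y]
        -- the enlarged lattice
        have hE := hD₁.exp (IsHom.id A) hzD₁ hz.2.1
        rw [Bool.not_not, htz] at hE
        set D₂ := D₁ ⊔ A.xs s c' x with hD₂
        have hxD₂ : x ∈ D₂ := Submodule.mem_sup_right (A.mem_xs d1.r3.2.1)
        have hD₂X : D₂ ≤ X := by
          rw [hD₂, sup_le_iff]
          refine ⟨hD₁Y.trans hYX, ?_⟩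
          rw [Rep.xs, Submodule.span_le]
          rintro _ ⟨i, _, rfl⟩
          exact hX.gr i x d1.r3.1
        have d5 : Datum A D₂ (!s) c' L z := by
          refine ⟨?_, ?_, ?_, d4.r4⟩
          · intro c'' s'' w hc hw
            exact d4.r1 c'' s'' w hc (hw.mono hD₂X)
          · intro w hw
            exact d4.r2 w (hw.mono hD₂X)
          · exact ⟨Submodule.mem_sup_left hzD₁, hz.2.1, by rw [htz]; exact hxD₂⟩
        have hD₃ := hE.red d5
        set D₃ := A.rd D₂ (B.Rs (!s) c') L with hD₃def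
        have hD₃Y' : D₃ ≤ Y' := by
          rw [← hY2]
          exact fun u hu => ⟨hD₂X hu.1, hu.2⟩
        have hlD₁ : ∀ u ∈ D₁, ∀ i ∈ B.Rs s c', l (A.p i u) = 0 := fun u hu => (hD₁Y hu).2
        -- terminality, main side
        have hside : ∀ v, A.inC D₃ c' s v → v = 0 := by
          intro v hv
          have hvX : A.inC X c' s v := hv.mono ((A.rd_le _ _ _).trans hD₂X)
          set b' := l (A.p (B.base s c') v) with hb'
          have hw : A.inC Y c' s (v - b' • x) := by
            have hP : A.P s c' (v - b' • x) = v - b' • x := by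
              rw [map_sub, map_smul, hv.2.1, d1.r3.2.1]
            refine ⟨⟨X.sub_mem hvX.1 (X.smul_mem _ d1.r3.1), ?_⟩, hP, ⟨?_, ?_⟩⟩
            · intro j hj
              rw [map_sub, map_sub, map_smul, map_smul, d1.r4 j hj,
                d1.r2 v hvX j hj _ hi₀, ← hb']
              simp
            · rw [map_sub, map_smul]
              exact X.sub_mem hvX.2.2 (X.smul_mem _ d1.r3.2.2)
            · exact d1.opp (A.P_t hP)
          have h3 := hvanL _ _ _ hw.flip _ hi₁
          have h4 : L (A.p (B.base (!s) c') (A.t c' v)) = 0 := hv.2.2.2 _ hi₁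
          rw [map_sub, map_smul, ← hzdef, map_sub, map_sub, map_smul, map_smul, h4,
            d4.r4 _ hi₁, zero_sub, neg_eq_zero, smul_eq_mul, mul_one] at h3
          have h5 : v ∈ D₁ := by
            apply mem_of_sup d1.r4 hlD₁ hv.1.1
            intro i hi
            rw [d1.r2 v hvX i hi _ hi₀, ← hb', h3]
          have h6 : A.t c' v ∈ D₁ :=
            mem_of_sup d1.r4 hlD₁ hv.2.2.1 (d1.opp (A.P_t hv.2.1))
          exact hD₁T c' s v ⟨h5, hv.2.1, h6⟩
        have hD₃T : A.Term D₃ := by
          intro c'' s'' v hv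
          have hvX : A.inC X c'' s'' v := hv.mono ((A.rd_le _ _ _).trans hD₂X)
          by_cases hc : c'' = c'
          · subst hc
            by_cases hs : s'' = s
            · subst hs
              exact hside v hv
            · have hs' : s = !s'' := by cases s <;> cases s'' <;> simp_all
              have hfl := hv.flip
              rw [← hs'] at hfl
              have h7 := hside _ hfl
              rw [← A.tt_fix hv.2.1, h7, map_zero]
          · have h5 : v ∈ D₁ := mem_of_sup d1.r4 hlD₁ hv.1.1 (d1.r1 c'' s'' v hc hvX)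
            have h6 : A.t c'' v ∈ D₁ :=
              mem_of_sup d1.r4 hlD₁ hv.2.2.1 (d1.r1 c'' _ _ hc hvX.flip)
            exact hD₁T c'' s'' v ⟨h5, hv.2.1, h6⟩
        rw [← ih _ hnY' Y' D₃ D' rfl hY' hD₃ hD₃T hD₃Y' hD' hDT' hDY']
        -- comparison of classes
        have hxD₃ : x ∈ D₃ := by
          refine ⟨hxD₂, ?_⟩
          intro i hi
          rw [A.fix_side _ d1.r3.2.1, map_zero]
          exact (Bip.mem_Rs.1 hi).2
        rw [cls_red A γ hD₁.fd (fun x _ => hnd x) hD₁.gr hzD₁ d4.r4,
          cls_red A γ hD₃.fd (fun x _ => hnd x) hD₃.gr hxD₃ d1.r4, hγ c' s]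
        congr 2
        ext u
        constructor
        · rintro ⟨hu1, hu2⟩
          exact ⟨⟨Submodule.mem_sup_left hu1, hu2⟩, hlD₁ u hu1⟩
        · rintro ⟨⟨hu1, hu2⟩, hu3⟩
          exact ⟨mem_of_sup d1.r4 hlD₁ hu1 hu3, hu2⟩

end Pool.Agent.H494R3.VR
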