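import Mathlib
import Pool.Agent.H494R3.VR.B6

set_option autoImplicit false

/-!
The gluing pattern of a family of splittings, and systems in rings.
-/

namespace Pool.Agent.H494R3.VR

open scoped Classical

variable {O T : Type} {o : T → Option Bool → O} {k : Type} [Field k]
variable {N : Type} [AddCommGroup N] [Module k N] {N' : Type} [AddCommGroup N'] [Module k N']

noncomputable def mkR (o : T → Option Bool → O) : T × Option Bool → Finset ((T × Bool) ⊕ O)
  | (t, some i) => {Sum.inl (t, i), Sum.inr (o t (some i))}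
  | (t, none) => {Sum.inl (t, true), Sum.inl (t, false), Sum.inr (o t none)}

def mkBase (o : T → Option Bool → O) : Bool → T × Option Bool → (T × Bool) ⊕ O
  | true, (t, some i) => Sum.inl (t, i)
  | true, (t, none) => Sum.inl (t, true)
  | false, (t, j) => Sum.inr (o t j)

noncomputable def mkB (o : T → Option Bool → O) : Bip where
  I := (T × Bool) ⊕ O
  C := T × Option Bool
  side := Sum.isLeft
  R := mkR o
  base := mkBase o
  base_mem := by
    rintro (_ | _) ⟨t, (_ | i)⟩ <;> simp [mkR, mkBase]
  side_base := by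
    rintro (_ | _) ⟨t, (_ | i)⟩ <;> simp [mkBase]

theorem mkR_ts (t : T) (i : Bool) (x : (T × Bool) ⊕ O) :
    (x ∈ mkR o (t, some i) ∧ Sum.isLeft x = true) ↔ x = Sum.inl (t, i) := by
  rcases x with x | x <;> simp [mkR]

theorem mkR_tn (t : T) (x : (T × Bool) ⊕ O) :
    (x ∈ mkR o (t, none) ∧ Sum.isLeft x = true) ↔
      x = Sum.inl (t, true) ∨ x = Sum.inl (t, false) := by
  rcases x with x | x <;> simp [mkR]

theorem mkR_f (t : T) (j : Option Bool) (x : (T × Bool) ⊕ O) :
    (x ∈ mkR o (t, j) ∧ Sum.isLeft x = false) ↔ x = Sum.inr (o t j) := by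
  rcases j with _ | j <;> rcases x with x | x <;> simp [mkR]

/-- label of a component -/
def il (o : T → Option Bool → O) (t : T) (i : Bool) : (mkB o).I := Sum.inl (t, i)
def ir (o : T → Option Bool → O) (g : O) : (mkB o).I := Sum.inr g
def ic (o : T → Option Bool → O) (t : T) (j : Option Bool) : (mkB o).C := (t, j)

theorem il_ne_ir (t : T) (i : Bool) (g : O) : il o t i ≠ ir o g := by
  intro h; cases h

theorem il_inj {t : T} {i j : Bool} (h : i ≠ j) : il o t i ≠ il o t j := by
  intro h'
  apply h
  have : (Sum.inl (t, i) : (T × Bool) ⊕ O) = Sum.inl (t, j) := h'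
  simpa using this

theorem il_tf (t : T) : il o t true ≠ il o t false := il_inj (by simp)
theorem il_ft (t : T) : il o t false ≠ il o t true := il_inj (by simp)

theorem Rs_ts (t : T) (i : Bool) : (mkB o).Rs true (ic o t (some i)) = {il o t i} :=
  Finset.ext fun x => Bip.mem_Rs.trans ((mkR_ts t i x).trans
    (Finset.mem_singleton (a := il o t i) (b := x)).symm)

theorem Rs_tn (t : T) : (mkB o).Rs true (ic o t none) = {il o t true, il o t false} :=
  Finset.ext fun x => Bip.mem_Rs.trans ((mkR_tn t x).trans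
    (Iff.symm (Finset.mem_insert.trans (or_congr Iff.rfl Finset.mem_singleton))))

theorem Rs_f (t : T) (j : Option Bool) : (mkB o).Rs false (ic o t j) = {ir o (o t j)} :=
  Finset.ext fun x => Bip.mem_Rs.trans ((mkR_f t j x).trans
    (Finset.mem_singleton (a := ir o (o t j)) (b := x)).symm)

variable (A : Rep (mkB o) k N)

theorem P_ts (t : T) (i : Bool) (x : N) : A.P true (ic o t (some i)) x = A.p (il o t i) x := by
  rw [A.P_apply]
  rw [Rs_ts, Finset.sum_singleton]

theorem P_tn (t : T) (x : N) : A.P true (ic o t none) x =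
    A.p (il o t true) x + A.p (il o t false) x := by
  rw [A.P_apply]
  rw [Rs_tn, Finset.sum_pair (il_tf t)]

theorem P_f (t : T) (j : Option Bool) (x : N) : A.P false (ic o t j) x =
    A.p (ir o (o t j)) x := by
  rw [A.P_apply]
  rw [Rs_f, Finset.sum_singleton]

theorem P_tn_fix (t : T) (i : Bool) (x : N) : A.P true (ic o t none) (A.p (il o t i) x) =
    A.p (il o t i) x := by
  rw [P_tn]
  cases i
  · rw [A.pq _ _ (il_tf t), A.pp, zero_add]
  · rw [A.pq _ _ (il_ft t), A.pp, add_zero]

/-- operators attached to a representation -/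
noncomputable def Up (t : T) (i : Bool) : Module.End k N :=
  A.t (ic o t none) ∘ₗ A.p (il o t i) ∘ₗ A.t (ic o t (some i)) ∘ₗ A.p (ir o (o t (some i)))

noncomputable def Dn (t : T) (i : Bool) : Module.End k N :=
  A.t (ic o t (some i)) ∘ₗ A.p (il o t i) ∘ₗ A.t (ic o t none) ∘ₗ A.p (ir o (o t none))

theorem Up_apply (t : T) (i : Bool) (x : N) : Up A t i x =
  A.t (ic o t none) (A.p (il o t i) (A.t (ic o t (some i)) (A.p (ir o (o t (some i))) x))) := rfl

theorem Dn_apply (t : T) (i : Bool) (x : N) : Dn A t i x =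
  A.t (ic o t (some i)) (A.p (il o t i) (A.t (ic o t none) (A.p (ir o (o t none)) x))) := rfl

theorem fxs (t : T) (i : Bool) (x : N) : A.P true (ic o t (some i)) (A.p (il o t i) x) =
    A.p (il o t i) x := by
  rw [P_ts, A.pp]

theorem fxf (t : T) (j : Option Bool) (x : N) :
    A.P false (ic o t j) (A.p (ir o (o t j)) x) = A.p (ir o (o t j)) x := by
  rw [P_f, A.pp]

theorem r_Up (t : T) (i : Bool) (x : N) : A.p (ir o (o t none)) (Up A t i x) = Up A t i x := by
  rw [Up_apply, ← P_f]
  exact A.P_t (s := true) (P_tn_fix A t i _)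

theorem Up_r (t : T) (i : Bool) (x : N) : Up A t i (A.p (ir o (o t (some i))) x) = Up A t i x := by
  rw [Up_apply, Up_apply, A.pp]

theorem r_Dn (t : T) (i : Bool) (x : N) :
    A.p (ir o (o t (some i))) (Dn A t i x) = Dn A t i x := by
  rw [Dn_apply, ← P_f]
  exact A.P_t (s := true) (fxs A t i _)

theorem Dn_r (t : T) (i : Bool) (x : N) : Dn A t i (A.p (ir o (o t none)) x) = Dn A t i x := by
  rw [Dn_apply, Dn_apply, A.pp]

theorem Dn_Up (t : T) (i : Bool) (x : N) :
    Dn A t i (Up A t i x) = A.p (ir o (o t (some i))) x := by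
  rw [Dn_apply, r_Up, Up_apply, A.tt_fix (P_tn_fix A t i _), A.pp]
  have h1 : A.p (il o t i) (A.t (ic o t (some i)) (A.p (ir o (o t (some i))) x)) =
      A.t (ic o t (some i)) (A.p (ir o (o t (some i))) x) := by
    rw [← P_ts]
    exact A.P_t (s := false) (fxf A t (some i) x)
  rw [h1, A.tt_fix (fxf A t (some i) x)]

theorem Dn_Up' (t : T) (i j : Bool) (hij : i ≠ j) (x : N) :
    Dn A t i (Up A t j x) = 0 := by
  rw [Dn_apply, r_Up, Up_apply, A.tt_fix (P_tn_fix A t j _), A.pq _ _ (il_inj hij), map_zero]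

theorem Up_Dn (t : T) (x : N) :
    Up A t true (Dn A t true x) + Up A t false (Dn A t false x) = A.p (ir o (o t none)) x := by
  have h : ∀ i, Up A t i (Dn A t i x) =
      A.t (ic o t none) (A.p (il o t i) (A.t (ic o t none) (A.p (ir o (o t none)) x))) := by
    intro i
    rw [Up_apply, r_Dn, Dn_apply, A.tt_fix (fxs A t i _), A.pp]
  rw [h, h, ← map_add, ← P_tn]
  have := A.P_t (s := false) (fxf A t none x)
  rw [Bool.not_false] at this
  rw [this, A.tt_fix (fxf A t none x)]

variable {A} in
theorem hom_Up {A' : Rep (mkB o) k N'} {h : N →ₗ[k] N'} (hh : IsHom A A' h) (t : T) (i : Bool)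
    (x : N) : h (Up A t i x) = Up A' t i (h x) := by
  rw [Up_apply, Up_apply, hh.t, hh.p, hh.t, hh.p]

variable {A} in
theorem hom_Dn {A' : Rep (mkB o) k N'} {h : N →ₗ[k] N'} (hh : IsHom A A' h) (t : T) (i : Bool)
    (x : N) : h (Dn A t i x) = Dn A' t i (h x) := by
  rw [Dn_apply, Dn_apply, hh.t, hh.p, hh.t, hh.p]

/-- a system of splittings inside a ring -/
structure Sys (o : T → Option Bool → O) (E : Type) [Ring E] where
  e : O → E
  u : T → Bool → E
  d : T → Bool → E
  ee : ∀ g, e g * e g = e g
  eu : ∀ t i, e (o t none) * u t i = u t i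
  ue : ∀ t i, u t i * e (o t (some i)) = u t i
  ed : ∀ t i, e (o t (some i)) * d t i = d t i
  de : ∀ t i, d t i * e (o t none) = d t i
  du : ∀ t i, d t i * u t i = e (o t (some i))
  du' : ∀ t i, d t i * u t (!i) = 0
  ud : ∀ t, u t true * d t true + u t false * d t false = e (o t none)

noncomputable def Sys.map {E E' : Type} [Ring E] [Ring E'] (S : Sys o E) (f : E →+* E') :
    Sys o E' where
  e := fun g => f (S.e g)
  u := fun t i => f (S.u t i)
  d := fun t i => f (S.d t i)
  ee := fun g => by rw [← map_mul, S.ee]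
  eu := fun t i => by rw [← map_mul, S.eu]
  ue := fun t i => by rw [← map_mul, S.ue]
  ed := fun t i => by rw [← map_mul, S.ed]
  de := fun t i => by rw [← map_mul, S.de]
  du := fun t i => by rw [← map_mul, S.du]
  du' := fun t i => by rw [← map_mul, S.du', map_zero]
  ud := fun t => by rw [← map_mul, ← map_mul, ← map_add, S.ud]

variable (S : Sys o (Module.End k N))

def Sys.eI {E : Type} [Ring E] (S : Sys o E) : (mkB o).I → E
  | Sum.inl (t, i) => S.e (o t (some i))
  | Sum.inr g => S.e g

theorem Sys.eI_idem {E : Type} [Ring E] (S : Sys o E) (i : (mkB o).I) :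
    S.eI i * S.eI i = S.eI i := by
  rcases i with ⟨t, i⟩ | g
  · exact S.ee _
  · exact S.ee _

/-- coordinate inclusion -/
noncomputable def sg (k : Type) [Field k] (o : T → Option Bool → O) (N : Type) [AddCommGroup N]
    [Module k N] (i : (mkB o).I) : N →ₗ[k] ((mkB o).I → N) :=
  LinearMap.single k (fun _ => N) i

theorem sg_same (i : (mkB o).I) (v : N) : sg k o N i v i = v := by
  simp [sg]

theorem sg_ne {i j : (mkB o).I} (h : j ≠ i) (v : N) : sg k o N i v j = 0 := by
  simp [sg, h]

noncomputable def spP (i : (mkB o).I) : ((mkB o).I → N) →ₗ[k] ((mkB o).I → N) :=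
  sg k o N i ∘ₗ (S.eI i) ∘ₗ LinearMap.proj i

theorem spP_apply (i : (mkB o).I) (x : (mkB o).I → N) : spP S i x = sg k o N i (S.eI i (x i)) :=
  rfl

noncomputable def spT : (mkB o).C → (((mkB o).I → N) →ₗ[k] ((mkB o).I → N))
  | (t, some i) => sg k o N (il o t i) ∘ₗ (S.e (o t (some i))) ∘ₗ
        LinearMap.proj (ir o (o t (some i))) +
      sg k o N (ir o (o t (some i))) ∘ₗ (S.e (o t (some i))) ∘ₗ LinearMap.proj (il o t i)
  | (t, none) => sg k o N (ir o (o t none)) ∘ₗ (S.u t true ∘ₗ LinearMap.proj (il o t true) +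
        S.u t false ∘ₗ LinearMap.proj (il o t false)) +
      (sg k o N (il o t true) ∘ₗ (S.d t true) ∘ₗ LinearMap.proj (ir o (o t none)) +
      sg k o N (il o t false) ∘ₗ (S.d t false) ∘ₗ LinearMap.proj (ir o (o t none)))

theorem spT_some (t : T) (i : Bool) (x : (mkB o).I → N) : spT S (ic o t (some i)) x =
    sg k o N (il o t i) (S.e (o t (some i)) (x (ir o (o t (some i))))) +
      sg k o N (ir o (o t (some i))) (S.e (o t (some i)) (x (il o t i))) := rfl

theorem spT_none (t : T) (x : (mkB o).I → N) : spT S (ic o t none) x =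
    sg k o N (ir o (o t none)) (S.u t true (x (il o t true)) + S.u t false (x (il o t false))) +
      (sg k o N (il o t true) (S.d t true (x (ir o (o t none)))) +
      sg k o N (il o t false) (S.d t false (x (ir o (o t none))))) := rfl

theorem Sys.mulv {a b c : Module.End k N} (h : a * b = c) (v : N) : a (b v) = c v := by
  rw [← h]; rfl

theorem sum_Rs_ts {M : Type} [AddCommMonoid M] (t : T) (i : Bool) (f : (mkB o).I → M) :
    ∑ j ∈ (mkB o).Rs true (ic o t (some i)), f j = f (il o t i) := by
  rw [Rs_ts, Finset.sum_singleton]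

theorem sum_Rs_tn {M : Type} [AddCommMonoid M] (t : T) (f : (mkB o).I → M) :
    ∑ j ∈ (mkB o).Rs true (ic o t none), f j = f (il o t true) + f (il o t false) := by
  rw [Rs_tn, Finset.sum_pair (il_tf t)]

theorem sum_Rs_f {M : Type} [AddCommMonoid M] (t : T) (j : Option Bool) (f : (mkB o).I → M) :
    ∑ j ∈ (mkB o).Rs false (ic o t j), f j = f (ir o (o t j)) := by
  rw [Rs_f, Finset.sum_singleton]

theorem eI_il {E : Type} [Ring E] (S : Sys o E) (t : T) (i : Bool) :
    S.eI (il o t i) = S.e (o t (some i)) := rfl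
theorem eI_ir {E : Type} [Ring E] (S : Sys o E) (g : O) : S.eI (ir o g) = S.e g := rfl

noncomputable def sysRep : Rep (mkB o) k ((mkB o).I → N) where
  p := spP S
  t := spT S
  pp := by
    intro i x
    rw [spP_apply, spP_apply, sg_same, Sys.mulv (S.eI_idem i)]
  pq := by
    intro i j hij x
    rw [spP_apply, spP_apply, sg_ne hij, map_zero, map_zero]
  tt := by
    rintro ⟨t, (_ | i)⟩ x
    · show spT S (ic o t none) (spT S (ic o t none) x) = ∑ i ∈ (mkB o).R (ic o t none), spP S i x
      rw [Bip.sum_R, sum_Rs_tn, sum_Rs_f, spP_apply, spP_apply, spP_apply, eI_il, eI_il, eI_ir]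
      have h1 : spT S (ic o t none) x (il o t true) = S.d t true (x (ir o (o t none))) := by
        rw [spT_none, Pi.add_apply, Pi.add_apply, sg_ne (il_ne_ir _ _ _), sg_same,
          sg_ne (il_tf t), zero_add, add_zero]
      have h2 : spT S (ic o t none) x (il o t false) = S.d t false (x (ir o (o t none))) := by
        rw [spT_none, Pi.add_apply, Pi.add_apply, sg_ne (il_ne_ir _ _ _), sg_same,
          sg_ne (il_ft t), zero_add, zero_add]
      have h3 : spT S (ic o t none) x (ir o (o t none)) =
          S.u t true (x (il o t true)) + S.u t false (x (il o t false)) := by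
        rw [spT_none, Pi.add_apply, Pi.add_apply, sg_same,
          sg_ne (il_ne_ir _ _ _).symm, sg_ne (il_ne_ir _ _ _).symm, add_zero, add_zero]
      rw [spT_none, h1, h2, h3, map_add (S.d t true), map_add (S.d t false),
        Sys.mulv (S.du t true), Sys.mulv (S.du t false)]
      have h4 := S.du' t true
      have h5 := S.du' t false
      rw [Bool.not_true] at h4
      rw [Bool.not_false] at h5
      rw [Sys.mulv h4, Sys.mulv h5, LinearMap.zero_apply, LinearMap.zero_apply, add_zero, zero_add]
      have h6 : S.u t true (S.d t true (x (ir o (o t none)))) +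
          S.u t false (S.d t false (x (ir o (o t none)))) = S.e (o t none) (x (ir o (o t none))) := by
        rw [← S.ud t]; rfl
      rw [h6]
      abel
    · show spT S (ic o t (some i)) (spT S (ic o t (some i)) x) =
        ∑ j ∈ (mkB o).R (ic o t (some i)), spP S j x
      rw [Bip.sum_R, sum_Rs_ts, sum_Rs_f, spP_apply, spP_apply, eI_il, eI_ir]
      have h1 : spT S (ic o t (some i)) x (il o t i) =
          S.e (o t (some i)) (x (ir o (o t (some i)))) := by
        rw [spT_some, Pi.add_apply, sg_ne (il_ne_ir _ _ _), sg_same, add_zero]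
      have h2 : spT S (ic o t (some i)) x (ir o (o t (some i))) =
          S.e (o t (some i)) (x (il o t i)) := by
        rw [spT_some, Pi.add_apply, sg_ne (il_ne_ir _ _ _).symm, sg_same, zero_add]
      rw [spT_some, h1, h2, Sys.mulv (S.ee _), Sys.mulv (S.ee _)]
  tp := by
    rintro ⟨t, (_ | i)⟩ x
    · show spT S (ic o t none) (∑ i ∈ (mkB o).R (ic o t none), spP S i x) = spT S (ic o t none) x
      rw [Bip.sum_R, sum_Rs_tn, sum_Rs_f, spP_apply, spP_apply, spP_apply, eI_il, eI_il, eI_ir,
        spT_none, spT_none]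
      simp only [Pi.add_apply]
      rw [sg_same, sg_ne (il_tf t), sg_ne (il_ne_ir _ _ _), sg_ne (il_ft t),
        sg_same, sg_ne (il_ne_ir _ _ _), sg_ne (il_ne_ir _ _ _).symm, sg_ne (il_ne_ir _ _ _).symm,
        sg_same]
      simp only [add_zero, zero_add]
      rw [Sys.mulv (S.ue t true), Sys.mulv (S.ue t false), Sys.mulv (S.de t true),
        Sys.mulv (S.de t false)]
    · show spT S (ic o t (some i)) (∑ j ∈ (mkB o).R (ic o t (some i)), spP S j x) =
        spT S (ic o t (some i)) x
      rw [Bip.sum_R, sum_Rs_ts, sum_Rs_f, spP_apply, spP_apply, eI_il, eI_ir, spT_some, spT_some]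
      simp only [Pi.add_apply]
      rw [sg_same, sg_ne (il_ne_ir _ _ _), sg_ne (il_ne_ir _ _ _).symm, sg_same]
      simp only [add_zero, zero_add]
      rw [Sys.mulv (S.ee _), Sys.mulv (S.ee _)]
  ts := by
    rintro ⟨t, (_ | i)⟩ (_ | _) x
    · show spT S (ic o t none) (∑ i ∈ (mkB o).Rs false (ic o t none), spP S i x) =
        ∑ i ∈ (mkB o).Rs true (ic o t none), spP S i (spT S (ic o t none) x)
      rw [sum_Rs_tn, sum_Rs_f, spP_apply, spP_apply, spP_apply, eI_il, eI_il, eI_ir,
        spT_none, spT_none]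
      simp only [Pi.add_apply]
      simp only [sg_same, sg_ne (il_ne_ir _ _ _), sg_ne (il_tf t), sg_ne (il_ft t)]
      simp only [add_zero, zero_add, map_zero]
      rw [Sys.mulv (S.ed t true), Sys.mulv (S.ed t false), Sys.mulv (S.de t true),
        Sys.mulv (S.de t false)]
    · show spT S (ic o t none) (∑ i ∈ (mkB o).Rs true (ic o t none), spP S i x) =
        ∑ i ∈ (mkB o).Rs false (ic o t none), spP S i (spT S (ic o t none) x)
      rw [sum_Rs_tn, sum_Rs_f, spP_apply, spP_apply, spP_apply, eI_il, eI_il, eI_ir,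
        spT_none, spT_none]
      simp only [Pi.add_apply]
      simp only [sg_same, sg_ne (il_ne_ir _ _ _).symm, sg_ne (il_tf t), sg_ne (il_ft t)]
      simp only [add_zero, zero_add, map_zero]
      rw [Sys.mulv (S.ue t true), Sys.mulv (S.ue t false), map_add (S.e (o t none)),
        Sys.mulv (S.eu t true), Sys.mulv (S.eu t false)]
    · show spT S (ic o t (some i)) (∑ j ∈ (mkB o).Rs false (ic o t (some i)), spP S j x) =
        ∑ j ∈ (mkB o).Rs true (ic o t (some i)), spP S j (spT S (ic o t (some i)) x)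
      rw [sum_Rs_ts, sum_Rs_f, spP_apply, spP_apply, eI_il, eI_ir, spT_some, spT_some]
      simp only [Pi.add_apply]
      rw [sg_same, sg_ne (il_ne_ir _ _ _), sg_same, sg_ne (il_ne_ir _ _ _)]
      simp only [add_zero, map_zero]
    · show spT S (ic o t (some i)) (∑ j ∈ (mkB o).Rs true (ic o t (some i)), spP S j x) =
        ∑ j ∈ (mkB o).Rs false (ic o t (some i)), spP S j (spT S (ic o t (some i)) x)
      rw [sum_Rs_ts, sum_Rs_f, spP_apply, spP_apply, eI_il, eI_ir, spT_some, spT_some]
      simp only [Pi.add_apply]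
      rw [sg_same, sg_ne (il_ne_ir _ _ _).symm, sg_same, sg_ne (il_ne_ir _ _ _).symm]
      simp only [zero_add, map_zero]

theorem sysRep_p (i : (mkB o).I) (x : (mkB o).I → N) :
    (sysRep S).p i x = sg k o N i (S.eI i (x i)) := rfl

theorem sysRep_p_sg (i : (mkB o).I) (v : N) :
    (sysRep S).p i (sg k o N i v) = sg k o N i (S.eI i v) := by
  rw [sysRep_p, sg_same]

theorem Up_sg (t : T) (i : Bool) (v : N) :
    Up (sysRep S) t i (sg k o N (ir o (o t (some i))) v) =
      sg k o N (ir o (o t none)) (S.u t i v) := by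
  rw [Up_apply, sysRep_p_sg]
  have h1 : (sysRep S).t (ic o t (some i)) (sg k o N (ir o (o t (some i)))
      (S.eI (ir o (o t (some i))) v)) = sg k o N (il o t i) (S.e (o t (some i)) v) := by
    show spT S (ic o t (some i)) _ = _
    rw [spT_some, sg_same, sg_ne (il_ne_ir _ _ _), map_zero, map_zero, add_zero, eI_ir,
      Sys.mulv (S.ee _)]
  rw [h1, sysRep_p_sg, eI_il, Sys.mulv (S.ee _)]
  show spT S (ic o t none) _ = _
  rw [spT_none, sg_ne (il_ne_ir _ _ _).symm, map_zero, map_zero, map_zero, map_zero, add_zero,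
    add_zero]
  congr 1
  cases i
  · rw [sg_same, sg_ne (il_tf t), map_zero, zero_add, Sys.mulv (S.ue t false)]
  · rw [sg_same, sg_ne (il_ft t), map_zero, add_zero, Sys.mulv (S.ue t true)]

theorem Dn_sg (t : T) (i : Bool) (v : N) :
    Dn (sysRep S) t i (sg k o N (ir o (o t none)) v) =
      sg k o N (ir o (o t (some i))) (S.d t i v) := by
  rw [Dn_apply, sysRep_p_sg, eI_ir]
  have h1 : (sysRep S).p (il o t i) ((sysRep S).t (ic o t none) (sg k o N (ir o (o t none))
      (S.e (o t none) v))) = sg k o N (il o t i) (S.d t i v) := by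
    rw [sysRep_p, eI_il]
    show sg k o N (il o t i) (S.e (o t (some i)) (spT S (ic o t none) _ (il o t i))) = _
    rw [spT_none]
    simp only [Pi.add_apply]
    rw [sg_ne (il_ne_ir _ _ _), zero_add]
    congr 1
    cases i
    · rw [sg_same, sg_same, sg_ne (il_ft t), zero_add, Sys.mulv (S.de t false),
        Sys.mulv (S.ed t false)]
    · rw [sg_same, sg_same, sg_ne (il_tf t), add_zero, Sys.mulv (S.de t true),
        Sys.mulv (S.ed t true)]
  rw [h1]
  show spT S (ic o t (some i)) _ = _
  rw [spT_some, sg_same, sg_ne (il_ne_ir _ _ _).symm, map_zero, map_zero, zero_add,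
    Sys.mulv (S.ed t i)]

end Pool.Agent.H494R3.VR
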