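import Mathlib
import Pool.Agent.H494R3.VR.B7

set_option autoImplicit false

/-!
The universal ring of a conical commutative monoid and its action on representations.
-/

namespace Pool.Agent.H494R3.VR

open scoped Classical
open Wd

inductive Gn (M : Type) : Type
  | e (m : M) : Gn M
  | x (i : Bool) (m n : M) : Gn M
  | y (i : Bool) (m n : M) : Gn M

def sel {M : Type} : Bool → M → M → M
  | true, m, _ => m
  | false, _, n => n

variable {k : Type} [Field k] {M : Type} [AddCommMonoid M]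

/-- the defining relations, for a family of elements in a ring -/
structure RelOK {E : Type} [Ring E] (f : Gn M → E) : Prop where
  e0 : f (Gn.e 0) = 0
  ee : ∀ m, f (Gn.e m) * f (Gn.e m) = f (Gn.e m)
  ex : ∀ i m n, f (Gn.e (m + n)) * f (Gn.x i m n) = f (Gn.x i m n)
  xe : ∀ i m n, f (Gn.x i m n) * f (Gn.e (sel i m n)) = f (Gn.x i m n)
  ey : ∀ i m n, f (Gn.e (sel i m n)) * f (Gn.y i m n) = f (Gn.y i m n)
  ye : ∀ i m n, f (Gn.y i m n) * f (Gn.e (m + n)) = f (Gn.y i m n)
  yx : ∀ i m n, f (Gn.y i m n) * f (Gn.x i m n) = f (Gn.e (sel i m n))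
  yx' : ∀ i m n, f (Gn.y i m n) * f (Gn.x (!i) m n) = 0
  xy : ∀ m n, f (Gn.x true m n) * f (Gn.y true m n) + f (Gn.x false m n) * f (Gn.y false m n) =
    f (Gn.e (m + n))
  x0 : ∀ m, f (Gn.x true m 0) = f (Gn.e m)
  y0 : ∀ m, f (Gn.y true m 0) = f (Gn.e m)
  x0' : ∀ n, f (Gn.x false 0 n) = f (Gn.e n)
  y0' : ∀ n, f (Gn.y false 0 n) = f (Gn.e n)

inductive Rl (k : Type) [Field k] (M : Type) [AddCommMonoid M] :
    FreeAlgebra k (Gn M) → FreeAlgebra k (Gn M) → Prop
  | e0 : Rl k M (FreeAlgebra.ι k (Gn.e 0)) 0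
  | ee (m : M) : Rl k M (FreeAlgebra.ι k (Gn.e m) * FreeAlgebra.ι k (Gn.e m))
      (FreeAlgebra.ι k (Gn.e m))
  | ex (i : Bool) (m n : M) : Rl k M (FreeAlgebra.ι k (Gn.e (m + n)) *
      FreeAlgebra.ι k (Gn.x i m n)) (FreeAlgebra.ι k (Gn.x i m n))
  | xe (i : Bool) (m n : M) : Rl k M (FreeAlgebra.ι k (Gn.x i m n) *
      FreeAlgebra.ι k (Gn.e (sel i m n))) (FreeAlgebra.ι k (Gn.x i m n))
  | ey (i : Bool) (m n : M) : Rl k M (FreeAlgebra.ι k (Gn.e (sel i m n)) *
      FreeAlgebra.ι k (Gn.y i m n)) (FreeAlgebra.ι k (Gn.y i m n))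
  | ye (i : Bool) (m n : M) : Rl k M (FreeAlgebra.ι k (Gn.y i m n) *
      FreeAlgebra.ι k (Gn.e (m + n))) (FreeAlgebra.ι k (Gn.y i m n))
  | yx (i : Bool) (m n : M) : Rl k M (FreeAlgebra.ι k (Gn.y i m n) *
      FreeAlgebra.ι k (Gn.x i m n)) (FreeAlgebra.ι k (Gn.e (sel i m n)))
  | yx' (i : Bool) (m n : M) : Rl k M (FreeAlgebra.ι k (Gn.y i m n) *
      FreeAlgebra.ι k (Gn.x (!i) m n)) 0
  | xy (m n : M) : Rl k M (FreeAlgebra.ι k (Gn.x true m n) * FreeAlgebra.ι k (Gn.y true m n) +
      FreeAlgebra.ι k (Gn.x false m n) * FreeAlgebra.ι k (Gn.y false m n))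
      (FreeAlgebra.ι k (Gn.e (m + n)))
  | x0 (m : M) : Rl k M (FreeAlgebra.ι k (Gn.x true m 0)) (FreeAlgebra.ι k (Gn.e m))
  | y0 (m : M) : Rl k M (FreeAlgebra.ι k (Gn.y true m 0)) (FreeAlgebra.ι k (Gn.e m))
  | x0' (n : M) : Rl k M (FreeAlgebra.ι k (Gn.x false 0 n)) (FreeAlgebra.ι k (Gn.e n))
  | y0' (n : M) : Rl k M (FreeAlgebra.ι k (Gn.y false 0 n)) (FreeAlgebra.ι k (Gn.e n))

/-- the universal algebra -/
abbrev UU (k : Type) [Field k] (M : Type) [AddCommMonoid M] : Type := RingQuot (Rl k M)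

noncomputable def ug (k : Type) [Field k] {M : Type} [AddCommMonoid M] (g : Gn M) : UU k M :=
  RingQuot.mkAlgHom k (Rl k M) (FreeAlgebra.ι k g)

theorem ug_rel (k : Type) [Field k] (M : Type) [AddCommMonoid M] : RelOK (ug k (M := M)) := by
  have h : ∀ {a b}, Rl k M a b → RingQuot.mkAlgHom k (Rl k M) a = RingQuot.mkAlgHom k (Rl k M) b :=
    fun h => RingQuot.mkAlgHom_rel k h
  constructor
  · simpa [ug] using h Rl.e0
  · intro m; simpa [ug] using h (Rl.ee m)
  · intro i m n; simpa [ug] using h (Rl.ex i m n)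
  · intro i m n; simpa [ug] using h (Rl.xe i m n)
  · intro i m n; simpa [ug] using h (Rl.ey i m n)
  · intro i m n; simpa [ug] using h (Rl.ye i m n)
  · intro i m n; simpa [ug] using h (Rl.yx i m n)
  · intro i m n; simpa [ug] using h (Rl.yx' i m n)
  · intro m n; simpa [ug] using h (Rl.xy m n)
  · intro m; simpa [ug] using h (Rl.x0 m)
  · intro m; simpa [ug] using h (Rl.y0 m)
  · intro m; simpa [ug] using h (Rl.x0' m)
  · intro m; simpa [ug] using h (Rl.y0' m)

noncomputable def ulift {E : Type} [Ring E] [Algebra k E] (f : Gn M → E) (hf : RelOK f) :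
    UU k M →ₐ[k] E :=
  RingQuot.liftAlgHom k ⟨FreeAlgebra.lift k f, by
    intro a b h
    cases h
    · simpa using hf.e0
    · simpa using hf.ee _
    · simpa using hf.ex _ _ _
    · simpa using hf.xe _ _ _
    · simpa using hf.ey _ _ _
    · simpa using hf.ye _ _ _
    · simpa using hf.yx _ _ _
    · simpa using hf.yx' _ _ _
    · simpa using hf.xy _ _
    · simpa using hf.x0 _
    · simpa using hf.y0 _
    · simpa using hf.x0' _
    · simpa using hf.y0' _⟩

theorem ulift_ug {E : Type} [Ring E] [Algebra k E] (f : Gn M → E) (hf : RelOK f) (g : Gn M) :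
    ulift (k := k) f hf (ug k g) = f g := by
  unfold ulift ug
  rw [RingQuot.liftAlgHom_mkAlgHom_apply, FreeAlgebra.lift_ι_apply]

theorem U_induct {Q : UU k M → Prop} (hc : ∀ a : k, Q (algebraMap k _ a))
    (hg : ∀ g, Q (ug k g)) (ha : ∀ x y, Q x → Q y → Q (x + y))
    (hm : ∀ x y, Q x → Q y → Q (x * y)) (u : UU k M) : Q u := by
  obtain ⟨a, rfl⟩ := RingQuot.mkAlgHom_surjective k (Rl k M) u
  induction a using FreeAlgebra.induction with
  | grade0 r => rw [AlgHom.commutes]; exact hc r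
  | grade1 x => exact hg x
  | mul a b h1 h2 => rw [map_mul]; exact hm _ _ h1 h2
  | add a b h1 h2 => rw [map_add]; exact ha _ _ h1 h2

theorem U_ext {E : Type} [Ring E] [Algebra k E] {f g : UU k M →ₐ[k] E}
    (h : ∀ x, f (ug k x) = g (ug k x)) (u : UU k M) : f u = g u := by
  apply U_induct (Q := fun u => f u = g u)
  · intro a; rw [AlgHom.commutes, AlgHom.commutes]
  · exact h
  · intro x y hx hy; rw [map_add, map_add, hx, hy]
  · intro x y hx hy; rw [map_mul, map_mul, hx, hy]

/-! ### objects and splittings -/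

abbrev NZ (M : Type) [AddCommMonoid M] : Type := {m : M // m ≠ 0}

inductive Ob (M : Type) [AddCommMonoid M] : Type
  | one : Ob M
  | ob (m : NZ M) : Ob M
  | co (m : NZ M) : Ob M

inductive Tt (M : Type) [AddCommMonoid M] : Type
  | spl (m : NZ M) : Tt M
  | add (m n : NZ M) : Tt M

class Conical (M : Type) [AddCommMonoid M] : Prop where
  con : ∀ x y : M, x + y = 0 → x = 0 ∧ y = 0

def nzadd [Conical M] (m n : NZ M) : NZ M :=
  ⟨m.1 + n.1, fun h => m.2 (Conical.con _ _ h).1⟩

def oo (M : Type) [AddCommMonoid M] [Conical M] : Tt M → Option Bool → Ob M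
  | Tt.spl _, none => Ob.one
  | Tt.spl m, some true => Ob.ob m
  | Tt.spl m, some false => Ob.co m
  | Tt.add m n, none => Ob.ob (nzadd m n)
  | Tt.add m n, some i => Ob.ob (sel i m n)

section
variable [Conical M] {Rg : Type} [Ring Rg] (S : Sys (oo M) Rg)

def Sys.I (m : NZ M) : Rg := S.u (Tt.spl m) true
def Sys.J (m : NZ M) : Rg := S.d (Tt.spl m) true

theorem Sys.JI (m : NZ M) : S.J m * S.I m = S.e (Ob.ob m) := S.du (Tt.spl m) true
theorem Sys.eJ (m : NZ M) : S.e (Ob.ob m) * S.J m = S.J m := S.ed (Tt.spl m) true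
theorem Sys.Ie (m : NZ M) : S.I m * S.e (Ob.ob m) = S.I m := S.ue (Tt.spl m) true
theorem Sys.oI (m : NZ M) : S.e Ob.one * S.I m = S.I m := S.eu (Tt.spl m) true
theorem Sys.Jo (m : NZ M) : S.J m * S.e Ob.one = S.J m := S.de (Tt.spl m) true

theorem Sys.JI' (m : NZ M) (a : Rg) : S.J m * (S.I m * a) = S.e (Ob.ob m) * a := by
  rw [← mul_assoc, S.JI]
theorem Sys.eJ' (m : NZ M) (a : Rg) : S.e (Ob.ob m) * (S.J m * a) = S.J m * a := by
  rw [← mul_assoc, S.eJ]
theorem Sys.Ie' (m : NZ M) (a : Rg) : S.I m * (S.e (Ob.ob m) * a) = S.I m * a := by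
  rw [← mul_assoc, S.Ie]

noncomputable def Sys.E (m : M) : Rg := if h : m ≠ 0 then S.I ⟨m, h⟩ * S.J ⟨m, h⟩ else 0

noncomputable def Sys.X (i : Bool) (m n : M) : Rg :=
  if hm : m ≠ 0 then
    if hn : n ≠ 0 then
      S.I (nzadd ⟨m, hm⟩ ⟨n, hn⟩) * (S.u (Tt.add ⟨m, hm⟩ ⟨n, hn⟩) i * S.J (sel i ⟨m, hm⟩ ⟨n, hn⟩))
    else if i = true then S.E m else 0
  else if i = true then 0 else S.E n

noncomputable def Sys.Y (i : Bool) (m n : M) : Rg :=
  if hm : m ≠ 0 then
    if hn : n ≠ 0 then
      S.I (sel i ⟨m, hm⟩ ⟨n, hn⟩) * (S.d (Tt.add ⟨m, hm⟩ ⟨n, hn⟩) i * S.J (nzadd ⟨m, hm⟩ ⟨n, hn⟩))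
    else if i = true then S.E m else 0
  else if i = true then 0 else S.E n

noncomputable def Sys.f : Gn M → Rg
  | Gn.e m => S.E m
  | Gn.x i m n => S.X i m n
  | Gn.y i m n => S.Y i m n

theorem Sys.E_nz (m : NZ M) : S.E m.1 = S.I m * S.J m := by
  unfold Sys.E
  rw [dif_pos m.2]

theorem Sys.E_zero : S.E 0 = 0 := by
  unfold Sys.E
  rw [dif_neg (by simp)]

theorem Sys.E_idem (m : M) : S.E m * S.E m = S.E m := by
  by_cases h : m = 0
  · subst h; rw [S.E_zero, mul_zero]
  · have := S.E_nz ⟨m, h⟩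
    simp only at this
    rw [this, mul_assoc, S.JI', S.eJ]

theorem Sys.X_nz (i : Bool) (m n : NZ M) : S.X i m.1 n.1 =
    S.I (nzadd m n) * (S.u (Tt.add m n) i * S.J (sel i m n)) := by
  unfold Sys.X
  rw [dif_pos m.2, dif_pos n.2]

theorem Sys.Y_nz (i : Bool) (m n : NZ M) : S.Y i m.1 n.1 =
    S.I (sel i m n) * (S.d (Tt.add m n) i * S.J (nzadd m n)) := by
  unfold Sys.Y
  rw [dif_pos m.2, dif_pos n.2]

theorem Sys.X_t0 (m : M) : S.X true m 0 = S.E m := by
  unfold Sys.X
  by_cases h : m ≠ 0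
  · rw [dif_pos h, dif_neg (by simp), if_pos rfl]
  · rw [dif_neg h, if_pos rfl]
    push Not at h
    rw [h, S.E_zero]

theorem Sys.X_f0 (m : M) : S.X false m 0 = 0 := by
  unfold Sys.X
  by_cases h : m ≠ 0
  · rw [dif_pos h, dif_neg (by simp), if_neg (by simp)]
  · rw [dif_neg h, if_neg (by simp), S.E_zero]

theorem Sys.X_0t (n : M) : S.X true 0 n = 0 := by
  unfold Sys.X
  rw [dif_neg (by simp), if_pos rfl]

theorem Sys.X_0f (n : M) : S.X false 0 n = S.E n := by
  unfold Sys.X
  rw [dif_neg (by simp), if_neg (by simp)]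

theorem Sys.Y_t0 (m : M) : S.Y true m 0 = S.E m := by
  unfold Sys.Y
  by_cases h : m ≠ 0
  · rw [dif_pos h, dif_neg (by simp), if_pos rfl]
  · rw [dif_neg h, if_pos rfl]
    push Not at h
    rw [h, S.E_zero]

theorem Sys.Y_f0 (m : M) : S.Y false m 0 = 0 := by
  unfold Sys.Y
  by_cases h : m ≠ 0
  · rw [dif_pos h, dif_neg (by simp), if_neg (by simp)]
  · rw [dif_neg h, if_neg (by simp), S.E_zero]

theorem Sys.Y_0t (n : M) : S.Y true 0 n = 0 := by
  unfold Sys.Y
  rw [dif_neg (by simp), if_pos rfl]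

theorem Sys.Y_0f (n : M) : S.Y false 0 n = S.E n := by
  unfold Sys.Y
  rw [dif_neg (by simp), if_neg (by simp)]

omit [Conical M] in
theorem sel_val (i : Bool) (m n : NZ M) : (sel i m n).1 = sel i m.1 n.1 := by
  cases i <;> rfl

theorem Sys.addu (i : Bool) (m n : NZ M) : S.e (Ob.ob (nzadd m n)) * S.u (Tt.add m n) i =
    S.u (Tt.add m n) i := S.eu (Tt.add m n) i
theorem Sys.uadd (i : Bool) (m n : NZ M) : S.u (Tt.add m n) i * S.e (Ob.ob (sel i m n)) =
    S.u (Tt.add m n) i := S.ue (Tt.add m n) i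
theorem Sys.addd (i : Bool) (m n : NZ M) : S.e (Ob.ob (sel i m n)) * S.d (Tt.add m n) i =
    S.d (Tt.add m n) i := S.ed (Tt.add m n) i
theorem Sys.dadd (i : Bool) (m n : NZ M) : S.d (Tt.add m n) i * S.e (Ob.ob (nzadd m n)) =
    S.d (Tt.add m n) i := S.de (Tt.add m n) i
theorem Sys.duadd (i : Bool) (m n : NZ M) : S.d (Tt.add m n) i * S.u (Tt.add m n) i =
    S.e (Ob.ob (sel i m n)) := S.du (Tt.add m n) i
theorem Sys.duadd' (i : Bool) (m n : NZ M) : S.d (Tt.add m n) i * S.u (Tt.add m n) (!i) =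
    0 := S.du' (Tt.add m n) i
theorem Sys.udadd (m n : NZ M) : S.u (Tt.add m n) true * S.d (Tt.add m n) true +
    S.u (Tt.add m n) false * S.d (Tt.add m n) false =
    S.e (Ob.ob (nzadd m n)) := S.ud (Tt.add m n)

omit [Conical M] in
/-- case analysis on pairs -/
theorem pairCases {Q : M → M → Prop} (h0 : ∀ n, Q 0 n) (h1 : ∀ m, Q m 0)
    (h2 : ∀ m n : NZ M, Q m.1 n.1) (m n : M) : Q m n := by
  by_cases hm : m = 0
  · subst hm; exact h0 n
  · by_cases hn : n = 0
    · subst hn; exact h1 m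
    · exact h2 ⟨m, hm⟩ ⟨n, hn⟩

theorem Sys.rel : RelOK S.f := by
  constructor
  · exact S.E_zero
  · exact S.E_idem
  · intro i m n
    show S.E (m + n) * S.X i m n = S.X i m n
    refine pairCases (Q := fun m n => S.E (m + n) * S.X i m n = S.X i m n) ?_ ?_ ?_ m n
    · intro n
      cases i
      · rw [S.X_0f, zero_add, S.E_idem]
      · rw [S.X_0t, mul_zero]
    · intro m
      cases i
      · rw [S.X_f0, mul_zero]
      · rw [S.X_t0, add_zero, S.E_idem]
    · intro m n
      have := S.E_nz (nzadd m n)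
      have h : (nzadd m n).1 = m.1 + n.1 := rfl
      rw [h] at this
      rw [this, S.X_nz, mul_assoc, S.JI', ← mul_assoc (S.e _), S.addu]
  · intro i m n
    show S.X i m n * S.E (sel i m n) = S.X i m n
    refine pairCases (Q := fun m n => S.X i m n * S.E (sel i m n) = S.X i m n) ?_ ?_ ?_ m n
    · intro n
      cases i
      · rw [S.X_0f]; exact S.E_idem n
      · rw [S.X_0t, zero_mul]
    · intro m
      cases i
      · rw [S.X_f0, zero_mul]
      · rw [S.X_t0]; exact S.E_idem m
    · intro m n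
      rw [← sel_val, S.E_nz, S.X_nz, mul_assoc, mul_assoc, S.JI', S.eJ]
  · intro i m n
    show S.E (sel i m n) * S.Y i m n = S.Y i m n
    refine pairCases (Q := fun m n => S.E (sel i m n) * S.Y i m n = S.Y i m n) ?_ ?_ ?_ m n
    · intro n
      cases i
      · rw [S.Y_0f]; exact S.E_idem n
      · rw [S.Y_0t, mul_zero]
    · intro m
      cases i
      · rw [S.Y_f0, mul_zero]
      · rw [S.Y_t0]; exact S.E_idem m
    · intro m n
      rw [← sel_val, S.E_nz, S.Y_nz, mul_assoc, S.JI', ← mul_assoc (S.e _), S.addd]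
  · intro i m n
    show S.Y i m n * S.E (m + n) = S.Y i m n
    refine pairCases (Q := fun m n => S.Y i m n * S.E (m + n) = S.Y i m n) ?_ ?_ ?_ m n
    · intro n
      cases i
      · rw [S.Y_0f, zero_add, S.E_idem]
      · rw [S.Y_0t, zero_mul]
    · intro m
      cases i
      · rw [S.Y_f0, zero_mul]
      · rw [S.Y_t0, add_zero, S.E_idem]
    · intro m n
      have := S.E_nz (nzadd m n)
      have h : (nzadd m n).1 = m.1 + n.1 := rfl
      rw [h] at this
      rw [this, S.Y_nz, mul_assoc, mul_assoc, S.JI', S.eJ]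
  · intro i m n
    show S.Y i m n * S.X i m n = S.E (sel i m n)
    refine pairCases (Q := fun m n => S.Y i m n * S.X i m n = S.E (sel i m n)) ?_ ?_ ?_ m n
    · intro n
      cases i
      · rw [S.X_0f, S.Y_0f]; exact S.E_idem n
      · rw [S.X_0t, mul_zero]; exact S.E_zero.symm
    · intro m
      cases i
      · rw [S.X_f0, mul_zero]; exact S.E_zero.symm
      · rw [S.X_t0, S.Y_t0]; exact S.E_idem m
    · intro m n
      rw [← sel_val, S.E_nz, S.Y_nz, S.X_nz, mul_assoc, mul_assoc, S.JI',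
        ← mul_assoc (S.e _), S.addu, ← mul_assoc (S.d _ _), S.duadd, S.eJ]
  · intro i m n
    show S.Y i m n * S.X (!i) m n = 0
    refine pairCases (Q := fun m n => S.Y i m n * S.X (!i) m n = 0) ?_ ?_ ?_ m n
    · intro n
      cases i
      · rw [Bool.not_false, S.X_0t, mul_zero]
      · rw [S.Y_0t, zero_mul]
    · intro m
      cases i
      · rw [S.Y_f0, zero_mul]
      · rw [Bool.not_true, S.X_f0, mul_zero]
    · intro m n
      rw [S.Y_nz, S.X_nz, mul_assoc, mul_assoc, S.JI',
        ← mul_assoc (S.e _), S.addu, ← mul_assoc (S.d _ _), S.duadd', zero_mul, mul_zero]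
  · intro m n
    show S.X true m n * S.Y true m n + S.X false m n * S.Y false m n = S.E (m + n)
    refine pairCases (Q := fun m n => S.X true m n * S.Y true m n + S.X false m n * S.Y false m n =
      S.E (m + n)) ?_ ?_ ?_ m n
    · intro n
      rw [S.X_0t, S.X_0f, S.Y_0f, zero_mul, zero_add, zero_add, S.E_idem]
    · intro m
      rw [S.X_f0, S.X_t0, S.Y_t0, zero_mul, add_zero, add_zero, S.E_idem]
    · intro m n
      have := S.E_nz (nzadd m n)
      have h : (nzadd m n).1 = m.1 + n.1 := rfl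
      rw [h] at this
      have key : ∀ i, S.X i m.1 n.1 * S.Y i m.1 n.1 =
          S.I (nzadd m n) * ((S.u (Tt.add m n) i * S.d (Tt.add m n) i) * S.J (nzadd m n)) := by
        intro i
        rw [S.X_nz, S.Y_nz, mul_assoc, mul_assoc, S.JI', ← mul_assoc (S.e _), S.addd,
          ← mul_assoc (S.u _ _)]
      rw [key, key, this, ← mul_add, ← add_mul, S.udadd, S.eJ]
  · exact S.X_t0
  · exact S.Y_t0
  · exact S.X_0f
  · exact S.Y_0f

theorem Sys.o_f (g : Gn M) : S.e Ob.one * S.f g = S.f g := by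
  have hE : ∀ m, S.e Ob.one * S.E m = S.E m := by
    intro m
    by_cases h : m = 0
    · subst h; rw [S.E_zero, mul_zero]
    · have := S.E_nz ⟨m, h⟩
      simp only at this
      rw [this, ← mul_assoc, S.oI]
  cases g with
  | e m => exact hE m
  | x i m n =>
    show S.e Ob.one * S.X i m n = S.X i m n
    refine pairCases (Q := fun m n => S.e Ob.one * S.X i m n = S.X i m n) ?_ ?_ ?_ m n
    · intro n
      cases i
      · rw [S.X_0f, hE]
      · rw [S.X_0t, mul_zero]
    · intro m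
      cases i
      · rw [S.X_f0, mul_zero]
      · rw [S.X_t0, hE]
    · intro m n
      rw [S.X_nz, ← mul_assoc, S.oI]
  | y i m n =>
    show S.e Ob.one * S.Y i m n = S.Y i m n
    refine pairCases (Q := fun m n => S.e Ob.one * S.Y i m n = S.Y i m n) ?_ ?_ ?_ m n
    · intro n
      cases i
      · rw [S.Y_0f, hE]
      · rw [S.Y_0t, mul_zero]
    · intro m
      cases i
      · rw [S.Y_f0, mul_zero]
      · rw [S.Y_t0, hE]
    · intro m n
      rw [S.Y_nz, ← mul_assoc, S.oI]

theorem Sys.f_o (g : Gn M) : S.f g * S.e Ob.one = S.f g := by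
  have hE : ∀ m, S.E m * S.e Ob.one = S.E m := by
    intro m
    by_cases h : m = 0
    · subst h; rw [S.E_zero, zero_mul]
    · have := S.E_nz ⟨m, h⟩
      simp only at this
      rw [this, mul_assoc, S.Jo]
  cases g with
  | e m => exact hE m
  | x i m n =>
    show S.X i m n * S.e Ob.one = S.X i m n
    refine pairCases (Q := fun m n => S.X i m n * S.e Ob.one = S.X i m n) ?_ ?_ ?_ m n
    · intro n
      cases i
      · rw [S.X_0f, hE]
      · rw [S.X_0t, zero_mul]
    · intro m
      cases i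
      · rw [S.X_f0, zero_mul]
      · rw [S.X_t0, hE]
    · intro m n
      rw [S.X_nz, mul_assoc, mul_assoc, S.Jo]
  | y i m n =>
    show S.Y i m n * S.e Ob.one = S.Y i m n
    refine pairCases (Q := fun m n => S.Y i m n * S.e Ob.one = S.Y i m n) ?_ ?_ ?_ m n
    · intro n
      cases i
      · rw [S.Y_0f, hE]
      · rw [S.Y_0t, zero_mul]
    · intro m
      cases i
      · rw [S.Y_f0, zero_mul]
      · rw [S.Y_t0, hE]
    · intro m n
      rw [S.Y_nz, mul_assoc, mul_assoc, S.Jo]

end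

section
variable [Conical M] {N : Type} [AddCommGroup N] [Module k N] {N' : Type} [AddCommGroup N']
  [Module k N']

/-- the system of a representation -/
noncomputable def repSys (A : Rep (mkB (oo M)) k N) : Sys (oo M) (Module.End k N) where
  e := fun g => A.p (ir (oo M) g)
  u := Up A
  d := Dn A
  ee := fun g => LinearMap.ext fun x => A.pp _ x
  eu := fun t i => LinearMap.ext fun x => r_Up A t i x
  ue := fun t i => LinearMap.ext fun x => Up_r A t i x
  ed := fun t i => LinearMap.ext fun x => r_Dn A t i x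
  de := fun t i => LinearMap.ext fun x => Dn_r A t i x
  du := fun t i => LinearMap.ext fun x => Dn_Up A t i x
  du' := fun t i => LinearMap.ext fun x => Dn_Up' A t i (!i) (by cases i <;> simp) x
  ud := fun t => LinearMap.ext fun x => Up_Dn A t x

/-- the action of the universal ring -/
noncomputable def act (A : Rep (mkB (oo M)) k N) : UU k M →ₐ[k] Module.End k N :=
  ulift (repSys A).f (repSys A).rel

theorem act_ug (A : Rep (mkB (oo M)) k N) (g : Gn M) : act A (ug k g) = (repSys A).f g :=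
  ulift_ug _ _ g

theorem act_E (A : Rep (mkB (oo M)) k N) (m : NZ M) (x : N) :
    act A (ug k (Gn.e m.1)) x = Up A (Tt.spl m) true (Dn A (Tt.spl m) true x) := by
  rw [act_ug]
  show (repSys A).E m.1 x = _
  rw [(repSys A).E_nz]
  rfl

theorem act_nat {A : Rep (mkB (oo M)) k N} {A' : Rep (mkB (oo M)) k N'} {h : N →ₗ[k] N'}
    (hh : IsHom A A' h) (u : UU k M) (x : N) : h (act A u x) = act A' u (h x) := by
  have key : ∀ g x, h ((repSys A).f g x) = (repSys A').f g (h x) := by
    have hE : ∀ m x, h ((repSys A).E m x) = (repSys A').E m (h x) := by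
      intro m x
      by_cases hm : m = 0
      · subst hm
        rw [(repSys A).E_zero, (repSys A').E_zero]
        simp
      · have h1 := (repSys A).E_nz ⟨m, hm⟩
        have h2 := (repSys A').E_nz ⟨m, hm⟩
        simp only at h1 h2
        rw [h1, h2]
        show h (Up A _ _ (Dn A _ _ x)) = Up A' _ _ (Dn A' _ _ (h x))
        rw [hom_Up hh, hom_Dn hh]
    intro g x
    cases g with
    | e m => exact hE m x
    | x i m n =>
      show h ((repSys A).X i m n x) = (repSys A').X i m n (h x)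
      refine pairCases (Q := fun m n => h ((repSys A).X i m n x) = (repSys A').X i m n (h x))
        ?_ ?_ ?_ m n
      · intro n
        cases i
        · rw [Sys.X_0f, Sys.X_0f, hE]
        · rw [Sys.X_0t, Sys.X_0t]; simp
      · intro m
        cases i
        · rw [Sys.X_f0, Sys.X_f0]; simp
        · rw [Sys.X_t0, Sys.X_t0, hE]
      · intro m n
        rw [Sys.X_nz, Sys.X_nz]
        show h (Up A _ _ (Up A _ _ (Dn A _ _ x))) = Up A' _ _ (Up A' _ _ (Dn A' _ _ (h x)))
        rw [hom_Up hh, hom_Up hh, hom_Dn hh]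
    | y i m n =>
      show h ((repSys A).Y i m n x) = (repSys A').Y i m n (h x)
      refine pairCases (Q := fun m n => h ((repSys A).Y i m n x) = (repSys A').Y i m n (h x))
        ?_ ?_ ?_ m n
      · intro n
        cases i
        · rw [Sys.Y_0f, Sys.Y_0f, hE]
        · rw [Sys.Y_0t, Sys.Y_0t]; simp
      · intro m
        cases i
        · rw [Sys.Y_f0, Sys.Y_f0]; simp
        · rw [Sys.Y_t0, Sys.Y_t0, hE]
      · intro m n
        rw [Sys.Y_nz, Sys.Y_nz]
        show h (Up A _ _ (Dn A _ _ (Dn A _ _ x))) = Up A' _ _ (Dn A' _ _ (Dn A' _ _ (h x)))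
        rw [hom_Up hh, hom_Dn hh, hom_Dn hh]
  have : ∀ u : UU k M, ∀ x, h (act A u x) = act A' u (h x) := by
    apply U_induct
    · intro a x
      rw [AlgHom.commutes, AlgHom.commutes, Module.algebraMap_end_apply,
        Module.algebraMap_end_apply, map_smul]
    · intro g x
      rw [act_ug, act_ug, key]
    · intro u v hu hv x
      rw [map_add, map_add, LinearMap.add_apply, LinearMap.add_apply, map_add, hu, hv]
    · intro u v hu hv x
      rw [map_mul, map_mul, Module.End.mul_apply, Module.End.mul_apply, hu, hv]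
  exact this u x

theorem act_one (A : Rep (mkB (oo M)) k N) (u : UU k M) (x : N) :
    act A u (A.p (ir (oo M) Ob.one) x) = A.p (ir (oo M) Ob.one) (act A u x) := by
  have : ∀ u : UU k M, ∀ x, act A u (A.p (ir (oo M) Ob.one) x) =
      A.p (ir (oo M) Ob.one) (act A u x) := by
    apply U_induct
    · intro a x
      rw [AlgHom.commutes, Module.algebraMap_end_apply, Module.algebraMap_end_apply, map_smul]
    · intro g x
      rw [act_ug]
      have h1 := congrFun (congrArg DFunLike.coe ((repSys A).f_o g)) x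
      have h2 := congrFun (congrArg DFunLike.coe ((repSys A).o_f g)) x
      exact h1.trans h2.symm
    · intro u v hu hv x
      rw [map_add, LinearMap.add_apply, LinearMap.add_apply, map_add, hu, hv]
    · intro u v hu hv x
      rw [map_mul, Module.End.mul_apply, Module.End.mul_apply, hv, hu]
  exact this u x

end

end Pool.Agent.H494R3.VR
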