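import Mathlib
import Pool.Agent.H494R3.VR.B8

set_option autoImplicit false

/-!
Idempotent matrices over the universal ring.
-/

namespace Pool.Agent.H494R3.VR

open scoped Classical
open Wd

variable {k : Type} [Field k] {M : Type} [AddCommMonoid M] [Conical M]

noncomputable def uSe (k : Type) [Field k] (M : Type) [AddCommMonoid M] : Ob M → UU k M
  | Ob.one => 1
  | Ob.ob m => ug k (Gn.e m.1)
  | Ob.co m => 1 - ug k (Gn.e m.1)

noncomputable def uSu (k : Type) [Field k] (M : Type) [AddCommMonoid M] : Tt M → Bool → UU k M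
  | Tt.spl m, true => ug k (Gn.e m.1)
  | Tt.spl m, false => 1 - ug k (Gn.e m.1)
  | Tt.add m n, i => ug k (Gn.x i m.1 n.1)

noncomputable def uSd (k : Type) [Field k] (M : Type) [AddCommMonoid M] : Tt M → Bool → UU k M
  | Tt.spl m, true => ug k (Gn.e m.1)
  | Tt.spl m, false => 1 - ug k (Gn.e m.1)
  | Tt.add m n, i => ug k (Gn.y i m.1 n.1)

omit [Conical M] in
theorem idem_co (m : M) : (1 - ug k (Gn.e m)) * (1 - ug k (Gn.e m)) = 1 - ug k (Gn.e m) := by
  have h := (ug_rel k M).ee m
  rw [mul_sub, sub_mul, sub_mul, h]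
  simp

noncomputable def uS (k : Type) [Field k] (M : Type) [AddCommMonoid M] [Conical M] :
    Sys (oo M) (UU k M) where
  e := uSe k M
  u := uSu k M
  d := uSd k M
  ee := by
    rintro (_ | m | m)
    · exact mul_one _
    · exact (ug_rel k M).ee m.1
    · exact idem_co m.1
  eu := by
    rintro (m | ⟨m, n⟩) (_ | _)
    · exact one_mul _
    · exact one_mul _
    · exact (ug_rel k M).ex false m.1 n.1
    · exact (ug_rel k M).ex true m.1 n.1
  ue := by
    rintro (m | ⟨m, n⟩) (_ | _)
    · exact idem_co m.1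
    · exact (ug_rel k M).ee m.1
    · exact (ug_rel k M).xe false m.1 n.1
    · exact (ug_rel k M).xe true m.1 n.1
  ed := by
    rintro (m | ⟨m, n⟩) (_ | _)
    · exact idem_co m.1
    · exact (ug_rel k M).ee m.1
    · exact (ug_rel k M).ey false m.1 n.1
    · exact (ug_rel k M).ey true m.1 n.1
  de := by
    rintro (m | ⟨m, n⟩) (_ | _)
    · exact mul_one _
    · exact mul_one _
    · exact (ug_rel k M).ye false m.1 n.1
    · exact (ug_rel k M).ye true m.1 n.1
  du := by
    rintro (m | ⟨m, n⟩) (_ | _)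
    · exact idem_co m.1
    · exact (ug_rel k M).ee m.1
    · exact (ug_rel k M).yx false m.1 n.1
    · exact (ug_rel k M).yx true m.1 n.1
  du' := by
    have h := fun m => (ug_rel k M).ee m
    rintro (m | ⟨m, n⟩) (_ | _)
    · show (1 - ug k (Gn.e m.1)) * ug k (Gn.e m.1) = 0
      rw [sub_mul, h, one_mul, sub_self]
    · show ug k (Gn.e m.1) * (1 - ug k (Gn.e m.1)) = 0
      rw [mul_sub, h, mul_one, sub_self]
    · exact (ug_rel k M).yx' false m.1 n.1
    · exact (ug_rel k M).yx' true m.1 n.1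
  ud := by
    rintro (m | ⟨m, n⟩)
    · show ug k (Gn.e m.1) * ug k (Gn.e m.1) +
        (1 - ug k (Gn.e m.1)) * (1 - ug k (Gn.e m.1)) = 1
      rw [idem_co, (ug_rel k M).ee]
      abel
    · exact (ug_rel k M).xy m.1 n.1

theorem uS_E (m : M) : (uS k M).E m = ug k (Gn.e m) := by
  by_cases h : m = 0
  · subst h
    rw [Sys.E_zero, (ug_rel k M).e0]
  · have := (uS k M).E_nz ⟨m, h⟩
    simp only at this
    rw [this]
    exact (ug_rel k M).ee m

theorem uS_f (g : Gn M) : (uS k M).f g = ug k g := by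
  cases g with
  | e m => exact uS_E m
  | x i m n =>
    show (uS k M).X i m n = _
    refine pairCases (Q := fun m n => (uS k M).X i m n = ug k (Gn.x i m n)) ?_ ?_ ?_ m n
    · intro n
      cases i
      · rw [Sys.X_0f, uS_E, (ug_rel k M).x0']
      · rw [Sys.X_0t, ← (ug_rel k M).xe]
        show 0 = _ * ug k (Gn.e 0)
        rw [(ug_rel k M).e0, mul_zero]
    · intro m
      cases i
      · rw [Sys.X_f0, ← (ug_rel k M).xe]
        show 0 = _ * ug k (Gn.e 0)
        rw [(ug_rel k M).e0, mul_zero]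
      · rw [Sys.X_t0, uS_E, (ug_rel k M).x0]
    · intro m n
      rw [Sys.X_nz]
      show ug k (Gn.e (m.1 + n.1)) * (ug k (Gn.x i m.1 n.1) * ug k (Gn.e (sel i m n).1)) = _
      rw [sel_val, (ug_rel k M).xe, (ug_rel k M).ex]
  | y i m n =>
    show (uS k M).Y i m n = _
    refine pairCases (Q := fun m n => (uS k M).Y i m n = ug k (Gn.y i m n)) ?_ ?_ ?_ m n
    · intro n
      cases i
      · rw [Sys.Y_0f, uS_E, (ug_rel k M).y0']
      · rw [Sys.Y_0t, ← (ug_rel k M).ey]
        show 0 = ug k (Gn.e 0) * _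
        rw [(ug_rel k M).e0, zero_mul]
    · intro m
      cases i
      · rw [Sys.Y_f0, ← (ug_rel k M).ey]
        show 0 = ug k (Gn.e 0) * _
        rw [(ug_rel k M).e0, zero_mul]
      · rw [Sys.Y_t0, uS_E, (ug_rel k M).y0]
    · intro m n
      rw [Sys.Y_nz]
      show ug k (Gn.e (sel i m n).1) * (ug k (Gn.y i m.1 n.1) * ug k (Gn.e (m.1 + n.1))) = _
      rw [(ug_rel k M).ye, sel_val, (ug_rel k M).ey]

theorem Sys.map_f {R R' : Type} [Ring R] [Ring R'] (S : Sys (oo M) R) (φ : R →+* R') (g : Gn M) :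
    (S.map φ).f g = φ (S.f g) := by
  have hE : ∀ m, (S.map φ).E m = φ (S.E m) := by
    intro m
    by_cases h : m = 0
    · subst h
      rw [Sys.E_zero, Sys.E_zero, map_zero]
    · have h1 := (S.map φ).E_nz ⟨m, h⟩
      have h2 := S.E_nz ⟨m, h⟩
      simp only at h1 h2
      rw [h1, h2, map_mul]
      rfl
  cases g with
  | e m => exact hE m
  | x i m n =>
    show (S.map φ).X i m n = φ (S.X i m n)
    refine pairCases (Q := fun m n => (S.map φ).X i m n = φ (S.X i m n)) ?_ ?_ ?_ m n
    · intro n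
      cases i
      · rw [Sys.X_0f, Sys.X_0f, hE]
      · rw [Sys.X_0t, Sys.X_0t, map_zero]
    · intro m
      cases i
      · rw [Sys.X_f0, Sys.X_f0, map_zero]
      · rw [Sys.X_t0, Sys.X_t0, hE]
    · intro m n
      rw [Sys.X_nz, Sys.X_nz, map_mul, map_mul]
      rfl
  | y i m n =>
    show (S.map φ).Y i m n = φ (S.Y i m n)
    refine pairCases (Q := fun m n => (S.map φ).Y i m n = φ (S.Y i m n)) ?_ ?_ ?_ m n
    · intro n
      cases i
      · rw [Sys.Y_0f, Sys.Y_0f, hE]
      · rw [Sys.Y_0t, Sys.Y_0t, map_zero]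
    · intro m
      cases i
      · rw [Sys.Y_f0, Sys.Y_f0, map_zero]
      · rw [Sys.Y_t0, Sys.Y_t0, hE]
    · intro m n
      rw [Sys.Y_nz, Sys.Y_nz, map_mul, map_mul]
      rfl

section
variable {N : Type} [AddCommGroup N] [Module k N] (S : Sys (oo M) (Module.End k N))

theorem repI (A : Rep (mkB (oo M)) k N) (m : NZ M) (x : N) :
    (repSys A).I m x = Up A (Tt.spl m) true x := rfl
theorem repJ (A : Rep (mkB (oo M)) k N) (m : NZ M) (x : N) :
    (repSys A).J m x = Dn A (Tt.spl m) true x := rfl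
theorem repu (A : Rep (mkB (oo M)) k N) (t : Tt M) (i : Bool) (x : N) :
    (repSys A).u t i x = Up A t i x := rfl
theorem repd (A : Rep (mkB (oo M)) k N) (t : Tt M) (i : Bool) (x : N) :
    (repSys A).d t i x = Dn A t i x := rfl

theorem Up_add (i : Bool) (m n : NZ M) (v : N) : Up (sysRep S) (Tt.add m n) i
    (sg k (oo M) N (ir (oo M) (Ob.ob (sel i m n))) v) =
    sg k (oo M) N (ir (oo M) (Ob.ob (nzadd m n))) (S.u (Tt.add m n) i v) :=
  Up_sg S (Tt.add m n) i v

theorem Dn_add (i : Bool) (m n : NZ M) (v : N) : Dn (sysRep S) (Tt.add m n) i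
    (sg k (oo M) N (ir (oo M) (Ob.ob (nzadd m n))) v) =
    sg k (oo M) N (ir (oo M) (Ob.ob (sel i m n))) (S.d (Tt.add m n) i v) :=
  Dn_sg S (Tt.add m n) i v

theorem f_sg (g : Gn M) (v : N) :
    (repSys (sysRep S)).f g (sg k (oo M) N (ir (oo M) Ob.one) v) =
      sg k (oo M) N (ir (oo M) Ob.one) (S.f g v) := by
  have hI : ∀ (m : NZ M) (v : N), Up (sysRep S) (Tt.spl m) true
      (sg k (oo M) N (ir (oo M) (Ob.ob m)) v) = sg k (oo M) N (ir (oo M) Ob.one) (S.I m v) :=
    fun m v => Up_sg S (Tt.spl m) true v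
  have hJ : ∀ (m : NZ M) (v : N), Dn (sysRep S) (Tt.spl m) true
      (sg k (oo M) N (ir (oo M) Ob.one) v) = sg k (oo M) N (ir (oo M) (Ob.ob m)) (S.J m v) :=
    fun m v => Dn_sg S (Tt.spl m) true v
  have hE : ∀ m, (repSys (sysRep S)).E m (sg k (oo M) N (ir (oo M) Ob.one) v) =
      sg k (oo M) N (ir (oo M) Ob.one) (S.E m v) := by
    intro m
    by_cases h : m = 0
    · subst h
      rw [Sys.E_zero, Sys.E_zero]
      simp
    · have h1 := (repSys (sysRep S)).E_nz ⟨m, h⟩
      have h2 := S.E_nz ⟨m, h⟩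
      simp only at h1 h2
      rw [h1, h2]
      rw [Module.End.mul_apply, Module.End.mul_apply, repI, repJ, hJ, hI]
  cases g with
  | e m => exact hE m
  | x i m n =>
    show (repSys (sysRep S)).X i m n _ = sg k (oo M) N (ir (oo M) Ob.one) (S.X i m n v)
    refine pairCases (Q := fun m n => (repSys (sysRep S)).X i m n
      (sg k (oo M) N (ir (oo M) Ob.one) v) =
      sg k (oo M) N (ir (oo M) Ob.one) (S.X i m n v)) ?_ ?_ ?_ m n
    · intro n
      cases i
      · rw [Sys.X_0f, Sys.X_0f, hE]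
      · rw [Sys.X_0t, Sys.X_0t]; simp
    · intro m
      cases i
      · rw [Sys.X_f0, Sys.X_f0]; simp
      · rw [Sys.X_t0, Sys.X_t0, hE]
    · intro m n
      rw [Sys.X_nz, Sys.X_nz]
      rw [Module.End.mul_apply, Module.End.mul_apply, Module.End.mul_apply,
        Module.End.mul_apply, repI, repJ, repu, hJ, Up_add, hI]
  | y i m n =>
    show (repSys (sysRep S)).Y i m n _ = sg k (oo M) N (ir (oo M) Ob.one) (S.Y i m n v)
    refine pairCases (Q := fun m n => (repSys (sysRep S)).Y i m n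
      (sg k (oo M) N (ir (oo M) Ob.one) v) =
      sg k (oo M) N (ir (oo M) Ob.one) (S.Y i m n v)) ?_ ?_ ?_ m n
    · intro n
      cases i
      · rw [Sys.Y_0f, Sys.Y_0f, hE]
      · rw [Sys.Y_0t, Sys.Y_0t]; simp
    · intro m
      cases i
      · rw [Sys.Y_f0, Sys.Y_f0]; simp
      · rw [Sys.Y_t0, Sys.Y_t0, hE]
    · intro m n
      rw [Sys.Y_nz, Sys.Y_nz]
      rw [Module.End.mul_apply, Module.End.mul_apply, Module.End.mul_apply,
        Module.End.mul_apply, repI, repJ, repd, hJ, Dn_add, hI]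

theorem act_sg (ρ : UU k M →ₐ[k] Module.End k N) (u : UU k M) (v : N) :
    act (sysRep ((uS k M).map ρ.toRingHom)) u (sg k (oo M) N (ir (oo M) Ob.one) v) =
      sg k (oo M) N (ir (oo M) Ob.one) (ρ u v) := by
  have : ∀ u : UU k M, ∀ v, act (sysRep ((uS k M).map ρ.toRingHom)) u
      (sg k (oo M) N (ir (oo M) Ob.one) v) = sg k (oo M) N (ir (oo M) Ob.one) (ρ u v) := by
    apply U_induct
    · intro a v
      rw [AlgHom.commutes, AlgHom.commutes, Module.algebraMap_end_apply,
        Module.algebraMap_end_apply, map_smul]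
    · intro g v
      rw [act_ug, f_sg, Sys.map_f, uS_f]
      rfl
    · intro u v hu hv w
      rw [map_add, map_add, LinearMap.add_apply, LinearMap.add_apply, map_add, hu, hv]
    · intro u v hu hv w
      rw [map_mul, map_mul, Module.End.mul_apply, Module.End.mul_apply, hv, hu]
  exact this u v

end

/-! ### row vectors -/

noncomputable def rS (k : Type) [Field k] (M : Type) [AddCommMonoid M] [Conical M] (G : Type) :
    Sys (oo M) (Module.End k (G → UU k M)) :=
  (uS k M).map (Algebra.lsmul k k (G → UU k M)).toRingHom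

noncomputable def rRep (k : Type) [Field k] (M : Type) [AddCommMonoid M] [Conical M] (G : Type) :
    Rep (mkB (oo M)) k ((mkB (oo M)).I → (G → UU k M)) := sysRep (rS k M G)

theorem rS_eI (G : Type) (i : (mkB (oo M)).I) (v : G → UU k M) :
    (rS k M G).eI i v = (uS k M).eI i • v := by
  rcases i with ⟨t, i⟩ | g <;> rfl

/-- right multiplication by a matrix -/
noncomputable def rmul {G G' : Type} [Fintype G] (K : Matrix G G' (UU k M)) :
    (G → UU k M) →ₗ[k] (G' → UU k M) where
  toFun v := Matrix.vecMul v K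
  map_add' _ _ := Matrix.add_vecMul _ _ _
  map_smul' _ _ := Matrix.smul_vecMul _ _ _

omit [Conical M] in
theorem rmul_apply {G G' : Type} [Fintype G] (K : Matrix G G' (UU k M)) (v : G → UU k M) :
    rmul K v = Matrix.vecMul v K := rfl

omit [Conical M] in
theorem rmul_smul {G G' : Type} [Fintype G] (K : Matrix G G' (UU k M)) (u : UU k M)
    (v : G → UU k M) : rmul K (u • v) = u • rmul K v := by
  rw [rmul_apply, rmul_apply, Matrix.smul_vecMul]

section
variable {N : Type} [AddCommGroup N] [Module k N] {N' : Type} [AddCommGroup N'] [Module k N']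

theorem compLeft_sg (r : N →ₗ[k] N') (i : (mkB (oo M)).I) (v : N) :
    r.compLeft (mkB (oo M)).I (sg k (oo M) N i v) = sg k (oo M) N' i (r v) := by
  funext j
  show r (sg k (oo M) N i v j) = _
  by_cases h : j = i
  · subst h; rw [sg_same, sg_same]
  · rw [sg_ne h, sg_ne h, map_zero]

theorem sysHom {S : Sys (oo M) (Module.End k N)} {S' : Sys (oo M) (Module.End k N')}
    (r : N →ₗ[k] N') (he : ∀ g v, r (S.e g v) = S'.e g (r v))
    (hu : ∀ t i v, r (S.u t i v) = S'.u t i (r v))
    (hd : ∀ t i v, r (S.d t i v) = S'.d t i (r v)) :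
    IsHom (sysRep S) (sysRep S') (r.compLeft (mkB (oo M)).I) := by
  constructor
  · intro i x
    rw [sysRep_p, sysRep_p, compLeft_sg]
    congr 1
    rcases i with ⟨t, i⟩ | g
    · exact he _ _
    · exact he _ _
  · rintro ⟨t, (_ | i)⟩ x
    · show r.compLeft (mkB (oo M)).I (spT S (ic (oo M) t none) x) =
        spT S' (ic (oo M) t none) (r.compLeft (mkB (oo M)).I x)
      rw [spT_none, spT_none, map_add, map_add (r.compLeft (mkB (oo M)).I), compLeft_sg,
        compLeft_sg, compLeft_sg,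
        map_add r, hu, hu, hd, hd]
      rfl
    · show r.compLeft (mkB (oo M)).I (spT S (ic (oo M) t (some i)) x) =
        spT S' (ic (oo M) t (some i)) (r.compLeft (mkB (oo M)).I x)
      rw [spT_some, spT_some, map_add, compLeft_sg, compLeft_sg, he, he]
      rfl

end

theorem rmul_hom {G G' : Type} [Fintype G] (K : Matrix G G' (UU k M)) :
    IsHom (rRep k M G) (rRep k M G') ((rmul K).compLeft (mkB (oo M)).I) :=
  sysHom (rmul K) (fun _ v => rmul_smul K _ v) (fun _ _ v => rmul_smul K _ v)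
    (fun _ _ v => rmul_smul K _ v)

variable {G G' G'' : Type}

noncomputable def kap (k : Type) [Field k] {M : Type} [AddCommMonoid M] [Conical M] {G : Type}
    (lb : G → (mkB (oo M)).I) : VS k lb →ₗ[k] ((mkB (oo M)).I → (G → UU k M)) :=
  flift lb (rRep k M G) (fun g => sg k (oo M) (G → UU k M) (lb g)
    (Pi.single g ((uS k M).eI (lb g))))

omit [Conical M] in
theorem smul_single (g : G) (a b : UU k M) : a • (Pi.single g b : G → UU k M) =
    Pi.single g (a * b) := by
  funext g'
  by_cases h : g' = g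
  · subst h; simp
  · simp [h]

theorem kap_fix (lb : G → (mkB (oo M)).I) (g : G) : (rRep k M G).p (lb g)
    (sg k (oo M) (G → UU k M) (lb g) (Pi.single g ((uS k M).eI (lb g)))) =
    sg k (oo M) (G → UU k M) (lb g) (Pi.single g ((uS k M).eI (lb g))) := by
  rw [rRep, sysRep_p_sg, rS_eI, smul_single, (uS k M).eI_idem]

theorem kap_hom (lb : G → (mkB (oo M)).I) : IsHom (fRep k lb) (rRep k M G) (kap k lb) :=
  flift_hom _ (kap_fix lb)

theorem kap_gen (lb : G → (mkB (oo M)).I) (g : G) : kap k lb (fe k (gen g) trivial) =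
    sg k (oo M) (G → UU k M) (lb g) (Pi.single g ((uS k M).eI (lb g))) :=
  flift_gen _ _ g

noncomputable def Hm {lb : G → (mkB (oo M)).I} {lb' : G' → (mkB (oo M)).I}
    (h : VS k lb →ₗ[k] VS k lb') : Matrix G G' (UU k M) :=
  fun g => kap k lb' (h (fe k (gen g) trivial)) (lb g)

theorem Hm_key {lb : G → (mkB (oo M)).I} {lb' : G' → (mkB (oo M)).I}
    {h : VS k lb →ₗ[k] VS k lb'} (hh : IsHom (fRep k lb) (fRep k lb') h) (g : G) :
    kap k lb' (h (fe k (gen g) trivial)) = sg k (oo M) (G' → UU k M) (lb g) (Hm h g) := by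
  have h1 : (rRep k M G').p (lb g) (kap k lb' (h (fe k (gen g) trivial))) =
      kap k lb' (h (fe k (gen g) trivial)) := by
    rw [← (kap_hom lb').p, ← hh.p, fe_gen_p]
  rw [rRep, sysRep_p] at h1
  have h2 := congrFun h1 (lb g)
  rw [sg_same] at h2
  rw [← h1, h2]
  rfl

theorem Hm_eI {lb : G → (mkB (oo M)).I} {lb' : G' → (mkB (oo M)).I}
    {h : VS k lb →ₗ[k] VS k lb'} (hh : IsHom (fRep k lb) (fRep k lb') h) (g : G) :
    (uS k M).eI (lb g) • Hm h g = Hm h g := by
  have h1 : (rRep k M G').p (lb g) (kap k lb' (h (fe k (gen g) trivial))) =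
      kap k lb' (h (fe k (gen g) trivial)) := by
    rw [← (kap_hom lb').p, ← hh.p, fe_gen_p]
  rw [rRep, sysRep_p, rS_eI] at h1
  have h2 := congrFun h1 (lb g)
  rw [sg_same] at h2
  exact h2

theorem Hm_comp [Fintype G'] {lb : G → (mkB (oo M)).I} {lb' : G' → (mkB (oo M)).I}
    {lb'' : G'' → (mkB (oo M)).I} {h : VS k lb →ₗ[k] VS k lb'} {h' : VS k lb' →ₗ[k] VS k lb''}
    (hh : IsHom (fRep k lb) (fRep k lb') h) (hh' : IsHom (fRep k lb') (fRep k lb'') h') :
    Hm (h' ∘ₗ h) = Hm h * Hm h' := by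
  have key : ∀ x, (rmul (Hm h')).compLeft (mkB (oo M)).I (kap k lb' x) = kap k lb'' (h' x) := by
    intro x
    have := X0_lat.agree ((rmul_hom (Hm h')).comp (kap_hom lb')) ((kap_hom lb'').comp hh') (by
      intro x hx
      apply X0_induct (Q := fun x => (((rmul (Hm h')).compLeft (mkB (oo M)).I) ∘ₗ kap k lb') x =
        (kap k lb'' ∘ₗ h') x) _ _ _ _ hx
      · intro g'
        rw [LinearMap.comp_apply, LinearMap.comp_apply, kap_gen, compLeft_sg, Hm_key hh']
        congr 1
        rw [rmul_apply]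
        rw [← Hm_eI hh' g']
        funext g''
        rw [Matrix.single_vecMul]
        show _ = ((uS k M).eI (lb' g') * Hm h' g' g'')
        rfl
      · simp
      · intro x y hx hy; rw [map_add, map_add, hx, hy]
      · intro r x hx; rw [map_smul, map_smul, hx]) x
    exact this
  funext g
  have h1 : kap k lb'' (h' (h (fe k (gen g) trivial))) =
      sg k (oo M) (G'' → UU k M) (lb g) (rmul (Hm h') (Hm h g)) := by
    rw [← key, Hm_key hh, compLeft_sg]
  show kap k lb'' (h' (h (fe k (gen g) trivial))) (lb g) = _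
  rw [h1, sg_same, rmul_apply]
  rfl

theorem Hm_id (lb : G → (mkB (oo M)).I) : Hm (LinearMap.id : VS k lb →ₗ[k] VS k lb) =
    Matrix.diagonal (fun g => (uS k M).eI (lb g)) := by
  funext g
  show kap k lb (fe k (gen g) trivial) (lb g) = _
  rw [kap_gen, sg_same]
  funext g'
  rw [Matrix.diagonal_apply, Pi.single_apply]
  by_cases h : g = g'
  · subst h; simp
  · rw [if_neg h, if_neg (fun h' => h h'.symm)]

theorem ring_surj [Fintype G] (E : Matrix G G (UU k M)) (hE : E * E = E) :
    ∃ (G' : Type) (_ : Fintype G') (lb' : G' → (mkB (oo M)).I) (X : Matrix G G' (UU k M))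
      (Y : Matrix G' G (UU k M)), X * Y = E ∧
      Y * X = Matrix.diagonal (fun g => (uS k M).eI (lb' g)) := by
  let lb : G → (mkB (oo M)).I := fun _ => ir (oo M) Ob.one
  let z : G → VS k lb := fun i => ∑ j, act (fRep k lb) (E i j) (fe k (gen j) trivial)
  have hgp : ∀ j : G, (fRep k lb).p (ir (oo M) Ob.one) (fe k (gen j) trivial) =
      fe k (gen j) trivial := fun j => fe_gen_p (lb := lb) j
  have hz : ∀ g, (fRep k lb).p (lb g) (z g) = z g := by
    intro g
    show (fRep k lb).p (ir (oo M) Ob.one) (∑ j, act (fRep k lb) (E g j) (fe k (gen j) trivial)) = _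
    rw [map_sum]
    apply Finset.sum_congr rfl
    intro j _
    rw [← act_one, hgp]
  let Eh : VS k lb →ₗ[k] VS k lb := flift lb (fRep k lb) z
  have hEh : IsHom (fRep k lb) (fRep k lb) Eh := flift_hom _ hz
  have hEg : ∀ g, Eh (fe k (gen g) trivial) = z g := fun g => flift_gen _ _ g
  have hEE : ∀ x, Eh (Eh x) = Eh x := by
    intro x
    have := X0_lat.agree (hEh.comp hEh) hEh (by
      intro x hx
      apply X0_induct (Q := fun x => (Eh ∘ₗ Eh) x = Eh x) _ _ _ _ hx
      · intro g
        rw [LinearMap.comp_apply, hEg]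
        show Eh (∑ j, act (fRep k lb) (E g j) (fe k (gen j) trivial)) =
          ∑ j, act (fRep k lb) (E g j) (fe k (gen j) trivial)
        rw [map_sum]
        simp_rw [act_nat hEh, hEg]
        show ∑ i, act (fRep k lb) (E g i) (∑ j, act (fRep k lb) (E i j) (fe k (gen j) trivial)) = _
        simp_rw [map_sum]
        rw [Finset.sum_comm]
        apply Finset.sum_congr rfl
        intro j _
        have h1 : E g j = ∑ i, E g i * E i j := by
          conv_lhs => rw [← hE]
          rfl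
        rw [h1, map_sum, LinearMap.sum_apply]
        apply Finset.sum_congr rfl
        intro i _
        rw [map_mul, Module.End.mul_apply]
      · simp
      · intro x y hx hy; rw [map_add, map_add, hx, hy]
      · intro r x hx; rw [map_smul, map_smul, hx]) x
    exact this
  have hHE : Hm Eh = E := by
    funext i
    show kap k lb (Eh (fe k (gen i) trivial)) (ir (oo M) Ob.one) = E i
    rw [hEg]
    show kap k lb (∑ j, act (fRep k lb) (E i j) (fe k (gen j) trivial)) (ir (oo M) Ob.one) = E i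
    rw [map_sum]
    simp_rw [act_nat (kap_hom lb), kap_gen]
    have h1 : ∀ j, act (rRep k M G) (E i j) (sg k (oo M) (G → UU k M) (lb j)
        (Pi.single j ((uS k M).eI (lb j)))) =
        sg k (oo M) (G → UU k M) (ir (oo M) Ob.one) (Pi.single j (E i j)) := by
      intro j
      have h2 := act_sg (Algebra.lsmul k k (G → UU k M)) (E i j)
        (Pi.single j ((uS k M).eI (lb j)))
      refine h2.trans ?_
      congr 1
      show E i j • (Pi.single j ((uS k M).eI (lb j)) : G → UU k M) = _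
      rw [smul_single]
      congr 1
      exact mul_one _
    rw [Finset.sum_congr rfl (fun j _ => h1 j), ← map_sum, sg_same]
    funext j
    rw [Finset.sum_apply, Finset.sum_eq_single j]
    · rw [Pi.single_eq_same]
    · intro b _ hb
      rw [Pi.single_eq_of_ne (fun h => hb h.symm)]
    · intro h; exact (h (Finset.mem_univ _)).elim
  obtain ⟨G', hG', lb', α, β, hα, hβ, h1, h2⟩ := factor hEh hEE
  let _ := Fintype.ofFinite G'
  refine ⟨G', inferInstance, lb', Hm β, Hm α, ?_, ?_⟩
  · rw [← Hm_comp hβ hα]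
    have : α ∘ₗ β = Eh := LinearMap.ext h1
    rw [this, hHE]
  · rw [← Hm_comp hα hβ]
    have : β ∘ₗ α = LinearMap.id := LinearMap.ext h2
    rw [this, Hm_id]

/-! ### injectivity -/

theorem fe_ne {B : Bip} {G : Type} {lb : G → B.I} (b : Wd B G) (h : b.val lb) :
    fe k b h ≠ 0 := by
  intro h0
  have : Finsupp.single b (1 : k) = 0 := congrArg Subtype.val h0
  rw [Finsupp.single_eq_zero] at this
  exact one_ne_zero this

theorem DnUp_gen (m : NZ M) (x : VS k (fun _ : Unit => ir (oo M) (Ob.ob m)))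
    (hx : (fRep k (fun _ : Unit => ir (oo M) (Ob.ob m))).p (ir (oo M) (Ob.ob m)) x = x) :
    Dn (fRep k (fun _ : Unit => ir (oo M) (Ob.ob m))) (Tt.spl m) true
      (Up (fRep k (fun _ : Unit => ir (oo M) (Ob.ob m))) (Tt.spl m) true x) = x :=
  (Dn_Up _ (Tt.spl m) true x).trans hx

theorem ug_e_ne (m : NZ M) : ug k (Gn.e m.1) ≠ 0 := by
  intro h0
  let A := fRep k (fun _ : Unit => ir (oo M) (Ob.ob m))
  let g := fe k (lb := (fun _ : Unit => ir (oo M) (Ob.ob m))) (gen ()) trivial
  have hg : A.p (ir (oo M) (Ob.ob m)) g = g :=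
    fe_gen_p (lb := (fun _ : Unit => ir (oo M) (Ob.ob m))) ()
  have h1 := act_E A m (Up A (Tt.spl m) true g)
  rw [h0, map_zero, LinearMap.zero_apply, DnUp_gen m g hg] at h1
  have h2 := DnUp_gen m g hg
  have h3 : Dn A (Tt.spl m) true (Up A (Tt.spl m) true g) = g := h2
  rw [← h1, map_zero] at h3
  exact fe_ne _ _ h3.symm

noncomputable def gO (M : Type) [AddCommMonoid M] : Ob M → WithTop M
  | Ob.one => ⊤
  | Ob.ob m => (m.1 : WithTop M)
  | Ob.co _ => ⊤

noncomputable def gam (M : Type) [AddCommMonoid M] [Conical M] : (mkB (oo M)).I → WithTop M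
  | Sum.inl (t, i) => gO M (oo M t (some i))
  | Sum.inr g => gO M g

theorem gam_ok (c : (mkB (oo M)).C) (s : Bool) :
    ∑ i ∈ (mkB (oo M)).Rs s c, gam M i = ∑ i ∈ (mkB (oo M)).Rs (!s) c, gam M i := by
  have key : ∀ c : (mkB (oo M)).C,
      ∑ i ∈ (mkB (oo M)).Rs true c, gam M i = ∑ i ∈ (mkB (oo M)).Rs false c, gam M i := by
    rintro ⟨t, (_ | i)⟩
    · refine (sum_Rs_tn t _).trans (Eq.trans ?_ (sum_Rs_f t none _).symm)
      show gO M (oo M t (some true)) + gO M (oo M t (some false)) = gO M (oo M t none)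
      rcases t with m | ⟨m, n⟩
      · show (m.1 : WithTop M) + ⊤ = ⊤
        exact WithTop.add_top _
      · show (m.1 : WithTop M) + (n.1 : WithTop M) = ((m.1 + n.1 : M) : WithTop M)
        rw [WithTop.coe_add]
    · refine (sum_Rs_ts t i _).trans (Eq.trans ?_ (sum_Rs_f t (some i) _).symm)
      rfl
  cases s
  · exact (key c).symm
  · exact key c

theorem X0_unit {B : Bip} (lb : Unit → B.I) :
    X0 k lb = Submodule.span k {fe k (lb := lb) (gen ()) trivial} := by
  unfold X0
  rw [Set.range_unique]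

theorem fin_unit0 {V : Type} [AddCommGroup V] [Module k V] (S : Submodule k V) (v : S)
    (hv : v ≠ 0) : Module.finrank k (Submodule.span k {v}) = 1 :=
  finrank_span_singleton hv

theorem fin_unit {B : Bip} (lb : Unit → B.I) :
    Module.finrank k (Submodule.span k {fe k (lb := lb) (gen ()) trivial}) = 1 :=
  fin_unit0 (VS k lb) (fe k (lb := lb) (gen ()) trivial)
    (fe_ne (k := k) (lb := lb) (gen ()) trivial)

theorem cls_X0 {B : Bip} {Mo : Type} [AddCommMonoid Mo] (γ : B.I → Mo) (lb : Unit → B.I) :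
    cls (fRep k lb) γ (X0 k lb) = γ (lb ()) := by
  unfold cls
  rw [X0_unit, finsum_eq_single _ (lb ())]
  · rw [Submodule.map_span, Set.image_singleton, fe_gen_p, fin_unit, one_smul]
  · intro i hi
    rw [Submodule.map_span, Set.image_singleton, fRep_p_gen, if_neg (fun h => hi h.symm),
      Submodule.span_zero_singleton, finrank_bot, zero_smul]

theorem X0_term {B : Bip} {G : Type} (lb : G → B.I) : (fRep k lb).Term (X0 k lb) := by
  intro c s v hv
  exact (fFrame k lb).f5 s c v hv.1 hv.2.1 hv.2.2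

theorem half_iso {m n : NZ M} {x y : UU k M} (hxy : x * y = ug k (Gn.e m.1))
    (hyx : y * x = ug k (Gn.e n.1))
    {N : Type} [AddCommGroup N] [Module k N] (A : Rep (mkB (oo M)) k N) (g : N)
    (hg : A.p (ir (oo M) (Ob.ob m)) g = g) :
    Dn A (Tt.spl m) true (act A x (Up A (Tt.spl n) true
      (Dn A (Tt.spl n) true (act A y (Up A (Tt.spl m) true g))))) = g := by
  have h1 : x * (ug k (Gn.e n.1) * y) = ug k (Gn.e m.1) := by
    rw [← hyx, mul_assoc y, ← mul_assoc, hxy]
    exact (ug_rel k M).ee m.1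
  have h0 : ∀ z, act A x (Up A (Tt.spl n) true (Dn A (Tt.spl n) true (act A y z))) =
      Up A (Tt.spl m) true (Dn A (Tt.spl m) true z) := by
    intro z
    rw [← act_E, ← act_E, ← h1, map_mul, map_mul]
    rfl
  rw [h0]
  have h2 : ∀ z, Dn A (Tt.spl m) true (Up A (Tt.spl m) true z) = A.p (ir (oo M) (Ob.ob m)) z :=
    fun z => Dn_Up A (Tt.spl m) true z
  rw [h2, h2, hg, hg]

theorem ring_inj_nz {m n : NZ M} {x y : UU k M} (hxy : x * y = ug k (Gn.e m.1))
    (hyx : y * x = ug k (Gn.e n.1)) : m.1 = n.1 := by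
  let lm : Unit → (mkB (oo M)).I := fun _ => ir (oo M) (Ob.ob m)
  let ln : Unit → (mkB (oo M)).I := fun _ => ir (oo M) (Ob.ob n)
  let gm := fe k (lb := lm) (gen ()) trivial
  let gn := fe k (lb := ln) (gen ()) trivial
  have hgm : (fRep k lm).p (ir (oo M) (Ob.ob m)) gm = gm := fe_gen_p (lb := lm) ()
  have hgn : (fRep k ln).p (ir (oo M) (Ob.ob n)) gn = gn := fe_gen_p (lb := ln) ()
  let X : VS k ln := Dn (fRep k ln) (Tt.spl m) true (act (fRep k ln) x
    (Up (fRep k ln) (Tt.spl n) true gn))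
  let Y : VS k lm := Dn (fRep k lm) (Tt.spl n) true (act (fRep k lm) y
    (Up (fRep k lm) (Tt.spl m) true gm))
  have hX : ∀ g : Unit, (fRep k ln).p (lm g) X = X := fun _ => r_Dn (fRep k ln) (Tt.spl m) true _
  have hY : ∀ g : Unit, (fRep k lm).p (ln g) Y = Y := fun _ => r_Dn (fRep k lm) (Tt.spl n) true _
  let α := flift lm (fRep k ln) (fun _ => X)
  let β := flift ln (fRep k lm) (fun _ => Y)
  have hα : IsHom (fRep k lm) (fRep k ln) α := flift_hom _ hX
  have hβ : IsHom (fRep k ln) (fRep k lm) β := flift_hom _ hY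
  have hαg : α gm = X := flift_gen _ _ ()
  have hβg : β gn = Y := flift_gen _ _ ()
  have h1 : ∀ z, β (α z) = z := by
    intro z
    have := X0_lat.agree (hβ.comp hα) (IsHom.id (fRep k lm)) (by
      intro x' hx
      apply X0_induct (Q := fun x => (β ∘ₗ α) x = LinearMap.id x) _ _ _ _ hx
      · intro g
        show β (α gm) = gm
        rw [hαg]
        show β (Dn (fRep k ln) (Tt.spl m) true (act (fRep k ln) x
          (Up (fRep k ln) (Tt.spl n) true gn))) = gm
        rw [hom_Dn hβ, act_nat hβ, hom_Up hβ, hβg]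
        exact half_iso hxy hyx (fRep k lm) gm hgm
      · simp
      · intro x y hx hy; rw [map_add, map_add, hx, hy]
      · intro r x hx; rw [map_smul, map_smul, hx]) z
    exact this
  have h2 : ∀ z, α (β z) = z := by
    intro z
    have := X0_lat.agree (hα.comp hβ) (IsHom.id (fRep k ln)) (by
      intro x' hx
      apply X0_induct (Q := fun x => (α ∘ₗ β) x = LinearMap.id x) _ _ _ _ hx
      · intro g
        show α (β gn) = gn
        rw [hβg]
        show α (Dn (fRep k lm) (Tt.spl n) true (act (fRep k lm) y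
          (Up (fRep k lm) (Tt.spl m) true gm))) = gn
        rw [hom_Dn hα, act_nat hα, hom_Up hα, hαg]
        exact half_iso hyx hxy (fRep k ln) gn hgn
      · simp
      · intro x y hx hy; rw [map_add, map_add, hx, hy]
      · intro r x hx; rw [map_smul, map_smul, hx]) z
    exact this
  have hD : IsLat (fRep k ln) LinearMap.id ((X0 k lm).map α) := X0_lat.map_iso hα hβ h1 h2
  have hDT : (fRep k ln).Term ((X0 k lm).map α) := Term.map_iso (X0_term lm) hβ h1 h2
  obtain ⟨Z, hZ1, hZ2, hZ3⟩ := (X0_lat (k := k) (lb := ln)).contain (IsHom.id _) _ hD.fd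
    (fun _ _ => rfl)
  have h3 := T2 (A := fRep k ln) fRep_nd (gam M) gam_ok _ Z _ _ rfl hZ2 X0_lat (X0_term ln) hZ1
    hD hDT hZ3
  rw [cls_map (gam M) hα (Function.LeftInverse.injective h1), cls_X0, cls_X0] at h3
  have h4 : (n.1 : WithTop M) = (m.1 : WithTop M) := h3
  exact (WithTop.coe_injective h4).symm

theorem ring_inj {m n : M} {x y : UU k M} (hxy : x * y = ug k (Gn.e m))
    (hyx : y * x = ug k (Gn.e n)) : m = n := by
  by_cases hm : m = 0
  · by_cases hn : n = 0
    · rw [hm, hn]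
    · exfalso
      apply ug_e_ne (k := k) ⟨n, hn⟩
      subst hm
      rw [(ug_rel k M).e0] at hxy
      show ug k (Gn.e n) = 0
      rw [← (ug_rel k M).ee, ← hyx, mul_assoc, ← mul_assoc x, hxy, zero_mul, mul_zero]
  · by_cases hn : n = 0
    · exfalso
      apply ug_e_ne (k := k) ⟨m, hm⟩
      subst hn
      rw [(ug_rel k M).e0] at hyx
      show ug k (Gn.e m) = 0
      rw [← (ug_rel k M).ee, ← hxy, mul_assoc, ← mul_assoc y, hyx, zero_mul, mul_zero]
    · exact ring_inj_nz (m := ⟨m, hm⟩) (n := ⟨n, hn⟩) hxy hyx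

end Pool.Agent.H494R3.VR
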