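import Mathlib
import Pool.Agent.H494R3.VR.B9
import Pool.Agent.H494R3.VR.Defs

set_option autoImplicit false

/-!
The functor from conical commutative monoids to rings, and the natural isomorphism.
-/

namespace Pool.Agent.H494R3.VR

open scoped Classical
open CategoryTheory

section
variable (k : Type) [Field k] (M : Type) [AddCommMonoid M]

/-- augmentation -/
noncomputable def eps : UU k M →ₐ[k] k := ulift (fun _ => 0) (by constructor <;> simp)

theorem eps_ug (g : Gn M) : eps k M (ug k g) = 0 := ulift_ug _ _ g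

/-- the augmentation ideal -/
noncomputable def RR : NonUnitalSubring (UU k M) where
  carrier := {u | eps k M u = 0}
  add_mem' := by
    intro a b ha hb
    show eps k M (a + b) = 0
    rw [map_add, show eps k M a = 0 from ha, show eps k M b = 0 from hb, add_zero]
  zero_mem' := map_zero (eps k M)
  neg_mem' := by
    intro a ha
    show eps k M (-a) = 0
    rw [map_neg, show eps k M a = 0 from ha, neg_zero]
  mul_mem' := by
    intro a b ha _
    show eps k M (a * b) = 0
    rw [map_mul, show eps k M a = 0 from ha, zero_mul]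

end

section
variable {k : Type} [Field k] {M : Type} [AddCommMonoid M] {M' : Type} [AddCommMonoid M']
  {M'' : Type} [AddCommMonoid M'']

theorem mem_RR {u : UU k M} : u ∈ RR k M ↔ eps k M u = 0 := Iff.rfl

def Gn.map (θ : M → M') : Gn M → Gn M'
  | Gn.e m => Gn.e (θ m)
  | Gn.x i m n => Gn.x i (θ m) (θ n)
  | Gn.y i m n => Gn.y i (θ m) (θ n)

omit [AddCommMonoid M] [AddCommMonoid M'] in
theorem sel_map (θ : M → M') (i : Bool) (m n : M) : θ (sel i m n) = sel i (θ m) (θ n) := by
  cases i <;> rfl

theorem umap_rel (θ : M →+ M') : RelOK (fun g : Gn M => ug k (Gn.map θ g)) := by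
  have h := ug_rel k M'
  constructor
  · show ug k (Gn.e (θ 0)) = 0
    rw [map_zero]; exact h.e0
  · intro m; exact h.ee _
  · intro i m n
    show ug k (Gn.e (θ (m + n))) * _ = _
    rw [map_add]; exact h.ex _ _ _
  · intro i m n
    show _ * ug k (Gn.e (θ (sel i m n))) = _
    rw [sel_map θ i m n]; exact h.xe _ _ _
  · intro i m n
    show ug k (Gn.e (θ (sel i m n))) * _ = _
    rw [sel_map θ i m n]; exact h.ey _ _ _
  · intro i m n
    show _ * ug k (Gn.e (θ (m + n))) = _
    rw [map_add]; exact h.ye _ _ _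
  · intro i m n
    show _ = ug k (Gn.e (θ (sel i m n)))
    rw [sel_map θ i m n]; exact h.yx _ _ _
  · intro i m n; exact h.yx' _ _ _
  · intro m n
    show _ = ug k (Gn.e (θ (m + n)))
    rw [map_add]; exact h.xy _ _
  · intro m
    show ug k (Gn.x true (θ m) (θ 0)) = _
    rw [map_zero]; exact h.x0 _
  · intro m
    show ug k (Gn.y true (θ m) (θ 0)) = _
    rw [map_zero]; exact h.y0 _
  · intro m
    show ug k (Gn.x false (θ 0) (θ m)) = _
    rw [map_zero]; exact h.x0' _
  · intro m
    show ug k (Gn.y false (θ 0) (θ m)) = _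
    rw [map_zero]; exact h.y0' _

noncomputable def umap (k : Type) [Field k] (θ : M →+ M') : UU k M →ₐ[k] UU k M' :=
  ulift (fun g => ug k (Gn.map θ g)) (umap_rel θ)

theorem umap_ug (θ : M →+ M') (g : Gn M) : umap k θ (ug k g) = ug k (Gn.map θ g) :=
  ulift_ug _ _ g

theorem eps_umap (θ : M →+ M') (u : UU k M) : eps k M' (umap k θ u) = eps k M u := by
  have := U_ext (f := (eps k M').comp (umap k θ)) (g := eps k M) (by
    intro g
    rw [AlgHom.comp_apply, umap_ug, eps_ug, eps_ug]) u
  exact this

theorem umap_id (u : UU k M) : umap k (AddMonoidHom.id M) u = u := by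
  have := U_ext (f := umap k (AddMonoidHom.id M)) (g := AlgHom.id k (UU k M)) (by
    intro g
    rw [umap_ug]
    cases g <;> rfl) u
  exact this

theorem umap_comp (θ : M →+ M') (η : M' →+ M'') (u : UU k M) :
    umap k (η.comp θ) u = umap k η (umap k θ u) := by
  have := U_ext (f := umap k (η.comp θ)) (g := (umap k η).comp (umap k θ)) (by
    intro g
    rw [AlgHom.comp_apply, umap_ug, umap_ug, umap_ug]
    cases g <;> rfl) u
  exact this

noncomputable def rmap (k : Type) [Field k] (θ : M →+ M') : RR k M →ₙ+* RR k M' where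
  toFun u := ⟨umap k θ u.1, by rw [mem_RR, eps_umap]; exact u.2⟩
  map_zero' := Subtype.ext (map_zero (umap k θ))
  map_add' u v := Subtype.ext (map_add (umap k θ) u.1 v.1)
  map_mul' u v := Subtype.ext (map_mul (umap k θ) u.1 v.1)

theorem rmap_coe (θ : M →+ M') (u : RR k M) : (rmap k θ u : UU k M') = umap k θ u.1 := rfl

noncomputable def eR (k : Type) [Field k] (m : M) : RR k M := ⟨ug k (Gn.e m), eps_ug k M _⟩
noncomputable def xR (k : Type) [Field k] (i : Bool) (m n : M) : RR k M :=
  ⟨ug k (Gn.x i m n), eps_ug k M _⟩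
noncomputable def yR (k : Type) [Field k] (i : Bool) (m n : M) : RR k M :=
  ⟨ug k (Gn.y i m n), eps_ug k M _⟩

theorem rmap_eR (θ : M →+ M') (m : M) : rmap k θ (eR k m) = eR k (θ m) :=
  Subtype.ext (umap_ug θ (Gn.e m))

theorem eR_idem (m : M) : eR k m * eR k m = eR k m := Subtype.ext ((ug_rel k M).ee m)

theorem eR_zero : eR k (0 : M) = 0 := Subtype.ext (ug_rel k M).e0

end

/-- one by one matrices -/
def sc {R : Type} (a : R) : Matrix (Fin 1) (Fin 1) R := fun _ _ => a

theorem sc_mul {R : Type} [NonUnitalRing R] (a b : R) : sc a * sc b = sc (a * b) := by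
  ext i j
  rw [Matrix.mul_apply]
  simp [sc]

section
variable {k : Type} [Field k] {M : Type} [AddCommMonoid M]

noncomputable def eI1 (k : Type) [Field k] (m : M) : Idem (RR k M) :=
  ⟨1, sc (eR k m), by rw [sc_mul, eR_idem]⟩

theorem eta_add (m n : M) : VV.mk (eI1 k (m + n)) = VV.mk (eI1 k m) + VV.mk (eI1 k n) := by
  rw [VV.add_mk, VV.mk_eq]
  have h := ug_rel k M
  have h1 : Eqv (sc (eR k (m + n))) (Matrix.fromBlocks (sc (eR k m)) 0 0 (sc (eR k n))) := by
    refine ⟨Matrix.fromCols (sc (xR k true m n)) (sc (xR k false m n)),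
      Matrix.fromRows (sc (yR k true m n)) (sc (yR k false m n)), ?_, ?_⟩
    · rw [colrow, sc_mul, sc_mul]
      have : xR k true m n * yR k true m n + xR k false m n * yR k false m n = eR k (m + n) :=
        Subtype.ext (h.xy m n)
      rw [← this]
      rfl
    · rw [rowcol, sc_mul, sc_mul, sc_mul, sc_mul]
      have e1 : yR k true m n * xR k true m n = eR k m := Subtype.ext (h.yx true m n)
      have e2 : yR k true m n * xR k false m n = 0 := Subtype.ext (h.yx' true m n)
      have e3 : yR k false m n * xR k true m n = 0 := Subtype.ext (h.yx' false m n)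
      have e4 : yR k false m n * xR k false m n = eR k n := Subtype.ext (h.yx false m n)
      rw [e1, e2, e3, e4]
      rfl
  have i1 : sc (eR k (m + n)) * sc (eR k (m + n)) = sc (eR k (m + n)) := (eI1 k (m + n)).idem
  have i2 : sc (eR k m) * sc (eR k m) = sc (eR k m) := (eI1 k m).idem
  have i3 : sc (eR k n) * sc (eR k n) = sc (eR k n) := (eI1 k n).idem
  exact Eqv.trans i1 (blk_idem i2 i3) h1 (Eqv.blk i2 i3)

/-- the natural map -/
noncomputable def eta (k : Type) [Field k] (M : Type) [AddCommMonoid M] : M →+ VV (RR k M) where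
  toFun m := VV.mk (eI1 k m)
  map_zero' := by
    rw [VV.zero_mk, VV.mk_eq]
    have h1 : (eI1 k (0 : M)).mat = 0 := by
      show sc (eR k (0 : M)) = 0
      rw [eR_zero]; rfl
    rw [h1]
    exact Eqv.zero
  map_add' := eta_add

theorem eta_apply (m : M) : eta k M m = VV.mk (eI1 k m) := rfl

theorem eta_nat {M' : Type} [AddCommMonoid M'] (θ : M →+ M') (m : M) :
    VV.map (rmap k θ) (eta k M m) = eta k M' (θ m) := by
  have h1 : ((eI1 k m).map (rmap k θ)).mat = (eI1 k (θ m)).mat := by
    show (sc (eR k m)).map (rmap k θ) = sc (eR k (θ m))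
    rw [← rmap_eR]
    rfl
  have h2 : VV.mk ((eI1 k m).map (rmap k θ)) = VV.mk (eI1 k (θ m)) := by
    apply VV.mk_eq.2
    rw [h1]
    exact Eqv.refl (eI1 k (θ m)).idem
  exact h2

theorem diag_idem {ι : Type} [Fintype ι] [DecidableEq ι] (c : ι → M) :
    Matrix.diagonal (fun i => eR k (c i)) * Matrix.diagonal (fun i => eR k (c i)) =
      Matrix.diagonal (fun i => eR k (c i)) := by
  rw [Matrix.diagonal_mul_diagonal]
  congr 1
  funext i
  exact eR_idem _

theorem diag_class (n : ℕ) : ∀ c : Fin n → M,
    VV.mk (⟨n, Matrix.diagonal (fun i => eR k (c i)), diag_idem c⟩ : Idem (RR k M)) =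
      eta k M (∑ i, c i) := by
  induction n with
  | zero =>
    intro c
    rw [Finset.univ_eq_empty, Finset.sum_empty, map_zero, VV.zero_mk, VV.mk_eq]
    have : (Matrix.diagonal (fun i => eR k (c i)) : Matrix (Fin 0) (Fin 0) (RR k M)) = 0 := by
      ext i; exact i.elim0
    show Eqv (Matrix.diagonal (fun i => eR k (c i))) _
    rw [this]
    exact Eqv.zero
  | succ n ih =>
    intro c
    rw [Fin.sum_univ_castSucc, map_add, ← ih, eta_apply, VV.add_mk, VV.mk_eq]
    have key : blk (Matrix.diagonal (fun i : Fin n => eR k (c i.castSucc)))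
        (sc (eR k (c (Fin.last n)))) = Matrix.diagonal (fun i => eR k (c i)) := by
      have h1 : sc (eR k (c (Fin.last n))) =
          Matrix.diagonal (fun _ : Fin 1 => eR k (c (Fin.last n))) := by
        ext i j
        have : i = j := Subsingleton.elim _ _
        subst this
        rw [Matrix.diagonal_apply_eq]
        rfl
      rw [blk, h1, Matrix.fromBlocks_diagonal, Matrix.submatrix_diagonal_equiv]
      congr 1
      funext i
      refine Fin.addCases (fun j => ?_) (fun j => ?_) i
      · simp
        rfl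
      · simp
        have : j = 0 := Subsingleton.elim _ _
        subst this
        rfl
    show Eqv (Matrix.diagonal (fun i => eR k (c i)))
      (blk (Matrix.diagonal (fun i : Fin n => eR k (c i.castSucc))) (sc (eR k (c (Fin.last n)))))
    rw [key]
    exact Eqv.refl (diag_idem c)

/-- the inclusion -/
noncomputable def inc (k : Type) [Field k] (M : Type) [AddCommMonoid M] : RR k M →ₙ+* UU k M where
  toFun u := u.1
  map_zero' := rfl
  map_add' _ _ := rfl
  map_mul' _ _ := rfl

theorem inc_inj : Function.Injective (inc k M) := Subtype.val_injective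

theorem map_inc_inj {ι κ : Type} {a b : Matrix ι κ (RR k M)}
    (h : a.map (inc k M) = b.map (inc k M)) : a = b := by
  ext i j
  have := congrFun (congrFun h i) j
  exact this

theorem eps_map_inc {ι κ : Type} (a : Matrix ι κ (RR k M)) :
    (a.map (inc k M)).map (eps k M) = 0 := by
  ext i j
  exact (a i j).2

theorem liftM {ι κ : Type} (a : Matrix ι κ (UU k M)) (h : a.map (eps k M) = 0) :
    ∃ b : Matrix ι κ (RR k M), b.map (inc k M) = a :=
  ⟨fun i j => ⟨a i j, by
    have := congrFun (congrFun h i) j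
    exact this⟩, rfl⟩

theorem transfer {ι κ : Type} [Fintype ι] [Fintype κ] {P : Matrix ι ι (RR k M)}
    {Q : Matrix κ κ (RR k M)} (hP : P * P = P) (hQ : Q * Q = Q)
    (h : Eqv (P.map (inc k M)) (Q.map (inc k M))) : Eqv P Q := by
  obtain ⟨x, y, h1, h2⟩ := h
  have hP' : P.map (inc k M) * P.map (inc k M) = P.map (inc k M) := by
    rw [← Matrix.map_mul, hP]
  have hQ' : Q.map (inc k M) * Q.map (inc k M) = Q.map (inc k M) := by
    rw [← Matrix.map_mul, hQ]
  have hm : ∀ {α β γ : Type} [Fintype β] (a : Matrix α β (UU k M)) (b : Matrix β γ (UU k M)),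
      (a * b).map (eps k M) = a.map (eps k M) * b.map (eps k M) :=
    fun a b => Matrix.map_mul (f := (eps k M))
  obtain ⟨x', hx'⟩ := liftM (P.map (inc k M) * x * Q.map (inc k M)) (by
    rw [hm, eps_map_inc, Matrix.mul_zero])
  obtain ⟨y', hy'⟩ := liftM (Q.map (inc k M) * y * P.map (inc k M)) (by
    rw [hm, eps_map_inc, Matrix.mul_zero])
  set p := P.map (inc k M)
  set q := Q.map (inc k M)
  have hyx : x * q * y = p := by
    calc x * q * y = (x * y) * (x * y) := by rw [← h2]; simp only [Matrix.mul_assoc]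
      _ = p := by rw [h1, hP']
  have hxy : y * p * x = q := by
    calc y * p * x = (y * x) * (y * x) := by rw [← h1]; simp only [Matrix.mul_assoc]
      _ = q := by rw [h2, hQ']
  refine ⟨x', y', map_inc_inj ?_, map_inc_inj ?_⟩
  · rw [Matrix.map_mul, hx', hy']
    calc p * x * q * (q * y * p) = p * (x * (q * q) * y) * p := by
          simp only [Matrix.mul_assoc]
      _ = p := by rw [hQ', hyx, hP', hP']
  · rw [Matrix.map_mul, hx', hy']
    calc q * y * p * (p * x * q) = q * (y * (p * p) * x) * q := by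
          simp only [Matrix.mul_assoc]
      _ = q := by rw [hP', hxy, hQ', hQ']

theorem obj_class [Conical M] (i : (mkB (oo M)).I) (h : eps k M ((uS k M).eI i) = 0) :
    ∃ m : M, (uS k M).eI i = ug k (Gn.e m) := by
  have key : ∀ g : Ob M, eps k M (uSe k M g) = 0 → ∃ m : M, uSe k M g = ug k (Gn.e m) := by
    rintro (_ | m | m) h
    · exfalso
      have : eps k M (1 : UU k M) = 0 := h
      rw [map_one] at this
      exact one_ne_zero this
    · exact ⟨m.1, rfl⟩
    · exfalso
      have : eps k M (1 - ug k (Gn.e m.1)) = 0 := h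
      rw [map_sub, map_one, eps_ug, sub_zero] at this
      exact one_ne_zero this
  rcases i with ⟨t, i⟩ | g
  · exact key _ h
  · exact key _ h

theorem eta_surj [Conical M] : Function.Surjective (eta k M) := by
  rintro ⟨n, E, hE⟩
  have hE' : E.map (inc k M) * E.map (inc k M) = E.map (inc k M) := by
    rw [← Matrix.map_mul, hE]
  obtain ⟨G', _, lb', X, Y, h1, h2⟩ := ring_surj (E.map (inc k M)) hE'
  have hm : ∀ {α β γ : Type} [Fintype β] (a : Matrix α β (UU k M)) (b : Matrix β γ (UU k M)),
      (a * b).map (eps k M) = a.map (eps k M) * b.map (eps k M) :=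
    fun a b => Matrix.map_mul (f := (eps k M))
  have hdd : Matrix.diagonal (fun g => (uS k M).eI (lb' g)) *
      Matrix.diagonal (fun g => (uS k M).eI (lb' g)) =
      Matrix.diagonal (fun g => (uS k M).eI (lb' g)) := by
    rw [Matrix.diagonal_mul_diagonal]
    congr 1
    funext g
    exact (uS k M).eI_idem _
  have hd0 : (Matrix.diagonal (fun g => (uS k M).eI (lb' g))).map (eps k M) = 0 := by
    rw [← hdd, ← h2, Matrix.mul_assoc, ← Matrix.mul_assoc X, h1, hm, hm, eps_map_inc,
      Matrix.zero_mul, Matrix.mul_zero]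
  have hc : ∀ g, ∃ m : M, (uS k M).eI (lb' g) = ug k (Gn.e m) := by
    intro g
    apply obj_class
    have := congrFun (congrFun hd0 g) g
    rw [Matrix.map_apply, Matrix.diagonal_apply_eq] at this
    exact this
  choose c hc using hc
  have hD : (Matrix.diagonal (fun g => eR k (c g))).map (inc k M) =
      Matrix.diagonal (fun g => (uS k M).eI (lb' g)) := by
    rw [Matrix.diagonal_map (map_zero (inc k M))]
    congr 1
    funext g
    rw [hc]
    rfl
  have h3 : Eqv E (Matrix.diagonal (fun g => eR k (c g))) := by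
    apply transfer hE (diag_idem c)
    rw [hD]
    exact ⟨X, Y, h1, h2⟩
  have h4 := Eqv.reindex (diag_idem (k := k) c) (Fintype.equivFin G')
  rw [Matrix.submatrix_diagonal_equiv] at h4
  have h5 := Eqv.trans hE (diag_idem (k := k) (c ∘ (Fintype.equivFin G').symm)) h3 h4
  refine ⟨∑ i, (c ∘ (Fintype.equivFin G').symm) i, ?_⟩
  rw [← diag_class]
  exact (VV.mk_eq (e := ⟨n, E, hE⟩)).2 h5 |>.symm

theorem eta_inj [Conical M] : Function.Injective (eta k M) := by
  intro m n h
  have h' : Eqv (sc (eR k m)) (sc (eR k n)) := VV.mk_eq.1 h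
  obtain ⟨x, y, h1, h2⟩ := h'
  have e1 : x 0 0 * y 0 0 = eR k m := by
    have := congrFun (congrFun h1 0) 0
    rw [Matrix.mul_apply] at this
    refine Eq.trans ?_ this
    exact (Fin.sum_univ_one (fun i => x 0 i * y i 0)).symm
  have e2 : y 0 0 * x 0 0 = eR k n := by
    have := congrFun (congrFun h2 0) 0
    rw [Matrix.mul_apply] at this
    refine Eq.trans ?_ this
    exact (Fin.sum_univ_one (fun i => y 0 i * x i 0)).symm
  exact ring_inj (k := k) (congrArg Subtype.val e1) (congrArg Subtype.val e2)

end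

instance (M : ConMon) : Conical M.carrier := ⟨M.conical⟩

/-- the functor from conical commutative monoids to rings -/
noncomputable def Psi : ConMon ⥤ Rng where
  obj M := ⟨RR ℚ M.carrier, inferInstance⟩
  map θ := rmap ℚ θ
  map_id M := by
    apply NonUnitalRingHom.ext
    intro u
    exact Subtype.ext (umap_id u.1)
  map_comp θ η := by
    apply NonUnitalRingHom.ext
    intro u
    exact Subtype.ext (umap_comp θ η u.1)

noncomputable def etaIso (M : ConMon) : (𝟭 ConMon).obj M ≅ (Psi ⋙ Vfun).obj M where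
  hom := eta ℚ M.carrier
  inv := (AddEquiv.ofBijective (eta ℚ M.carrier) ⟨eta_inj, eta_surj⟩).symm.toAddMonoidHom
  hom_inv_id := by
    apply AddMonoidHom.ext
    intro x
    exact (AddEquiv.ofBijective (eta ℚ M.carrier) ⟨eta_inj, eta_surj⟩).symm_apply_apply x
  inv_hom_id := by
    apply AddMonoidHom.ext
    intro x
    exact (AddEquiv.ofBijective (eta ℚ M.carrier) ⟨eta_inj, eta_surj⟩).apply_symm_apply x

noncomputable def mainIso : Psi ⋙ Vfun ≅ 𝟭 ConMon :=
  (NatIso.ofComponents (F := 𝟭 ConMon) (G := Psi ⋙ Vfun) etaIso (by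
    intro M M' θ
    apply AddMonoidHom.ext
    intro m
    exact (eta_nat (k := ℚ) θ m).symm)).symm

theorem main : ∃ Ψ : ConMon ⥤ Rng, Nonempty (Ψ ⋙ Vfun ≅ 𝟭 ConMon) :=
  ⟨Psi, ⟨mainIso⟩⟩

end Pool.Agent.H494R3.VR
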